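import Pool.Agent.helper3.FlatTorus.Defs

/-! The generalized Clifford tori. -/

namespace Pool.Agent.helper3.FlatTorus
open Set
open scoped ContDiff

lemma inner2 (x y : EuclideanSpace ℝ (Fin 2)) : (inner ℝ x y : ℝ) = x 0 * y 0 + x 1 * y 1 := by
  simp [PiLp.inner_apply, Fin.sum_univ_two, mul_comm]

lemma norm2 (x : EuclideanSpace ℝ (Fin 2)) : ‖x‖ ^ 2 = x 0 ^ 2 + x 1 ^ 2 := by
  rw [← real_inner_self_eq_norm_sq, inner2]; ring

section
variable {a b : EuclideanSpace ℝ (Fin 2)} (ha : a ≠ 0) (hb : b ≠ 0) (hab : inner ℝ a b = (0 : ℝ))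
include ha hb hab

lemma expand2 (w : EuclideanSpace ℝ (Fin 2)) :
    w = ((inner ℝ a w : ℝ) / ‖a‖ ^ 2) • a + ((inner ℝ b w : ℝ) / ‖b‖ ^ 2) • b := by
  have na : 0 < ‖a‖ ^ 2 := by have := norm_pos_iff.2 ha; positivity
  have nb : 0 < ‖b‖ ^ 2 := by have := norm_pos_iff.2 hb; positivity
  set α := (inner ℝ a w : ℝ) / ‖a‖ ^ 2 with hα
  set β := (inner ℝ b w : ℝ) / ‖b‖ ^ 2 with hβ
  have h1 : α * ‖a‖ ^ 2 = inner ℝ a w := by rw [hα]; field_simp
  have h2 : β * ‖b‖ ^ 2 = inner ℝ b w := by rw [hβ]; field_simp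
  rw [norm2, inner2] at h1 h2
  rw [norm2] at na nb
  rw [inner2] at hab
  have hdet : (a 0 * b 1 - a 1 * b 0) ^ 2 = (a 0 ^ 2 + a 1 ^ 2) * (b 0 ^ 2 + b 1 ^ 2) := by
    linear_combination (-(a 0 * b 0 + a 1 * b 1)) * hab
  have hdet0 : a 0 * b 1 - a 1 * b 0 ≠ 0 := by
    intro h0
    rw [h0] at hdet
    have : 0 < (a 0 ^ 2 + a 1 ^ 2) * (b 0 ^ 2 + b 1 ^ 2) := mul_pos na nb
    rw [← hdet] at this
    norm_num at this
  ext i
  have e1 : a 0 * (w 0 - (α * a 0 + β * b 0)) + a 1 * (w 1 - (α * a 1 + β * b 1)) = 0 := by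
    linear_combination (-1 : ℝ) * h1 - β * hab
  have e2 : b 0 * (w 0 - (α * a 0 + β * b 0)) + b 1 * (w 1 - (α * a 1 + β * b 1)) = 0 := by
    linear_combination (-1 : ℝ) * h2 - α * hab
  have f0 : (a 0 * b 1 - a 1 * b 0) * (w 0 - (α * a 0 + β * b 0)) = 0 := by
    linear_combination b 1 * e1 - a 1 * e2
  have f1 : (a 0 * b 1 - a 1 * b 0) * (w 1 - (α * a 1 + β * b 1)) = 0 := by
    linear_combination a 0 * e2 - b 0 * e1
  have g0 := (mul_eq_zero.1 f0).resolve_left hdet0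
  have g1 := (mul_eq_zero.1 f1).resolve_left hdet0
  fin_cases i
  · simp; linarith
  · simp; linarith

lemma parseval2 (w : EuclideanSpace ℝ (Fin 2)) :
    (inner ℝ a w : ℝ) ^ 2 / ‖a‖ ^ 2 + (inner ℝ b w : ℝ) ^ 2 / ‖b‖ ^ 2 = ‖w‖ ^ 2 := by
  have h := expand2 ha hb hab w
  have h2 : (inner ℝ w w : ℝ) = inner ℝ (((inner ℝ a w : ℝ) / ‖a‖ ^ 2) • a +
      ((inner ℝ b w : ℝ) / ‖b‖ ^ 2) • b) w := by rw [← h]
  rw [inner_add_left, inner_smul_left, inner_smul_left, real_inner_self_eq_norm_sq] at h2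
  rw [h2]
  simp only [RCLike.conj_to_real]
  ring

omit ha hb in
lemma norm_comb2 (α β : ℝ) : ‖α • a + β • b‖ ^ 2 = α ^ 2 * ‖a‖ ^ 2 + β ^ 2 * ‖b‖ ^ 2 := by
  rw [@norm_add_sq_real, norm_smul, norm_smul, inner_smul_left, inner_smul_right, hab]
  simp [mul_pow]

end

/-- The generalized Clifford immersion. -/
noncomputable def cliff (a b : EuclideanSpace ℝ (Fin 2)) (z : EuclideanSpace ℝ (Fin 2)) :
    EuclideanSpace ℝ (Fin 4) :=
  WithLp.toLp 2 ![‖a‖ / (2 * Real.pi) * Real.cos (2 * Real.pi / ‖a‖ ^ 2 * inner ℝ a z),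
    ‖a‖ / (2 * Real.pi) * Real.sin (2 * Real.pi / ‖a‖ ^ 2 * inner ℝ a z),
    ‖b‖ / (2 * Real.pi) * Real.cos (2 * Real.pi / ‖b‖ ^ 2 * inner ℝ b z),
    ‖b‖ / (2 * Real.pi) * Real.sin (2 * Real.pi / ‖b‖ ^ 2 * inner ℝ b z)]

lemma cliff_immersible {a b : EuclideanSpace ℝ (Fin 2)} (ha : a ≠ 0) (hb : b ≠ 0)
    (hab : inner ℝ a b = (0 : ℝ)) (hn : ‖a‖ ^ 2 + ‖b‖ ^ 2 = (2 * Real.pi) ^ 2) :
    Immersible (Submodule.span ℤ {a, b}) := by
  have hpi := Real.pi_pos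
  have na0 := norm_pos_iff.2 ha
  have nb0 := norm_pos_iff.2 hb
  have na : 0 < ‖a‖ ^ 2 := by positivity
  have nb : 0 < ‖b‖ ^ 2 := by positivity
  have hlin : ∀ (c : EuclideanSpace ℝ (Fin 2)) (k : ℝ) (z : EuclideanSpace ℝ (Fin 2)),
      HasFDerivAt (fun z => k * (inner ℝ c z : ℝ)) (k • innerSL ℝ c) z := by
    intro c k z
    have h1 : HasFDerivAt (fun z => (inner ℝ c z : ℝ)) (innerSL ℝ c) z :=
      (innerSL ℝ c).hasFDerivAt
    exact h1.const_mul k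
  have hcos : ∀ (c : EuclideanSpace ℝ (Fin 2)) (r k : ℝ) (z : EuclideanSpace ℝ (Fin 2)),
      HasFDerivAt (fun z => r * Real.cos (k * (inner ℝ c z : ℝ)))
        (r • (-Real.sin (k * (inner ℝ c z : ℝ)) • (k • innerSL ℝ c))) z := by
    intro c r k z
    exact ((hlin c k z).cos).const_mul r
  have hsin : ∀ (c : EuclideanSpace ℝ (Fin 2)) (r k : ℝ) (z : EuclideanSpace ℝ (Fin 2)),
      HasFDerivAt (fun z => r * Real.sin (k * (inner ℝ c z : ℝ)))
        (r • (Real.cos (k * (inner ℝ c z : ℝ)) • (k • innerSL ℝ c))) z := by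
    intro c r k z
    exact ((hlin c k z).sin).const_mul r
  have hsmooth : ContDiff ℝ ∞ (cliff a b) := by
    have hi : ∀ c : EuclideanSpace ℝ (Fin 2), ContDiff ℝ ∞ fun z => (inner ℝ c z : ℝ) :=
      fun c => (innerSL ℝ c).contDiff
    rw [contDiff_euclidean]
    intro i
    fin_cases i
    · exact contDiff_const.mul (Real.contDiff_cos.comp (contDiff_const.mul (hi a)))
    · exact contDiff_const.mul (Real.contDiff_sin.comp (contDiff_const.mul (hi a)))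
    · exact contDiff_const.mul (Real.contDiff_cos.comp (contDiff_const.mul (hi b)))
    · exact contDiff_const.mul (Real.contDiff_sin.comp (contDiff_const.mul (hi b)))
  refine ⟨cliff a b, hsmooth, ?_, ?_, ?_⟩
  · intro z
    have h1 : ‖cliff a b z‖ ^ 2 = 1 := by
      rw [EuclideanSpace.norm_sq_eq, Fin.sum_univ_four]
      simp only [cliff, Matrix.cons_val_zero, Matrix.cons_val_one, Matrix.cons_val,
        Real.norm_eq_abs, sq_abs]
      have c1 := Real.cos_sq_add_sin_sq (2 * Real.pi / ‖a‖ ^ 2 * inner ℝ a z)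
      have c2 := Real.cos_sq_add_sin_sq (2 * Real.pi / ‖b‖ ^ 2 * inner ℝ b z)
      have : (‖a‖ / (2 * Real.pi)) ^ 2 + (‖b‖ / (2 * Real.pi)) ^ 2 = 1 := by
        rw [div_pow, div_pow, ← add_div, hn, div_self (by positivity)]
      linear_combination (‖a‖ / (2 * Real.pi)) ^ 2 * c1 + (‖b‖ / (2 * Real.pi)) ^ 2 * c2 + this
    have h2 := norm_nonneg (cliff a b z)
    nlinarith
  · intro z w
    have hd : DifferentiableAt ℝ (cliff a b) z := hsmooth.differentiable (by simp) z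
    have hcomp : ∀ i, (fderiv ℝ (cliff a b) z w) i = fderiv ℝ (fun x => cliff a b x i) z w := by
      intro i
      have h1 : HasFDerivAt (fun x => cliff a b x i)
          ((EuclideanSpace.proj i : EuclideanSpace ℝ (Fin 4) →L[ℝ] ℝ).comp
            (fderiv ℝ (cliff a b) z)) z :=
        (EuclideanSpace.proj i : EuclideanSpace ℝ (Fin 4) →L[ℝ] ℝ).hasFDerivAt.comp z hd.hasFDerivAt
      rw [h1.fderiv]; rfl
    have h1 : ‖fderiv ℝ (cliff a b) z w‖ ^ 2 = ‖w‖ ^ 2 := by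
      rw [EuclideanSpace.norm_sq_eq, Fin.sum_univ_four, hcomp, hcomp, hcomp, hcomp]
      have e0 : (fun x => cliff a b x 0) = fun x => ‖a‖ / (2 * Real.pi) *
          Real.cos (2 * Real.pi / ‖a‖ ^ 2 * inner ℝ a x) := rfl
      have e1 : (fun x => cliff a b x 1) = fun x => ‖a‖ / (2 * Real.pi) *
          Real.sin (2 * Real.pi / ‖a‖ ^ 2 * inner ℝ a x) := rfl
      have e2 : (fun x => cliff a b x 2) = fun x => ‖b‖ / (2 * Real.pi) *
          Real.cos (2 * Real.pi / ‖b‖ ^ 2 * inner ℝ b x) := rfl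
      have e3 : (fun x => cliff a b x 3) = fun x => ‖b‖ / (2 * Real.pi) *
          Real.sin (2 * Real.pi / ‖b‖ ^ 2 * inner ℝ b x) := rfl
      rw [e0, e1, e2, e3, (hcos a _ _ z).fderiv, (hsin a _ _ z).fderiv, (hcos b _ _ z).fderiv,
        (hsin b _ _ z).fderiv]
      simp only [FunLike.coe_smul, Pi.smul_apply, innerSL_apply_apply, smul_eq_mul,
        Real.norm_eq_abs, sq_abs]
      have c1 := Real.cos_sq_add_sin_sq (2 * Real.pi / ‖a‖ ^ 2 * inner ℝ a z)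
      have c2 := Real.cos_sq_add_sin_sq (2 * Real.pi / ‖b‖ ^ 2 * inner ℝ b z)
      have hp := parseval2 ha hb hab w
      have k1 : (‖a‖ / (2 * Real.pi)) * (2 * Real.pi / ‖a‖ ^ 2 * (inner ℝ a w : ℝ))
          = (inner ℝ a w : ℝ) / ‖a‖ := by field_simp
      have k2 : (‖b‖ / (2 * Real.pi)) * (2 * Real.pi / ‖b‖ ^ 2 * (inner ℝ b w : ℝ))
          = (inner ℝ b w : ℝ) / ‖b‖ := by field_simp
      have k3 : ((‖a‖ / (2 * Real.pi)) * (2 * Real.pi / ‖a‖ ^ 2 * (inner ℝ a w : ℝ))) ^ 2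
          = (inner ℝ a w : ℝ) ^ 2 / ‖a‖ ^ 2 := by rw [k1, div_pow]
      have k4 : ((‖b‖ / (2 * Real.pi)) * (2 * Real.pi / ‖b‖ ^ 2 * (inner ℝ b w : ℝ))) ^ 2
          = (inner ℝ b w : ℝ) ^ 2 / ‖b‖ ^ 2 := by rw [k2, div_pow]
      rw [← hp, ← k3, ← k4]
      linear_combination ((‖a‖ / (2 * Real.pi)) * (2 * Real.pi / ‖a‖ ^ 2 * (inner ℝ a w : ℝ))) ^ 2
        * c1 + ((‖b‖ / (2 * Real.pi)) * (2 * Real.pi / ‖b‖ ^ 2 * (inner ℝ b w : ℝ))) ^ 2 * c2
    exact (pow_left_inj₀ (norm_nonneg _) (norm_nonneg _) (by norm_num)).1 h1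
  · intro z v hv
    rw [Submodule.mem_span_pair] at hv
    obtain ⟨m, n, rfl⟩ := hv
    have hba : (inner ℝ b a : ℝ) = 0 := by rw [real_inner_comm]; exact hab
    have k1 : 2 * Real.pi / ‖a‖ ^ 2 * (inner ℝ a (z + (m • a + n • b)) : ℝ)
        = 2 * Real.pi / ‖a‖ ^ 2 * (inner ℝ a z : ℝ) + m * (2 * Real.pi) := by
      rw [inner_add_right, inner_add_right, ← Int.cast_smul_eq_zsmul ℝ,
        ← Int.cast_smul_eq_zsmul ℝ, inner_smul_right, inner_smul_right, hab,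
        real_inner_self_eq_norm_sq]
      field_simp
      ring
    have k2 : 2 * Real.pi / ‖b‖ ^ 2 * (inner ℝ b (z + (m • a + n • b)) : ℝ)
        = 2 * Real.pi / ‖b‖ ^ 2 * (inner ℝ b z : ℝ) + n * (2 * Real.pi) := by
      rw [inner_add_right, inner_add_right, ← Int.cast_smul_eq_zsmul ℝ,
        ← Int.cast_smul_eq_zsmul ℝ, inner_smul_right, inner_smul_right, hba,
        real_inner_self_eq_norm_sq]
      field_simp
      ring
    unfold cliff
    rw [k1, k2, Real.cos_add_int_mul_two_pi, Real.sin_add_int_mul_two_pi,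
      Real.cos_add_int_mul_two_pi, Real.sin_add_int_mul_two_pi]

/-- every point is at distance at most `π` from a Clifford lattice -/
lemma cliff_cover {a b : EuclideanSpace ℝ (Fin 2)} (ha : a ≠ 0) (hb : b ≠ 0)
    (hab : inner ℝ a b = (0 : ℝ)) (hn : ‖a‖ ^ 2 + ‖b‖ ^ 2 = (2 * Real.pi) ^ 2)
    (y : EuclideanSpace ℝ (Fin 2)) :
    ∃ l ∈ Submodule.span ℤ {a, b}, ‖l - y‖ ≤ Real.pi := by
  have hpi := Real.pi_pos
  set α := (inner ℝ a y : ℝ) / ‖a‖ ^ 2 with hα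
  set β := (inner ℝ b y : ℝ) / ‖b‖ ^ 2 with hβ
  refine ⟨(round α) • a + (round β) • b, Submodule.mem_span_pair.2 ⟨_, _, rfl⟩, ?_⟩
  have h1 : (round α) • a + (round β) • b - y = (round α - α) • a + (round β - β) • b := by
    conv_lhs => rw [expand2 ha hb hab y]
    rw [← hα, ← hβ, ← Int.cast_smul_eq_zsmul ℝ, ← Int.cast_smul_eq_zsmul ℝ]
    module
  have h2 : ‖(round α) • a + (round β) • b - y‖ ^ 2 ≤ Real.pi ^ 2 := by
    rw [h1, norm_comb2 hab]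
    have hra := abs_sub_round α
    have hrb := abs_sub_round β
    have h3 : (round α - α) ^ 2 ≤ 1 / 4 := by
      rw [← sq_abs, abs_sub_comm]; nlinarith [abs_nonneg (α - round α)]
    have h4 : (round β - β) ^ 2 ≤ 1 / 4 := by
      rw [← sq_abs, abs_sub_comm]; nlinarith [abs_nonneg (β - round β)]
    have h5 : (round α - α) ^ 2 * ‖a‖ ^ 2 ≤ 1 / 4 * ‖a‖ ^ 2 := by gcongr
    have h6 : (round β - β) ^ 2 * ‖b‖ ^ 2 ≤ 1 / 4 * ‖b‖ ^ 2 := by gcongr
    nlinarith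
  exact le_of_sq_le_sq h2 hpi.le

end Pool.Agent.helper3.FlatTorus
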