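import Pool.Agent.helper3.FlatTorus.Aut

/-! Approximation of rolling curves by polygons. -/

namespace Pool.Agent.helper3.FlatTorus
open Quaternion Complex Set
open Pool.Agent.helper70.Tori (er hol sx sy Nonneg io)

lemma EE_sub_one {J : ℍ[ℝ]} (h : IU J) (x : ℝ) : ‖EE J x - 1‖ ≤ |x| := by
  have h1 : ‖EE J x - 1‖ ^ 2 = 2 - 2 * Real.cos x := by
    have e1 : ‖EE J x‖ = 1 := EE_norm h x
    rw [@norm_sub_sq_real, e1]
    have : (inner ℝ (EE J x) (1 : ℍ[ℝ]) : ℝ) = Real.cos x := by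
      rw [qinner]; simp [EE, h.re]
    rw [this]; simp; ring
  have h2 := Real.one_sub_sq_div_two_le_cos (x := x)
  have h3 : ‖EE J x - 1‖ ^ 2 ≤ |x| ^ 2 := by rw [h1, sq_abs]; linarith
  exact le_of_sq_le_sq h3 (abs_nonneg _)

/-- data of a rolling curve -/
structure Roll (A B : ℍ[ℝ]) (x y x' y' : ℝ → ℝ) (c : ℝ → ℍ[ℝ]) : Prop where
  hA : IU A
  hB : IU B
  hx : ∀ t, HasDerivAt x (x' t) t
  hy : ∀ t, HasDerivAt y (y' t) t
  hc : ∀ t, HasDerivAt c (c t * (x' t • A + y' t • B)) t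
  hn : ∀ t, ‖c t‖ = 1

namespace Roll
variable {A B : ℍ[ℝ]} {x y x' y' : ℝ → ℝ} {c : ℝ → ℍ[ℝ]} (h : Roll A B x y x' y' c)
include h

lemma star_mul_self (t : ℝ) : star (c t) * c t = 1 := by
  rw [Quaternion.star_mul_self, Quaternion.normSq_eq_norm_mul_self, h.hn]; simp

lemma self_mul_star (t : ℝ) : c t * star (c t) = 1 := by
  rw [Quaternion.self_mul_star, Quaternion.normSq_eq_norm_mul_self, h.hn]; simp

lemma lip {L s t : ℝ} (hst : s ≤ t) (hL : ∀ r ∈ Icc s t, |x' r| ≤ L ∧ |y' r| ≤ L) :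
    ‖star (c s) * c t - 1‖ ≤ 2 * L * (t - s) := by
  have h1 : ∀ r ∈ Icc s t, HasDerivWithinAt c (c r * (x' r • A + y' r • B)) (Icc s t) r :=
    fun r _ => (h.hc r).hasDerivWithinAt
  have h2 : ∀ r ∈ Ico s t, ‖c r * (x' r • A + y' r • B)‖ ≤ 2 * L := by
    intro r hr
    obtain ⟨k1, k2⟩ := hL r ⟨hr.1, hr.2.le⟩
    rw [norm_mul, h.hn, one_mul]
    refine (norm_add_le _ _).trans ?_
    rw [norm_smul, norm_smul, h.hA.nm, h.hB.nm, Real.norm_eq_abs, Real.norm_eq_abs]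
    linarith
  have h3 := norm_image_sub_le_of_norm_deriv_le_segment' h1 h2 t ⟨hst, le_rfl⟩
  have h4 : ‖star (c s) * c t - 1‖ = ‖c t - c s‖ := by
    rw [← h.star_mul_self s, ← mul_sub, norm_mul, norm_star, h.hn, one_mul]
  rw [h4]; exact h3

lemma lipx {L s t : ℝ} (hst : s ≤ t) (hL : ∀ r ∈ Icc s t, |x' r| ≤ L ∧ |y' r| ≤ L) :
    |x t - x s| ≤ L * (t - s) := by
  exact norm_image_sub_le_of_norm_deriv_le_segment' (fun r _ => (h.hx r).hasDerivWithinAt)
    (fun r hr => (hL r ⟨hr.1, hr.2.le⟩).1) t ⟨hst, le_rfl⟩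

lemma lipy {L s t : ℝ} (hst : s ≤ t) (hL : ∀ r ∈ Icc s t, |x' r| ≤ L ∧ |y' r| ≤ L) :
    |y t - y s| ≤ L * (t - s) := by
  exact norm_image_sub_le_of_norm_deriv_le_segment' (fun r _ => (h.hy r).hasDerivWithinAt)
    (fun r hr => (hL r ⟨hr.1, hr.2.le⟩).2) t ⟨hst, le_rfl⟩

/-- local estimate -/
lemma step {L s t : ℝ} (hst : s ≤ t) (hL : ∀ r ∈ Icc s t, |x' r| ≤ L ∧ |y' r| ≤ L) :
    ‖star (c s) * c t - EE A (x t - x s) * EE B (y t - y s)‖ ≤ 10 * L ^ 2 * (t - s) ^ 2 := by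
  have hL0 : 0 ≤ L := (abs_nonneg _).trans (hL s ⟨le_rfl, hst⟩).1
  set G : ℝ → ℍ[ℝ] := fun r => star (c s) * c r - EE A (x r - x s) * EE B (y r - y s) with hG
  set G' : ℝ → ℍ[ℝ] := fun r => star (c s) * (c r * (x' r • A + y' r • B)) -
    ((x' r • (A * EE A (x r - x s))) * EE B (y r - y s) +
      EE A (x r - x s) * (y' r • (B * EE B (y r - y s)))) with hG'
  have hGd : ∀ r, HasDerivAt G (G' r) r := by
    intro r
    have h1 := (h.hc r).const_mul (star (c s))
    have h2 := EE_hasDerivAt h.hA ((h.hx r).sub_const (x s))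
    have h3 := EE_hasDerivAt h.hB ((h.hy r).sub_const (y s))
    exact h1.sub (h2.mul h3)
  have hbd : ∀ r ∈ Ico s t, ‖G' r‖ ≤ 10 * L ^ 2 * (t - s) := by
    intro r hr
    have hLr : ∀ q ∈ Icc s r, |x' q| ≤ L ∧ |y' q| ≤ L := fun q hq => hL q ⟨hq.1, hq.2.trans hr.2.le⟩
    obtain ⟨k1, k2⟩ := hL r ⟨hr.1, hr.2.le⟩
    have l1 := h.lip hr.1 hLr
    have l2 := (EE_sub_one h.hA (x r - x s)).trans (h.lipx hr.1 hLr)
    have l3 := (EE_sub_one h.hB (y r - y s)).trans (h.lipy hr.1 hLr)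
    set P := star (c s) * c r with hP
    set E := EE A (x r - x s) with hE
    set F := EE B (y r - y s) with hF
    have nE : ‖E‖ = 1 := EE_norm h.hA _
    have nF : ‖F‖ = 1 := EE_norm h.hB _
    have nA := h.hA.nm
    have nB := h.hB.nm
    have e1 : G' r = x' r • ((P - 1) * A - (A * (E - 1) + A * E * (F - 1))) +
        y' r • ((P - 1) * B - ((E - 1) * B + E * B * (F - 1))) := by
      simp only [hG', ← hE, ← hF, hP]
      rw [← mul_assoc]
      simp only [smul_mul_assoc, mul_smul_comm, mul_add, mul_sub, sub_mul, mul_one, one_mul,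
        smul_sub, smul_add, mul_assoc]
      abel
    have b1 : ‖(P - 1) * A - (A * (E - 1) + A * E * (F - 1))‖ ≤ 4 * L * (r - s) := by
      refine (norm_sub_le _ _).trans ?_
      have : ‖A * (E - 1) + A * E * (F - 1)‖ ≤ ‖E - 1‖ + ‖F - 1‖ := by
        refine (norm_add_le _ _).trans ?_
        rw [norm_mul, norm_mul, norm_mul, nA, nE]; simp
      rw [norm_mul, nA, mul_one]
      linarith
    have b2 : ‖(P - 1) * B - ((E - 1) * B + E * B * (F - 1))‖ ≤ 4 * L * (r - s) := by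
      refine (norm_sub_le _ _).trans ?_
      have : ‖(E - 1) * B + E * B * (F - 1)‖ ≤ ‖E - 1‖ + ‖F - 1‖ := by
        refine (norm_add_le _ _).trans ?_
        rw [norm_mul, norm_mul, norm_mul, nB, nE]; simp
      rw [norm_mul, nB, mul_one]
      linarith
    rw [e1]
    refine (norm_add_le _ _).trans ?_
    rw [norm_smul, norm_smul, Real.norm_eq_abs, Real.norm_eq_abs]
    have hrs : 0 ≤ r - s := by linarith [hr.1]
    have c1 : |x' r| * ‖(P - 1) * A - (A * (E - 1) + A * E * (F - 1))‖ ≤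
        L * (4 * L * (r - s)) := by gcongr
    have c2 : |y' r| * ‖(P - 1) * B - ((E - 1) * B + E * B * (F - 1))‖ ≤
        L * (4 * L * (r - s)) := by gcongr
    have hrt : r - s ≤ t - s := by linarith [hr.2]
    have : L ^ 2 * (r - s) ≤ L ^ 2 * (t - s) := by gcongr
    have : 0 ≤ L ^ 2 * (r - s) := by positivity
    nlinarith
  have h3 := norm_image_sub_le_of_norm_deriv_le_segment' (fun r _ => (hGd r).hasDerivWithinAt)
    hbd t ⟨hst, le_rfl⟩
  have h4 : G s = 0 := by simp [hG, h.star_mul_self, EE_zero]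
  rw [h4, sub_zero] at h3
  refine h3.trans (le_of_eq ?_)
  ring

/-- polygons with `k` steps of size `r` -/
lemma poly {L r T : ℝ} (hr : 0 ≤ r) (hL : ∀ t ∈ Icc 0 T, |x' t| ≤ L ∧ |y' t| ≤ L)
    (hpos : ∀ t, 0 ≤ x' t ∧ 0 ≤ y' t) (k : ℕ) (hk : k * r ≤ T) :
    ∃ l : List (ℝ × ℝ), Nonneg l ∧ sx l = x (k * r) - x 0 ∧ sy l = y (k * r) - y 0 ∧
      ‖star (c 0) * c (k * r) - holJ A B l‖ ≤ k * (10 * L ^ 2 * r ^ 2) := by
  have mx : Monotone x := monotone_of_hasDerivAt_nonneg h.hx (fun t => (hpos t).1)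
  have my : Monotone y := monotone_of_hasDerivAt_nonneg h.hy (fun t => (hpos t).2)
  induction k with
  | zero => 
    refine ⟨[], by simp [Nonneg], by simp [sx], by simp [sy], ?_⟩
    simp [holJ, h.star_mul_self]
  | succ k ih =>
    have hkr : (k : ℝ) * r ≤ T := by
      refine le_trans ?_ hk
      push_cast; nlinarith
    obtain ⟨l, h1, h2, h3, h4⟩ := ih hkr
    set s : ℝ := k * r with hs
    set t : ℝ := ((k + 1 : ℕ) : ℝ) * r with ht
    have hst : s ≤ t := by rw [hs, ht]; push_cast; nlinarith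
    have hs0 : 0 ≤ s := by positivity
    have hts : t - s = r := by rw [hs, ht]; push_cast; ring
    refine ⟨l ++ [(x t - x s, y t - y s)], ?_, ?_, ?_, ?_⟩
    · apply h1.append
      intro p hp
      simp only [List.mem_singleton] at hp
      subst hp
      exact ⟨by simpa using mx hst, by simpa using my hst⟩
    · rw [Pool.Agent.helper70.Tori.sx_append, h2]
      simp [sx]
    · rw [Pool.Agent.helper70.Tori.sy_append, h3]
      simp [sy]
    · have h5 := h.step hst (fun q hq => hL q ⟨hs0.trans hq.1, hq.2.trans hk⟩)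
      rw [hts] at h5
      set W := holJ A B l with hW
      set Q := EE A (x t - x s) * EE B (y t - y s) with hQ
      have e0 : holJ A B (l ++ [(x t - x s, y t - y s)]) = W * Q := by
        rw [holJ_append]; simp [holJ, hW, hQ]
      have nQ : ‖Q‖ = 1 := by rw [hQ, norm_mul, EE_norm h.hA, EE_norm h.hB, one_mul]
      have e1 : star (c 0) * c t - W * Q =
          (star (c 0) * c s) * (star (c s) * c t - Q) + (star (c 0) * c s - W) * Q := by
        have : (star (c 0) * c s) * (star (c s) * c t) = star (c 0) * c t := by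
          rw [mul_assoc, ← mul_assoc (c s), h.self_mul_star, one_mul]
        rw [mul_sub, this, sub_mul]; abel
      rw [e0, e1]
      refine (norm_add_le _ _).trans ?_
      rw [norm_mul, norm_mul (star (c 0) * c s - W), nQ, mul_one, norm_mul, norm_star, h.hn, h.hn,
        one_mul, one_mul]
      push_cast
      linarith

/-- approximation -/
lemma approx (hcx : Continuous x') (hcy : Continuous y') (hpos : ∀ t, 0 ≤ x' t ∧ 0 ≤ y' t)
    {T : ℝ} (hT : 0 ≤ T) {δ : ℝ} (hδ : 0 < δ) :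
    ∃ l : List (ℝ × ℝ), Nonneg l ∧ sx l = x T - x 0 ∧ sy l = y T - y 0 ∧
      ‖star (c 0) * c T - holJ A B l‖ < δ := by
  obtain ⟨L1, hL1⟩ := isCompact_Icc.exists_bound_of_continuousOn (s := Icc 0 T) hcx.continuousOn
  obtain ⟨L2, hL2⟩ := isCompact_Icc.exists_bound_of_continuousOn (s := Icc 0 T) hcy.continuousOn
  set L := max L1 L2 with hL
  have hLb : ∀ t ∈ Icc 0 T, |x' t| ≤ L ∧ |y' t| ≤ L := fun t ht =>
    ⟨(hL1 t ht).trans (le_max_left _ _), (hL2 t ht).trans (le_max_right _ _)⟩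
  obtain ⟨n, hn⟩ := exists_nat_gt (10 * L ^ 2 * T ^ 2 / δ)
  have hn0 : (0 : ℝ) < n := lt_of_le_of_lt (by positivity) hn
  obtain ⟨l, h1, h2, h3, h4⟩ := h.poly (r := T / n) (T := T) (L := L) (by positivity) hLb hpos n
    (le_of_eq (by field_simp))
  have e : (n : ℝ) * (T / n) = T := by field_simp
  rw [e] at h2 h3 h4
  refine ⟨l, h1, h2, h3, h4.trans_lt ?_⟩
  rw [div_lt_iff₀ hδ] at hn
  have e2 : (n : ℝ) * (10 * L ^ 2 * (T / n) ^ 2) = 10 * L ^ 2 * T ^ 2 / n := by field_simp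
  rw [e2, div_lt_iff₀ hn0]
  linarith

end Roll

end Pool.Agent.helper3.FlatTorus
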