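import Mathlib

/-! Angles along curves in the unit sphere. -/

namespace Pool.Agent.helper3.FlatTorus
open Set Filter Topology InnerProductGeometry

variable {V : Type*} [NormedAddCommGroup V] [InnerProductSpace ℝ V]

lemma unit_angle {x y : V} (hx : ‖x‖ = 1) (hy : ‖y‖ = 1) :
    angle x y = Real.arccos (inner ℝ x y) := by
  unfold angle; rw [hx, hy]; simp

/-- component estimate -/
lemma inner_deriv_bound {u g g' : V} (hu : ‖u‖ = 1) (hg : ‖g‖ = 1) (ho : inner ℝ g g' = (0 : ℝ)) :
    |(inner ℝ u g' : ℝ)| ≤ ‖g'‖ * Real.sqrt (1 - (inner ℝ u g : ℝ) ^ 2) := by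
  set h : ℝ := inner ℝ u g with hh
  have h1 : (inner ℝ u g' : ℝ) = inner ℝ (u - h • g) g' := by
    rw [inner_sub_left, inner_smul_left, ho]; simp
  have h2 : ‖u - h • g‖ ^ 2 = 1 - h ^ 2 := by
    rw [@norm_sub_sq_real, norm_smul, hu, hg, inner_smul_right, ← hh]
    simp
    ring
  have h3 : ‖u - h • g‖ = Real.sqrt (1 - h ^ 2) := by
    rw [← h2, Real.sqrt_sq (norm_nonneg _)]
  rw [h1]
  refine (abs_real_inner_le_norm _ _).trans ?_
  rw [h3, mul_comm]

/-- cosine comparison along a curve in the unit sphere -/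
lemma arc_cos {G G' : ℝ → V} {S S' : ℝ → ℝ} {a b : ℝ} (hab : a ≤ b)
    (hG : ∀ t ∈ Icc a b, HasDerivAt G (G' t) t) (hn : ∀ t, ‖G t‖ = 1)
    (hS : ∀ t ∈ Icc a b, HasDerivAt S (S' t) t) (hle : ∀ t ∈ Icc a b, ‖G' t‖ ≤ S' t)
    (hlt : S b - S a < Real.pi) : Real.cos (S b - S a) ≤ inner ℝ (G a) (G b) := by
  set u := G a with hu
  have hS0 : ∀ t ∈ Icc a b, 0 ≤ S' t := fun t ht => (norm_nonneg _).trans (hle t ht)
  have hSm : MonotoneOn S (Icc a b) := by
    apply monotoneOn_of_deriv_nonneg (convex_Icc a b)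
      (fun t ht => (hS t ht).continuousAt.continuousWithinAt)
      (fun t ht => (hS t (interior_subset ht)).differentiableAt.differentiableWithinAt)
    intro t ht
    rw [(hS t (interior_subset ht)).deriv]
    exact hS0 t (interior_subset ht)
  have hort : ∀ t ∈ Icc a b, (inner ℝ (G t) (G' t) : ℝ) = 0 := by
    intro t ht
    have h1 := (hG t ht).inner ℝ (hG t ht)
    have h2 : (fun t => (inner ℝ (G t) (G t) : ℝ)) = fun _ => 1 := by
      funext t; rw [real_inner_self_eq_norm_sq, hn]; norm_num
    rw [h2] at h1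
    have h3 := h1.unique (hasDerivAt_const t (1 : ℝ))
    rw [real_inner_comm (G t) (G' t)] at h3
    linarith
  -- approximate version
  have key : ∀ δ : ℝ, 0 < δ → (S b - S a) + δ * (1 + (b - a)) < Real.pi →
      Real.cos (S b - S a + δ * (1 + (b - a))) ≤ inner ℝ u (G b) := by
    intro δ hδ hδπ
    set ph : ℝ → ℝ := fun t => S t - S a + δ * (1 + (t - a)) with hph
    have hphd : ∀ t ∈ Icc a b, HasDerivAt ph (S' t + δ) t := by
      intro t ht
      have h1 : HasDerivAt (fun t : ℝ => δ * (1 + (t - a))) δ t := by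
        have := (((hasDerivAt_id t).sub_const a).const_add 1).const_mul δ
        simpa using this
      exact ((hS t ht).sub_const _).add h1
    have hpos : ∀ t ∈ Icc a b, 0 < ph t ∧ ph t < Real.pi := by
      intro t ht
      have h1 : S a ≤ S t := hSm ⟨le_refl a, hab⟩ ht ht.1
      have h2 : S t ≤ S b := hSm ht ⟨hab, le_refl b⟩ ht.2
      have h3 : 0 ≤ δ * (t - a) := mul_nonneg hδ.le (by linarith [ht.1])
      have h4 : δ * (t - a) ≤ δ * (b - a) := mul_le_mul_of_nonneg_left (by linarith [ht.2]) hδ.le
      constructor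
      · simp only [hph]; nlinarith
      · simp only [hph]; nlinarith
    have hfd : ∀ t ∈ Icc a b, HasDerivAt (fun t => -(inner ℝ u (G t) : ℝ)) (-(inner ℝ u (G' t))) t := by
      intro t ht
      have h1 := (hasDerivAt_const t u).inner ℝ (hG t ht)
      simp only [inner_zero_left, add_zero] at h1
      exact h1.neg
    have hBd : ∀ t ∈ Icc a b, HasDerivAt (fun t => -Real.cos (ph t))
        (Real.sin (ph t) * (S' t + δ)) t := by
      intro t ht
      have := ((hphd t ht).cos).neg
      refine this.congr_deriv ?_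
      ring
    have hfin := image_le_of_deriv_right_lt_deriv_boundary' (a := a) (b := b)
      (f := fun t => -(inner ℝ u (G t) : ℝ)) (f' := fun t => -(inner ℝ u (G' t)))
      (B := fun t => -Real.cos (ph t)) (B' := fun t => Real.sin (ph t) * (S' t + δ))
      (fun t ht => (hfd t ht).continuousAt.continuousWithinAt)
      (fun t ht => (hfd t (Ico_subset_Icc_self ht)).hasDerivWithinAt)
      (by
        simp only [neg_le_neg_iff]
        rw [← hu, real_inner_self_eq_norm_sq, hn]
        simp only [one_pow]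
        exact Real.cos_le_one _)
      (fun t ht => (hBd t ht).continuousAt.continuousWithinAt)
      (fun t ht => (hBd t (Ico_subset_Icc_self ht)).hasDerivWithinAt)
      (by
        intro t ht heq
        have ht' := Ico_subset_Icc_self ht
        simp only [neg_inj] at heq
        have hb := inner_deriv_bound (hn a) (hn t) (hort t ht')
        rw [← hu, heq] at hb
        have hsin : Real.sqrt (1 - Real.cos (ph t) ^ 2) = Real.sin (ph t) := by
          rw [← Real.sin_sq, Real.sqrt_sq]
          exact (Real.sin_pos_of_pos_of_lt_pi (hpos t ht').1 (hpos t ht').2).le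
        rw [hsin] at hb
        have hsp := Real.sin_pos_of_pos_of_lt_pi (hpos t ht').1 (hpos t ht').2
        have h1 : -(inner ℝ u (G' t) : ℝ) ≤ ‖G' t‖ * Real.sin (ph t) :=
          (neg_le_abs _).trans hb
        have h2 : ‖G' t‖ * Real.sin (ph t) ≤ S' t * Real.sin (ph t) :=
          mul_le_mul_of_nonneg_right (hle t ht') hsp.le
        have h3 : 0 < δ * Real.sin (ph t) := mul_pos hδ hsp
        nlinarith)
      (right_mem_Icc.2 hab)
    simp only [neg_le_neg_iff] at hfin
    exact hfin
  -- limit
  have hlim : Tendsto (fun δ : ℝ => Real.cos (S b - S a + δ * (1 + (b - a)))) (𝓝[>] 0)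
      (𝓝 (Real.cos (S b - S a))) := by
    have hc : Continuous fun δ : ℝ => Real.cos (S b - S a + δ * (1 + (b - a))) := by fun_prop
    have := hc.tendsto 0
    simp only [zero_mul, add_zero] at this
    exact this.mono_left nhdsWithin_le_nhds
  refine le_of_tendsto hlim ?_
  have hpos : 0 < 1 + (b - a) := by linarith
  have hev : ∀ᶠ δ : ℝ in 𝓝[>] 0, S b - S a + δ * (1 + (b - a)) < Real.pi := by
    have hc : Continuous fun δ : ℝ => S b - S a + δ * (1 + (b - a)) := by fun_prop
    have := hc.continuousAt (x := 0)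
    have h2 : S b - S a + 0 * (1 + (b - a)) < Real.pi := by simpa using hlt
    exact (this.eventually (gt_mem_nhds h2)).filter_mono nhdsWithin_le_nhds
  filter_upwards [hev, self_mem_nhdsWithin] with δ h1 h2
  exact key δ h2 h1

/-- the angle between the endpoints is at most the length -/
theorem arc_angle {G G' : ℝ → V} {S S' : ℝ → ℝ} {a b : ℝ} (hab : a ≤ b)
    (hG : ∀ t ∈ Icc a b, HasDerivAt G (G' t) t) (hn : ∀ t, ‖G t‖ = 1)
    (hS : ∀ t ∈ Icc a b, HasDerivAt S (S' t) t) (hle : ∀ t ∈ Icc a b, ‖G' t‖ ≤ S' t) :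
    angle (G a) (G b) ≤ S b - S a := by
  rcases lt_or_ge (S b - S a) Real.pi with h1 | h1
  · have h0 : 0 ≤ S b - S a := by
      have hSm : MonotoneOn S (Icc a b) := by
        apply monotoneOn_of_deriv_nonneg (convex_Icc a b)
          (fun t ht => (hS t ht).continuousAt.continuousWithinAt)
          (fun t ht => (hS t (interior_subset ht)).differentiableAt.differentiableWithinAt)
        intro t ht
        rw [(hS t (interior_subset ht)).deriv]
        exact (norm_nonneg _).trans (hle t (interior_subset ht))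
      have := hSm (left_mem_Icc.2 hab) (right_mem_Icc.2 hab) hab
      linarith
    rw [unit_angle (hn a) (hn b)]
    have h2 := arc_cos hab hG hn hS hle h1
    calc Real.arccos (inner ℝ (G a) (G b)) ≤ Real.arccos (Real.cos (S b - S a)) :=
          Real.arccos_le_arccos h2
      _ = S b - S a := Real.arccos_cos h0 h1.le
  · exact (angle_le_pi _ _).trans h1

/-- two-sided version, without an order on the endpoints -/
theorem arc_angle_abs {G G' : ℝ → V} {S S' : ℝ → ℝ}
    (hG : ∀ t, HasDerivAt G (G' t) t) (hn : ∀ t, ‖G t‖ = 1)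
    (hS : ∀ t, HasDerivAt S (S' t) t) (hle : ∀ t, ‖G' t‖ ≤ S' t) (a b : ℝ) :
    angle (G a) (G b) ≤ |S b - S a| := by
  rcases le_total a b with h | h
  · exact (arc_angle h (fun t _ => hG t) hn (fun t _ => hS t) (fun t _ => hle t)).trans (le_abs_self _)
  · rw [angle_comm, abs_sub_comm]
    exact (arc_angle h (fun t _ => hG t) hn (fun t _ => hS t) (fun t _ => hle t)).trans (le_abs_self _)

end Pool.Agent.helper3.FlatTorus
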