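import Pool.Agent.helper71.CT.AdmFinal

/-! Assembly of the classification: necessity of the criterion, and the criterion in the complex
plane. -/

namespace Pool.Agent.helper3.FlatTorus
open Pool.Agent.helper71.CT (MainIneq adm_of_reach_inner)

lemma cross_ne_iff {e f : ℂ} (he : ‖e‖ = 1) (hf : ‖f‖ = 1) (h1 : e ≠ f) (h2 : e ≠ -f) :
    cross e f ≠ 0 := by
  intro h0
  have hf0 : f ≠ 0 := by rintro rfl; simp at hf
  obtain ⟨r, hr⟩ := exists_smul_of_cross hf0 h0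
  have h3 : |r| = 1 := by
    have := congrArg norm hr
    rw [norm_smul, he, hf, mul_one, Real.norm_eq_abs] at this
    exact this.symm
  rcases (abs_eq (by norm_num : (0:ℝ) ≤ 1)).1 h3 with h | h
  · apply h1; rw [hr, h, one_smul]
  · apply h2; rw [hr, h, neg_smul, one_smul]

/-- Necessity of the criterion (the main inequality for polygons being given). -/
theorem criterion_of_immersible (MI : MainIneq) {L : Submodule ℤ (EuclideanSpace ℝ (Fin 2))}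
    [DiscreteTopology L] [IsZLattice ℝ L] (h : Immersible L) : Criterion L := by
  obtain ⟨e, f, e₁, f₁, e₂, f₂, V₁, V₂, ε₁, ε₂, he, hf, hef, he₁, hf₁, hef₁, hin₁, he₂, hf₂, hef₂,
    hin₂, hε₁, hε₂, hr₁, hr₂, hL⟩ := structure_E h
  have hne : ‖-e‖ = 1 := by rwa [norm_neg]
  have hne₂ : ‖-e₂‖ = 1 := by rwa [norm_neg]
  have hc : 0 < cross f (-e) := by rw [cross_neg_right, cross_swap]; simpa using hef
  have hc₂ : 0 < cross f₂ (-e₂) := by rw [cross_neg_right, cross_swap]; simpa using hef₂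
  obtain ⟨X₁, Y₁, hX₁, hY₁, hV₁, hA₁⟩ :=
    adm_of_reach_inner MI he hf hef hin₁ he₁ hf₁ hef₁ hε₁ hr₁
  obtain ⟨X₂, Y₂, hX₂, hY₂, hV₂, hA₂⟩ :=
    adm_of_reach_inner MI hf hne hc hin₂ hf₂ hne₂ hc₂ hε₂ hr₂
  refine ⟨ph e, ph f, X₁, Y₁, X₂, Y₂, ε₁, ε₂, by rw [ph_norm, he], by rw [ph_norm, hf], ?_, ?_,
    hX₁, hY₁, hX₂, hY₂, hε₁, hε₂, hA₁.map ph.toLinearIsometry, ?_, ?_⟩
  · intro h0
    rw [ph.injective h0, cross_self] at hef
    exact lt_irrefl _ hef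
  · intro h0
    rw [← map_neg] at h0
    rw [ph.injective h0, cross_neg_left, cross_self, neg_zero] at hef
    exact lt_irrefl _ hef
  · have := hA₂.map ph.toLinearIsometry
    simpa using this
  · intro v hv
    obtain ⟨m, n, hmn, hs⟩ := hL v hv
    refine ⟨m, n, ?_, hs⟩
    have h1 := congrArg ph hmn
    rw [ph.apply_symm_apply, map_add, map_zsmul, map_zsmul, hV₁, hV₂] at h1
    rw [h1]
    simp only [map_add, map_smul, map_neg, smul_neg, sub_eq_add_neg]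

/-- The criterion in the complex plane, with a positively oriented pair. -/
lemma Criterion.toC {L : Submodule ℤ (EuclideanSpace ℝ (Fin 2))} (h : Criterion L) :
    ∃ (e f : ℂ) (X₁ Y₁ X₂ Y₂ ε₁ ε₂ : ℝ), ‖e‖ = 1 ∧ ‖f‖ = 1 ∧ 0 < cross e f ∧
      0 < X₁ ∧ 0 < Y₁ ∧ 0 < X₂ ∧ 0 < Y₂ ∧ (ε₁ = 1 ∨ ε₁ = -1) ∧ (ε₂ = 1 ∨ ε₂ = -1) ∧
      Adm ε₁ e f X₁ Y₁ ∧ Adm ε₂ f (-e) X₂ Y₂ ∧
      ∀ v ∈ L, ∃ m n : ℤ, ph.symm v = m • (X₁ • e + Y₁ • f) + n • (X₂ • f + Y₂ • (-e)) ∧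
        ε₁ ^ m * ε₂ ^ n = 1 := by
  obtain ⟨e, f, X₁, Y₁, X₂, Y₂, ε₁, ε₂, he, hf, h1, h2, hX₁, hY₁, hX₂, hY₂, hε₁, hε₂, hA₁, hA₂,
    hL⟩ := h
  have he' : ‖ph.symm e‖ = 1 := by rw [ph.symm.norm_map, he]
  have hf' : ‖ph.symm f‖ = 1 := by rw [ph.symm.norm_map, hf]
  have hne : cross (ph.symm e) (ph.symm f) ≠ 0 := by
    apply cross_ne_iff he' hf'
    · intro h0; exact h1 (ph.symm.injective h0)
    · intro h0; rw [← map_neg] at h0; exact h2 (ph.symm.injective h0)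
  have hB₁ := hA₁.map ph.symm.toLinearIsometry
  have hB₂ := hA₂.map ph.symm.toLinearIsometry
  simp only [LinearIsometryEquiv.coe_toLinearIsometry, map_neg] at hB₁ hB₂
  have hL' : ∀ v ∈ L, ∃ m n : ℤ, ph.symm v = m • (X₁ • ph.symm e + Y₁ • ph.symm f) +
      n • (X₂ • ph.symm f + Y₂ • (-ph.symm e)) ∧ ε₁ ^ m * ε₂ ^ n = 1 := by
    intro v hv
    obtain ⟨m, n, hmn, hs⟩ := hL v hv
    refine ⟨m, n, ?_, hs⟩
    rw [hmn]
    simp [sub_eq_add_neg]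
  rcases lt_or_gt_of_ne hne with hlt | hgt
  · refine ⟨ph.symm f, ph.symm e, Y₁, X₁, Y₂, X₂, ε₁, ε₂, hf', he', ?_, hY₁, hX₁, hY₂, hX₂, hε₁,
      hε₂, hB₁.swap, ?_, ?_⟩
    · rw [cross_swap]; linarith
    · have := hB₂.swap.neg
      rwa [neg_neg] at this
    · intro v hv
      obtain ⟨m, n, hmn, hs⟩ := hL' v hv
      refine ⟨m, -n, ?_, ?_⟩
      · rw [hmn, neg_smul, ← smul_neg]
        congr 1
        · rw [add_comm]
        · congr 1
          module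
      · have : ε₂ ^ (-n) = ε₂ ^ n := by
          rw [zpow_neg, ← inv_zpow]
          congr 1
          rcases hε₂ with rfl | rfl <;> norm_num
        rw [this]; exact hs
  · exact ⟨ph.symm e, ph.symm f, X₁, Y₁, X₂, Y₂, ε₁, ε₂, he', hf', hgt, hX₁, hY₁, hX₂, hY₂, hε₁,
      hε₂, hB₁, hB₂, hL'⟩

end Pool.Agent.helper3.FlatTorus
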