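import Pool.Agent.helper3.FlatTorus.Expo
import Pool.Agent.helper70.Tori.Poly

/-! The algebra endomorphism of the quaternions given by an orthonormal pair of imaginary
quaternions. -/

namespace Pool.Agent.helper3.FlatTorus
open Quaternion Complex Set
open Pool.Agent.helper70.Tori (er hol sx sy Nonneg io)

/-- the algebra map `i ↦ a`, `j ↦ b` -/
noncomputable def Psi (a b : ℍ[ℝ]) (q : ℍ[ℝ]) : ℍ[ℝ] :=
  q.re • (1 : ℍ[ℝ]) + q.imI • a + q.imJ • b + q.imK • (a * b)

section
variable {a b : ℍ[ℝ]} (h : OPair a b)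
include h

lemma OPair.Na : a * b * a = b := by rw [mul_assoc, h.ba, mul_neg, h.aN, neg_neg]
lemma OPair.bN : b * (a * b) = a := by rw [← mul_assoc, h.ba, neg_mul, h.Nb, neg_neg]
lemma OPair.NN : a * b * (a * b) = -1 := by rw [mul_assoc, h.bN, h.aa]

lemma Psi_mul (p q : ℍ[ℝ]) : Psi a b (p * q) = Psi a b p * Psi a b q := by
  unfold Psi
  simp only [add_mul, mul_add, smul_mul_assoc, mul_smul_comm, one_mul, mul_one, h.aa, h.bb, h.ba,
    h.Na, h.Nb, h.aN, h.bN, h.NN, Quaternion.re_mul, Quaternion.imI_mul, Quaternion.imJ_mul,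
    Quaternion.imK_mul]
  module

lemma Psi_re (q : ℍ[ℝ]) : (Psi a b q).re = q.re := by
  unfold Psi
  simp [h.ra, h.rb, h.reN]

omit h in
lemma Psi_one : Psi a b 1 = 1 := by simp [Psi]

omit h in
lemma Psi_er (e : ℂ) (x : ℝ) : Psi a b (er e x) = EE (e.re • a + e.im • b) x := by
  unfold Psi EE
  simp only [Pool.Agent.helper70.Tori.er_re, Pool.Agent.helper70.Tori.er_imI,
    Pool.Agent.helper70.Tori.er_imJ, Pool.Agent.helper70.Tori.er_imK]
  module

/-- polygon holonomy with respect to a pair of directions -/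
noncomputable def holJ (A B : ℍ[ℝ]) : List (ℝ × ℝ) → ℍ[ℝ]
  | [] => 1
  | p :: l => EE A p.1 * EE B p.2 * holJ A B l

omit h in
lemma holJ_append (A B : ℍ[ℝ]) (l m : List (ℝ × ℝ)) :
    holJ A B (l ++ m) = holJ A B l * holJ A B m := by
  induction l with
  | nil => simp [holJ]
  | cons p l ih => simp [holJ, ih, mul_assoc]

lemma Psi_hol (e f : ℂ) (l : List (ℝ × ℝ)) :
    Psi a b (hol e f l) = holJ (e.re • a + e.im • b) (f.re • a + f.im • b) l := by
  induction l with
  | nil => simp [hol, holJ, Psi_one]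
  | cons p l ih => simp [hol, holJ, Psi_mul h, Psi_er, ih]

lemma hol_re (e f : ℂ) (l : List (ℝ × ℝ)) :
    (hol e f l).re = (holJ (e.re • a + e.im • b) (f.re • a + f.im • b) l).re := by
  rw [← Psi_hol h, Psi_re h]

end

lemma IU_comb {a b : ℍ[ℝ]} (h : OPair a b) {e : ℂ} (he : ‖e‖ = 1) :
    IU (e.re • a + e.im • b) := by
  constructor
  · simp [h.ra, h.rb]
  · have h1 : ‖e.re • a + e.im • b‖ ^ 2 = 1 := by
      have e1 := h.na
      have e2 := h.nb
      rw [real_inner_self_eq_norm_sq] at e1 e2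
      rw [@norm_add_sq_real, norm_smul, norm_smul, inner_smul_left, inner_smul_right, h.ab,
        mul_pow, mul_pow, e1, e2]
      have h3 := Complex.sq_norm e
      rw [he, normSq_apply] at h3
      simp
      linarith
    nlinarith [norm_nonneg (e.re • a + e.im • b)]

lemma norm_sub_sign {q : ℍ[ℝ]} (hq : ‖q‖ = 1) {ε : ℝ} (hε : ε = 1 ∨ ε = -1) :
    ‖q - (ε : ℍ[ℝ])‖ ^ 2 = 2 - 2 * ε * q.re := by
  have h1 : ‖(ε : ℍ[ℝ])‖ ^ 2 = 1 := by
    rcases hε with rfl | rfl <;> simp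
  rw [@norm_sub_sq_real, hq, h1]
  have : (inner ℝ q (ε : ℍ[ℝ]) : ℝ) = ε * q.re := by
    rw [qinner]; simp; ring
  rw [this]; ring

end Pool.Agent.helper3.FlatTorus
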