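import Pool.Agent.helper3.FlatTorus.Defs

/-!
# The criterion

Definitions for the classification of the flat tori with an isometric immersion in `S³`, and the
symmetries of the admissibility condition.
-/

namespace Pool.Agent.helper3.FlatTorus

section
variable {E : Type*} [NormedAddCommGroup E] [InnerProductSpace ℝ E]

/-- Admissibility of the vector `V = X e + Y f` (where `e`, `f` are unit vectors and `X, Y > 0`) with
the sign `ε`: if `ε = -1` then `|V| ≥ π`, and for every positive integer `N` with `(-1) ^ N = -ε`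
the vector `V` lies outside the closed discs of radius `π` with centres `N π e` and `N π f` and, if
`X ≤ N π` and `Y ≤ N π`, satisfies
`cos (X/N) cos (Y/N) - ⟨e, f⟩ sin (X/N) sin (Y/N) > - cos (π/N)`. -/
def Adm (ε : ℝ) (e f : E) (X Y : ℝ) : Prop :=
  (ε = -1 → Real.pi ≤ ‖X • e + Y • f‖) ∧
  ∀ N : ℕ, 1 ≤ N → (-1 : ℝ) ^ N = -ε →
    Real.pi < ‖X • e + Y • f - (N * Real.pi) • e‖ ∧
    Real.pi < ‖X • e + Y • f - (N * Real.pi) • f‖ ∧
    (X ≤ N * Real.pi → Y ≤ N * Real.pi →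
      -Real.cos (Real.pi / N) < Real.cos (X / N) * Real.cos (Y / N) -
        (inner ℝ e f : ℝ) * (Real.sin (X / N) * Real.sin (Y / N)))

lemma Adm.swap {ε : ℝ} {e f : E} {X Y : ℝ} (h : Adm ε e f X Y) : Adm ε f e Y X := by
  refine ⟨fun hε => by rw [add_comm]; exact h.1 hε, fun N hN hN' => ?_⟩
  obtain ⟨h1, h2, h3⟩ := h.2 N hN hN'
  refine ⟨by rw [add_comm]; exact h2, by rw [add_comm]; exact h1, fun hY hX => ?_⟩
  have := h3 hX hY
  rw [real_inner_comm]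
  linarith

lemma Adm.neg {ε : ℝ} {e f : E} {X Y : ℝ} (h : Adm ε e f X Y) : Adm ε (-e) (-f) X Y := by
  have e0 : X • (-e) + Y • (-f) = -(X • e + Y • f) := by rw [smul_neg, smul_neg]; abel
  refine ⟨fun hε => by rw [e0, norm_neg]; exact h.1 hε, fun N hN hN' => ?_⟩
  obtain ⟨h1, h2, h3⟩ := h.2 N hN hN'
  refine ⟨?_, ?_, fun hX hY => by rw [inner_neg_neg]; exact h3 hX hY⟩
  · rw [e0, smul_neg, sub_neg_eq_add, neg_add_eq_sub, ← neg_sub, norm_neg]; exact h1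
  · rw [e0, smul_neg, sub_neg_eq_add, neg_add_eq_sub, ← neg_sub, norm_neg]; exact h2

lemma Adm.map {E' : Type*} [NormedAddCommGroup E'] [InnerProductSpace ℝ E'] (T : E →ₗᵢ[ℝ] E')
    {ε : ℝ} {e f : E} {X Y : ℝ} (h : Adm ε e f X Y) : Adm ε (T e) (T f) X Y := by
  have e0 : X • T e + Y • T f = T (X • e + Y • f) := by simp
  refine ⟨fun hε => by rw [e0, T.norm_map]; exact h.1 hε, fun N hN hN' => ?_⟩
  obtain ⟨h1, h2, h3⟩ := h.2 N hN hN'
  refine ⟨?_, ?_, fun hX hY => by rw [T.inner_map_map]; exact h3 hX hY⟩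
  · rw [e0, ← T.map_smul, ← T.map_sub, T.norm_map]; exact h1
  · rw [e0, ← T.map_smul, ← T.map_sub, T.norm_map]; exact h2

end

/-- The criterion: there are two independent unit vectors `e`, `f`, vectors
`V₁ = X₁ e + Y₁ f` and `V₂ = X₂ f - Y₂ e` in the open cones spanned by `e, f` and by `f, -e`, and
signs `ε₁`, `ε₂`, both vectors being admissible, such that every vector of the lattice is of the
form `m V₁ + n V₂` with `ε₁ ^ m ε₂ ^ n = 1`. -/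
def Criterion (Λ : Submodule ℤ (EuclideanSpace ℝ (Fin 2))) : Prop :=
  ∃ (e f : EuclideanSpace ℝ (Fin 2)) (X₁ Y₁ X₂ Y₂ ε₁ ε₂ : ℝ),
    ‖e‖ = 1 ∧ ‖f‖ = 1 ∧ e ≠ f ∧ e ≠ -f ∧ 0 < X₁ ∧ 0 < Y₁ ∧ 0 < X₂ ∧ 0 < Y₂ ∧
    (ε₁ = 1 ∨ ε₁ = -1) ∧ (ε₂ = 1 ∨ ε₂ = -1) ∧ Adm ε₁ e f X₁ Y₁ ∧ Adm ε₂ f (-e) X₂ Y₂ ∧
    ∀ v ∈ Λ, ∃ m n : ℤ, v = m • (X₁ • e + Y₁ • f) + n • (X₂ • f - Y₂ • e) ∧
      ε₁ ^ m * ε₂ ^ n = 1

end Pool.Agent.helper3.FlatTorus
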