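import Mathlib

/-!
# The criterion for the existence of an isometric immersion of a flat torus in `S³`

For a given vector `V` and a given sign `ε` exactly one value of `N` has to be considered in the
definition of `Admissible`.
-/

namespace Pool.Agent.helper3.FlatTorus

/-- Admissibility of the vector `V = X e + Y f` (where `e`, `f` are unit vectors and `X, Y > 0`) with
the sign `ε`: if `ε = -1` then `|V| ≥ π`, and for the positive integer `N` with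
`(-1) ^ N = -ε` and `(N - 1) π ≤ |V| < (N + 1) π` the vector `V` lies outside the closed discs of
radius `π` with centres `N π e` and `N π f` and, if `X ≤ N π` and `Y ≤ N π`, satisfies
`cos (X/N) cos (Y/N) - ⟨e, f⟩ sin (X/N) sin (Y/N) > - cos (π/N)`. -/
def Admissible {E : Type*} [NormedAddCommGroup E] [InnerProductSpace ℝ E] (ε : ℝ) (e f : E)
    (X Y : ℝ) : Prop :=
  (ε = -1 → Real.pi ≤ ‖X • e + Y • f‖) ∧
  ∀ N : ℕ, 1 ≤ N → (-1 : ℝ) ^ N = -ε → (N - 1) * Real.pi ≤ ‖X • e + Y • f‖ →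
    ‖X • e + Y • f‖ < (N + 1) * Real.pi →
    Real.pi < ‖X • e + Y • f - (N * Real.pi) • e‖ ∧
    Real.pi < ‖X • e + Y • f - (N * Real.pi) • f‖ ∧
    (X ≤ N * Real.pi → Y ≤ N * Real.pi →
      -Real.cos (Real.pi / N) < Real.cos (X / N) * Real.cos (Y / N) -
        (inner ℝ e f : ℝ) * (Real.sin (X / N) * Real.sin (Y / N)))

/-- The criterion: there are two independent unit vectors `e`, `f`, vectors
`V₁ = X₁ e + Y₁ f` and `V₂ = X₂ f - Y₂ e` in the open cones spanned by `e, f` and by `f, -e`, and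
signs `ε₁`, `ε₂`, both vectors being admissible, such that every vector of the lattice is of the
form `m V₁ + n V₂` with `ε₁ ^ m ε₂ ^ n = 1`. -/
def ImmersionCriterion (Λ : Submodule ℤ (EuclideanSpace ℝ (Fin 2))) : Prop :=
  ∃ (e f : EuclideanSpace ℝ (Fin 2)) (X₁ Y₁ X₂ Y₂ ε₁ ε₂ : ℝ),
    ‖e‖ = 1 ∧ ‖f‖ = 1 ∧ e ≠ f ∧ e ≠ -f ∧ 0 < X₁ ∧ 0 < Y₁ ∧ 0 < X₂ ∧ 0 < Y₂ ∧
    (ε₁ = 1 ∨ ε₁ = -1) ∧ (ε₂ = 1 ∨ ε₂ = -1) ∧
    Admissible ε₁ e f X₁ Y₁ ∧ Admissible ε₂ f (-e) X₂ Y₂ ∧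
    ∀ v ∈ Λ, ∃ m n : ℤ, v = m • (X₁ • e + Y₁ • f) + n • (X₂ • f - Y₂ • e) ∧
      ε₁ ^ m * ε₂ ^ n = 1

end Pool.Agent.helper3.FlatTorus
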