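import Mathlib

/-! Isometric immersions of flat tori in the unit three-sphere: definitions. -/

namespace Pool.Agent.helper3.FlatTorus
open scoped ContDiff

/-- The flat torus `ℝ² / Λ` admits a smooth isometric immersion in the unit three-sphere `S³` of
`ℝ⁴`: there is a `C^∞` map `f` of the plane with values in the unit sphere, whose differential
preserves lengths and which is periodic with respect to `Λ`. -/
def Immersible (Λ : Submodule ℤ (EuclideanSpace ℝ (Fin 2))) : Prop :=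
  ∃ f : EuclideanSpace ℝ (Fin 2) → EuclideanSpace ℝ (Fin 4), ContDiff ℝ ∞ f ∧
    (∀ z, ‖f z‖ = 1) ∧ (∀ z w, ‖fderiv ℝ f z w‖ = ‖w‖) ∧ ∀ z, ∀ v ∈ Λ, f (z + v) = f z

/-- The lattices of the generalized Clifford tori: rectangular lattices whose sides `a`, `b`
satisfy `|a|² + |b|² = (2π)²`. -/
def IsCliffordLattice (Λ : Submodule ℤ (EuclideanSpace ℝ (Fin 2))) : Prop :=
  ∃ a b : EuclideanSpace ℝ (Fin 2), a ≠ 0 ∧ b ≠ 0 ∧ inner ℝ a b = (0 : ℝ) ∧
    ‖a‖ ^ 2 + ‖b‖ ^ 2 = (2 * Real.pi) ^ 2 ∧ Λ = Submodule.span ℤ {a, b}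

end Pool.Agent.helper3.FlatTorus
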