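import Pool.Agent.helper3.FlatTorus.Leaf
import Pool.Agent.helper3.FlatTorus.Arc

/-! One-parameter subgroups of the unit quaternions; flat tori. -/

namespace Pool.Agent.helper3.FlatTorus
open Quaternion Complex Set

/-- imaginary units -/
structure IU (J : ℍ[ℝ]) : Prop where
  re : J.re = 0
  nm : ‖J‖ = 1

lemma IU.sq {J : ℍ[ℝ]} (h : IU J) : J * J = -1 := by
  have h1 : (inner ℝ J J : ℝ) = 1 := by rw [real_inner_self_eq_norm_sq, h.nm]; norm_num
  rw [qinner] at h1
  have h2 := h.re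
  ext <;> simp <;> nlinarith [h.re]

/-- one-parameter subgroup -/
noncomputable def EE (J : ℍ[ℝ]) (x : ℝ) : ℍ[ℝ] := Real.cos x • (1 : ℍ[ℝ]) + Real.sin x • J

lemma EE_zero (J : ℍ[ℝ]) : EE J 0 = 1 := by simp [EE]

lemma EE_mul {J : ℍ[ℝ]} (h : IU J) (x y : ℝ) : EE J x * EE J y = EE J (x + y) := by
  unfold EE
  rw [Real.cos_add, Real.sin_add]
  simp only [add_mul, mul_add, smul_mul_assoc, mul_smul_comm, one_mul, mul_one, h.sq]
  module

lemma EE_norm {J : ℍ[ℝ]} (h : IU J) (x : ℝ) : ‖EE J x‖ = 1 := by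
  have h1 : ‖EE J x‖ ^ 2 = 1 := by
    have e1 : (inner ℝ (1 : ℍ[ℝ]) J : ℝ) = 0 := by rw [qinner]; simp [h.re]
    unfold EE
    rw [@norm_add_sq_real, norm_smul, norm_smul, inner_smul_left, inner_smul_right, e1, h.nm]
    simp [Real.cos_sq_add_sin_sq]
  have h2 := norm_nonneg (EE J x)
  nlinarith

lemma EE_hasDerivAt {J : ℍ[ℝ]} (h : IU J) {φ : ℝ → ℝ} {φ' t : ℝ} (hφ : HasDerivAt φ φ' t) :
    HasDerivAt (fun t => EE J (φ t)) (φ' • (J * EE J (φ t))) t := by
  unfold EE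
  have h1 := (hφ.cos.smul_const (1 : ℍ[ℝ])).add (hφ.sin.smul_const J)
  refine h1.congr_deriv ?_
  rw [mul_add, mul_smul_comm, mul_smul_comm, h.sq, mul_one]
  module

lemma EE_odd {J : ℍ[ℝ]} {x : ℝ} (hc : Real.cos x = -1) : EE J x = -1 := by
  have hs : Real.sin x = 0 := by
    have := Real.sin_sq_add_cos_sq x
    rw [hc] at this
    nlinarith
  unfold EE; rw [hc, hs]; simp

lemma EE_conj {g J : ℍ[ℝ]} (hg : g * star g = 1) (x : ℝ) :
    EE (g * J * star g) x = g * EE J x * star g := by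
  unfold EE
  rw [mul_add, add_mul, mul_smul_comm, smul_mul_assoc, mul_one, hg, mul_smul_comm, smul_mul_assoc]

/-- the scalar product in the plane -/
def dot (u v : ℂ) : ℝ := u.re * v.re + u.im * v.im

lemma dot_cross_sq (u e : ℂ) (he : ‖e‖ = 1) : dot u e ^ 2 + cross u e ^ 2 = ‖u‖ ^ 2 := by
  have h1 : e.re * e.re + e.im * e.im = 1 := by
    have := Complex.sq_norm e
    rw [he, normSq_apply] at this
    linarith
  rw [Complex.sq_norm, normSq_apply]
  unfold dot cross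
  linear_combination (u.re * u.re + u.im * u.im) * h1

lemma norm_add_smul_sq (u e : ℂ) (he : ‖e‖ = 1) (x : ℝ) :
    ‖u + x • e‖ ^ 2 = (dot u e + x) ^ 2 + cross u e ^ 2 := by
  have h1 : dot (u + x • e) e = dot u e + x := by
    have h1 : e.re * e.re + e.im * e.im = 1 := by
      have := Complex.sq_norm e
      rw [he, normSq_apply] at this
      linarith
    unfold dot; simp; linear_combination x * h1
  rw [← dot_cross_sq _ e he, h1, cross_add_left, cross_smul_left, cross_self]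
  ring

lemma dot_hasDerivAt {z : ℝ → ℂ} {z' : ℂ} {t : ℝ} (hz : HasDerivAt z z' t) (e : ℂ) :
    HasDerivAt (fun t => dot (z t) e) (dot z' e) t := by
  unfold dot
  have h1 : HasDerivAt (fun t => (z t).re) z'.re t :=
    (Complex.reCLM.hasFDerivAt.comp_hasDerivAt t hz)
  have h2 : HasDerivAt (fun t => (z t).im) z'.im t :=
    (Complex.imCLM.hasFDerivAt.comp_hasDerivAt t hz)
  exact (h1.mul_const _).add (h2.mul_const _)

lemma dot_sub_left (u v w : ℂ) : dot (u - v) w = dot u w - dot v w := by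
  unfold dot; simp; ring

/-- A flat torus in the unit quaternions, as a periodic isometric immersion of the plane. -/
structure Tor (f : ℂ → ℍ[ℝ]) (Λ : AddSubgroup ℂ) : Prop where
  imm : FlatImm f
  per : ∀ l ∈ Λ, ∀ p, f (p + l) = f p
  coc : ∃ R : ℝ, ∀ z : ℂ, ∃ l ∈ Λ, ‖z - l‖ ≤ R

lemma D_shift {F : Type*} [NormedAddCommGroup F] [NormedSpace ℝ F] {g : ℂ → F} {l : ℂ}
    (hg : ∀ p, g (p + l) = g p) (v p : ℂ) : D g v (p + l) = D g v p := by
  unfold D
  have : (fun q => g (q + l)) = g := funext hg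
  have h2 := fderiv_comp_add_right (𝕜 := ℝ) (f := g) (x := p) l
  rw [this] at h2
  rw [h2]

namespace Tor
variable {f : ℂ → ℍ[ℝ]} {Λ : AddSubgroup ℂ} (h : Tor f Λ)
include h

lemma th_per {l : ℂ} (hl : l ∈ Λ) (v p : ℂ) : th f v (p + l) = th f v p := by
  unfold th; rw [h.per l hl, D_shift (h.per l hl)]

lemma thR_per {l : ℂ} (hl : l ∈ Λ) (v p : ℂ) : thR f v (p + l) = thR f v p := by
  unfold thR; rw [h.per l hl, D_shift (h.per l hl)]

lemma nn_per {l : ℂ} (hl : l ∈ Λ) (p : ℂ) : nn f (p + l) = nn f p := by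
  unfold nn; rw [h.th_per hl, h.th_per hl]

lemma MM_per {l : ℂ} (hl : l ∈ Λ) (p : ℂ) : MM f (p + l) = MM f p := by
  have h1 : ca f (p + l) = ca f p := by
    unfold ca; rw [h.nn_per hl, D_shift (fun q => h.th_per hl 1 q)]
  have h2 : cb f (p + l) = cb f p := by
    unfold cb; rw [h.nn_per hl, D_shift (fun q => h.th_per hl I q)]
  have h3 : cd f (p + l) = cd f p := by
    unfold cd; rw [h.nn_per hl, D_shift (fun q => h.th_per hl I q)]
  unfold MM colU colV
  rw [h1, h2, h3]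

omit h in
lemma MM_im_ex (hf : FlatImm f) : ∃ a : ℂ, a ≠ 0 ∧ MM f 0 a = a := by
  by_contra hc
  push Not at hc
  have h0 : ∀ v, MM f 0 v = 0 := by
    intro v
    by_contra hv
    exact hc _ hv (hf.MM_idem 0 v)
  have h1 := congrArg Complex.re (h0 1)
  have h2 := congrArg Complex.im (h0 I)
  rw [MM_re] at h1
  rw [MM_im] at h2
  simp at h1 h2
  rw [h2] at h1; norm_num at h1

omit h in
lemma MM_ker_ex (hf : FlatImm f) : ∃ b : ℂ, b ≠ 0 ∧ MM f 0 b = 0 := by
  by_contra hc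
  push Not at hc
  have h0 : ∀ v, v - MM f 0 v = 0 := by
    intro v
    by_contra hv
    apply hc _ hv
    rw [map_sub, hf.MM_idem, sub_self]
  have h1 := congrArg Complex.re (h0 1)
  have h2 := congrArg Complex.im (h0 I)
  rw [sub_re, MM_re] at h1
  rw [sub_im, MM_im] at h2
  simp at h1 h2
  linarith

lemma exists_sys : ∃ Φ : ℂ → ℂ, Sys (MM f) Φ Λ := by
  have hp := h.imm.projField
  obtain ⟨Φ, hΦ⟩ := (convex_univ (𝕜 := ℝ) (E := ℂ)).exists_forall_hasFDerivAt_of_fderiv_symmetric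
    isOpen_univ (hp.smooth.differentiable (by norm_num)).differentiableOn
    (fun a _ x y => hp.symm a x y)
  exact ⟨Φ, ⟨hp, fun p => hΦ p (mem_univ _), fun l hl p => h.MM_per hl p, h.coc, MM_im_ex h.imm,
    MM_ker_ex h.imm⟩⟩

end Tor

end Pool.Agent.helper3.FlatTorus
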