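import Pool.Agent.helper3.FlatTorus.Plane

/-! The lower bound for the covering radius of the period lattice of a flat torus in the
three-sphere, and the case of equality. -/

namespace Pool.Agent.helper3.FlatTorus
open Quaternion Complex Set Filter Topology

section
variable {f : ℂ → ℍ[ℝ]} {Λ : AddSubgroup ℂ} {Φ : ℂ → ℂ}

lemma q_rel {M : ℂ → ℂ →L[ℝ] ℂ} (hS : Sys M Φ Λ) {e e' : ℂ} (hg : Sys.Good M 1 e)
    (hg' : Sys.Good M (-1) e') {l : ℂ} (h1 : tau Φ l ≠ 0) (h2 : tau (cF Φ) l ≠ 0) :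
    (cross (tau Φ l) e * cross (tau (cF Φ) l) e) *
      (cross (tau Φ l) e' * cross (tau (cF Φ) l) e') < 0 := by
  obtain ⟨κ, hκ, hq⟩ := q_sign hS hg hg'
  obtain ⟨k1, k2⟩ := hq l
  have a1 := k1 h1
  have a2 := k2 h2
  have a3 := mul_neg_of_pos_of_neg a1 a2
  have a4 : κ * (cross (tau Φ l) e * cross (tau Φ l) e') *
      (κ * (cross (tau (cF Φ) l) e * cross (tau (cF Φ) l) e')) =
      κ ^ 2 * ((cross (tau Φ l) e * cross (tau (cF Φ) l) e) *
      (cross (tau Φ l) e' * cross (tau (cF Φ) l) e')) := by ring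
  rw [a4] at a3
  by_contra hc
  have : 0 ≤ κ ^ 2 * ((cross (tau Φ l) e * cross (tau (cF Φ) l) e) *
      (cross (tau Φ l) e' * cross (tau (cF Φ) l) e')) :=
    mul_nonneg (sq_nonneg _) (not_lt.1 hc)
  linarith

lemma Sys.Good.smul {M : ℂ → ℂ →L[ℝ] ℂ} {s : ℝ} {e : ℂ} (hg : Sys.Good M s e) {c : ℝ}
    (hc : c ≠ 0) : Sys.Good M s (c • e) := by
  intro p
  rw [map_smul, cross_smul_left, cross_smul_right]
  have h1 := hg p
  have : s * (c * (c * cross (M p e) e)) = c ^ 2 * (s * cross (M p e) e) := by ring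
  rw [this]; positivity

lemma Sys.Good.unit {M : ℂ → ℂ →L[ℝ] ℂ} {s : ℝ} {e : ℂ} (hg : Sys.Good M s e) :
    ∃ e1 : ℂ, ‖e1‖ = 1 ∧ Sys.Good M s e1 := by
  have h0 := norm_pos_iff.2 (Sys.Good.ne_zero hg)
  refine ⟨(‖e‖⁻¹ : ℝ) • e, ?_, hg.smul (inv_ne_zero h0.ne')⟩
  rw [norm_smul, Real.norm_eq_abs, abs_of_pos (inv_pos.2 h0), inv_mul_cancel₀ h0.ne']

lemma cross_good_ne {M : ℂ → ℂ →L[ℝ] ℂ} {e e' : ℂ} (hg : Sys.Good M 1 e)
    (hg' : Sys.Good M (-1) e') : cross e e' ≠ 0 := by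
  intro h0
  obtain ⟨r, hr⟩ := exists_smul_of_cross (Sys.Good.ne_zero hg') h0
  have h1 := hg 0
  have h2 := hg' 0
  rw [hr, map_smul, cross_smul_left, cross_smul_right] at h1
  have h3 : 1 * (r * (r * cross (M 0 e') e')) = - (r ^ 2 * (-1 * cross (M 0 e') e')) := by ring
  rw [h3] at h1
  have : 0 ≤ r ^ 2 * (-1 * cross (M 0 e') e') := by positivity
  linarith

variable (hT : Tor f Λ) (hS : Sys (MM f) Φ Λ)
include hT hS

lemma plus_aux (hh : ∀ l ∈ Λ, ∀ p, f (p + tau Φ l) = f p) {s : ℝ} (hs : s * s = 1) {e e' : ℂ}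
    (he : ‖e‖ = 1) (hg : Sys.Good (MM f) s e)
    (hrel : ∀ l, tau Φ l ≠ 0 → tau (cF Φ) l ≠ 0 →
      (cross (tau Φ l) e * cross (tau (cF Φ) l) e) *
      (cross (tau Φ l) e' * cross (tau (cF Φ) l) e') < 0)
    (hP : ∀ l ∈ Λ, 0 < cross (tau Φ l) e' * cross (tau (cF Φ) l) e' →
      0 ≤ dot (tau Φ l) (tau (cF Φ) l)) :
    ∀ l ∈ Λ, Real.pi ≤ ‖l - Real.pi • e‖ := by
  intro l hl
  have hpi := Real.pi_pos
  have hc : |Real.pi| = Real.pi := abs_of_pos hpi
  rcases le_or_gt 0 (cross (tau Φ l) e * cross (tau (cF Φ) l) e) with h | h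
  · exact bound12 hT hS hs he hg hl h hc
  · have h1 : tau Φ l ≠ 0 := by
      intro h0; rw [h0, cross_zero_left, zero_mul] at h; exact lt_irrefl _ h
    have h2 : tau (cF Φ) l ≠ 0 := by
      intro h0; rw [h0, cross_zero_left, mul_zero] at h; exact lt_irrefl _ h
    have h3 := hrel l h1 h2
    have h4 : 0 < cross (tau Φ l) e' * cross (tau (cF Φ) l) e' := by
      by_contra hcon
      have := mul_nonneg_of_nonpos_of_nonpos h.le (not_lt.1 hcon)
      linarith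
    have h5 := hP l hl h4
    have b1 := bound1 hT hS hs he hg hl (hh l hl) hc
    have b2 := bound2 hT hS hs he hg hl (hh l hl) hc
    have s1 := norm_sub_smul_sq (tau Φ l) e he Real.pi
    have s2 := norm_sub_smul_sq (tau (cF Φ) l) e he Real.pi
    have s3 := norm_sub_smul_sq l e he Real.pi
    have b1' : Real.pi ^ 2 ≤ ‖tau Φ l - Real.pi • e‖ ^ 2 := by gcongr
    have b2' : Real.pi ^ 2 ≤ ‖tau (cF Φ) l - Real.pi • e‖ ^ 2 := by gcongr
    have hsum : l = tau Φ l + tau (cF Φ) l := by rw [tau_cF]; ring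
    have hdot : dot l e = dot (tau Φ l) e + dot (tau (cF Φ) l) e := by
      conv_lhs => rw [hsum]
      unfold dot; simp; ring
    have hnorm : ‖l‖ ^ 2 = ‖tau Φ l‖ ^ 2 + 2 * dot (tau Φ l) (tau (cF Φ) l)
        + ‖tau (cF Φ) l‖ ^ 2 := by
      conv_lhs => rw [hsum]
      rw [Complex.sq_norm, Complex.sq_norm, Complex.sq_norm, normSq_apply, normSq_apply,
        normSq_apply]
      unfold dot; simp; ring
    have : Real.pi ^ 2 ≤ ‖l - Real.pi • e‖ ^ 2 := by
      rw [s3, hdot, hnorm]; linarith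
    exact le_of_sq_le_sq this (norm_nonneg _)

/-- if all holonomies are trivial then there is a point at distance more than `π` -/
lemma plus_point (hfin : ∀ R : ℝ, {l : ℂ | l ∈ Λ ∧ ‖l‖ ≤ R}.Finite)
    (hh : ∀ l ∈ Λ, ∀ p, f (p + tau Φ l) = f p) : ∃ x : ℂ, ∀ l ∈ Λ, Real.pi < ‖l - x‖ := by
  obtain ⟨a, b, -, -, -, ⟨α, β, -, -, hg0⟩, ⟨γ, δ, -, -, hg0'⟩⟩ := hS.exists_good
  obtain ⟨e, he, hg⟩ := hg0.unit
  obtain ⟨e', he', hg'⟩ := hg0'.unit
  obtain ⟨κ, hκ, hq⟩ := q_sign hS hg hg'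
  have hee := cross_good_ne hg hg'
  -- parallelism
  have par1 : ∀ l ∈ Λ, ∀ m ∈ Λ, cross (tau Φ l) (tau Φ m) = 0 := by
    intro l hl m hm
    refine line_of_cone (G := (tauHom hS).range) hκ hee ?_ ⟨⟨l, hl⟩, rfl⟩ ⟨⟨m, hm⟩, rfl⟩
    rintro w ⟨l, rfl⟩
    show 0 ≤ κ * (cross (tau Φ l) e * cross (tau Φ l) e')
    by_cases h0 : tau Φ (l : ℂ) = 0
    · rw [h0, cross_zero_left]; simp
    · exact ((hq l).1 h0).le
  have par2 : ∀ l ∈ Λ, ∀ m ∈ Λ, cross (tau (cF Φ) l) (tau (cF Φ) m) = 0 := by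
    intro l hl m hm
    refine line_of_cone (G := (tauHom hS.compl).range) (neg_ne_zero.2 hκ) hee ?_ ⟨⟨l, hl⟩, rfl⟩
      ⟨⟨m, hm⟩, rfl⟩
    rintro w ⟨l, rfl⟩
    show 0 ≤ -κ * (cross (tau (cF Φ) l) e * cross (tau (cF Φ) l) e')
    by_cases h0 : tau (cF Φ) (l : ℂ) = 0
    · rw [h0, cross_zero_left]; simp
    · have := (hq l).2 h0
      linarith
  -- one of two cases
  have hcases : (∀ l ∈ Λ, 0 < cross (tau Φ l) e' * cross (tau (cF Φ) l) e' →
      0 ≤ dot (tau Φ l) (tau (cF Φ) l)) ∨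
      (∀ l ∈ Λ, 0 < cross (tau Φ l) e * cross (tau (cF Φ) l) e →
      0 ≤ dot (tau Φ l) (tau (cF Φ) l)) := by
    by_contra hcon
    push Not at hcon
    obtain ⟨⟨l, hl, l1, l2⟩, ⟨m, hm, m1, m2⟩⟩ := hcon
    have hl1 : tau Φ l ≠ 0 := by
      intro h0; rw [h0, cross_zero_left, zero_mul] at l1; exact lt_irrefl _ l1
    have hl2 : tau (cF Φ) l ≠ 0 := by
      intro h0; rw [h0, cross_zero_left, mul_zero] at l1; exact lt_irrefl _ l1
    obtain ⟨c1, hc1⟩ := exists_smul_of_cross hl1 (par1 m hm l hl)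
    obtain ⟨c2, hc2⟩ := exists_smul_of_cross hl2 (par2 m hm l hl)
    have hd : dot (tau Φ m) (tau (cF Φ) m) = c1 * c2 * dot (tau Φ l) (tau (cF Φ) l) := by
      rw [hc1, hc2]; simp [dot]; ring
    have hcc : 0 < c1 * c2 := by
      rw [hd] at m2
      by_contra hcon
      have := mul_nonneg_of_nonpos_of_nonpos (not_lt.1 hcon) l2.le
      linarith
    have hm1 : cross (tau Φ m) e * cross (tau (cF Φ) m) e
        = c1 * c2 * (cross (tau Φ l) e * cross (tau (cF Φ) l) e) := by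
      rw [hc1, hc2, cross_smul_left, cross_smul_left]; ring
    rw [hm1] at m1
    have hl3 : 0 < cross (tau Φ l) e * cross (tau (cF Φ) l) e := by
      by_contra hcon
      have := mul_nonpos_of_nonneg_of_nonpos hcc.le (not_lt.1 hcon)
      linarith
    have h4 := q_rel hS hg hg' hl1 hl2
    have h5 := mul_pos hl3 l1
    linarith
  rcases hcases with hP | hP
  · refine strict_point hfin he ?_
    filter_upwards [hS.good_open hg] with e2 hg2 he2
    exact plus_aux hT hS hh (s := 1) (by norm_num) he2 hg2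
      (fun l h1 h2 => q_rel hS hg2 hg' h1 h2) hP
  · refine strict_point hfin he' ?_
    filter_upwards [hS.good_open hg'] with e2 hg2 he2
    refine plus_aux hT hS hh (s := -1) (by norm_num) he2 hg2 (fun l h1 h2 => ?_) hP
    have := q_rel hS hg hg2 h1 h2
    linarith

end

/-- Main theorem in the plane: lower bound for the covering radius, and the case of equality. -/
theorem main_C {f : ℂ → ℍ[ℝ]} {Λ : AddSubgroup ℂ} (hT : Tor f Λ)
    (hfin : ∀ R : ℝ, {l : ℂ | l ∈ Λ ∧ ‖l‖ ≤ R}.Finite) :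
    (∃ x : ℂ, ∀ l ∈ Λ, Real.pi ≤ ‖l - x‖) ∧
      ((∀ y : ℂ, ∃ l ∈ Λ, ‖l - y‖ ≤ Real.pi) → IsCliff Λ) := by
  obtain ⟨Φ, hS⟩ := hT.exists_sys
  by_cases hh : ∀ l ∈ Λ, ∀ p, f (p + tau Φ l) = f p
  · obtain ⟨x, hx⟩ := plus_point hT hS hfin hh
    refine ⟨⟨x, fun l hl => (hx l hl).le⟩, fun hcov => ?_⟩
    obtain ⟨l, hl, hle⟩ := hcov x
    exact absurd hle (not_le.2 (hx l hl))
  · push Not at hh
    obtain ⟨l0, hl0, p0, hp0⟩ := hh
    have hanti : ∀ p, f (p + tau Φ l0) = - f p := by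
      rcases hol hT hS hl0 with h | h
      · exact absurd (h p0) hp0
      · exact h
    set x := tau Φ l0 with hxdef
    have hw : ∀ l ∈ Λ, ∀ p, f (p + (l - x)) = - f p := by
      intro l hl p
      have h1 := hanti (p - x)
      rw [sub_add_cancel] at h1
      have h2 : p + (l - x) = (p - x) + l := by ring
      rw [h2, hT.per l hl, h1, neg_neg]
    have hx : ∀ l ∈ Λ, Real.pi ≤ ‖l - x‖ := fun l hl => antiperiod_norm hT.imm (hw l hl)
    refine ⟨⟨x, hx⟩, fun hcov => ?_⟩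
    obtain ⟨a0, ha0, ha0'⟩ := hS.im
    obtain ⟨b0, hb0, hb0'⟩ := hS.ker
    have na := norm_pos_iff.2 ha0
    have nb := norm_pos_iff.2 hb0
    set a : ℂ := (‖a0‖⁻¹ : ℝ) • a0 with ha
    set b : ℂ := (‖b0‖⁻¹ : ℝ) • b0 with hb
    have han : ‖a‖ = 1 := by
      rw [ha, norm_smul, Real.norm_eq_abs, abs_of_pos (inv_pos.2 na), inv_mul_cancel₀ na.ne']
    have hbn : ‖b‖ = 1 := by
      rw [hb, norm_smul, Real.norm_eq_abs, abs_of_pos (inv_pos.2 nb), inv_mul_cancel₀ nb.ne']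
    have hMa : MM f 0 a = a := by rw [ha, map_smul, ha0']
    have hMb : MM f 0 b = 0 := by rw [hb, map_smul, hb0', smul_zero]
    have ha1 : a ≠ 0 := by intro h; rw [h] at han; simp at han
    have hb1 : b ≠ 0 := by intro h; rw [h] at hbn; simp at hbn
    have hab : cross a b ≠ 0 := by
      intro hc
      obtain ⟨r, hr⟩ := exists_smul_of_cross hb1 hc
      apply ha1
      have : MM f 0 a = 0 := by rw [hr, map_smul, hMb, smul_zero]
      rw [← hMa, this]
    refine minus_cliff hfin hx hcov han hbn hab ?_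
    intro l hl hn
    have h1 := antiperiod_asymptotic hT.imm (hw l hl) hn 0
    have hw0 : l - x ≠ 0 := by
      intro h; rw [h, norm_zero] at hn; exact Real.pi_pos.ne hn
    by_cases h2 : MM f 0 (l - x) = 0
    · right
      exact ker_par h2 hMb hMa ha1
    · left
      have h3 : MM f 0 (l - x) = l - x := by
        by_contra h3
        exact hS.cross_ne h2 h3 h1
      exact im_par h3 hMa hMb hb1

end Pool.Agent.helper3.FlatTorus
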