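import Pool.Agent.helper3.FlatTorus.Defs
import Pool.Agent.helper3.FlatTorus.Main

/-! Transfer to Euclidean spaces. -/

namespace Pool.Agent.helper3.FlatTorus
open Quaternion Set
open scoped ContDiff

/-- identification of the planes -/
noncomputable def ph : ℂ ≃ₗᵢ[ℝ] EuclideanSpace ℝ (Fin 2) := Complex.orthonormalBasisOneI.repr

/-- identification of the four-spaces -/
noncomputable def ps : EuclideanSpace ℝ (Fin 4) ≃ₗᵢ[ℝ] ℍ[ℝ] :=
  Quaternion.linearIsometryEquivTuple.symm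

/-- the lattice in the complex plane -/
noncomputable def LC (Λ : Submodule ℤ (EuclideanSpace ℝ (Fin 2))) : AddSubgroup ℂ :=
  Λ.toAddSubgroup.comap ph.toLinearEquiv.toAddEquiv.toAddMonoidHom

lemma mem_LC {Λ : Submodule ℤ (EuclideanSpace ℝ (Fin 2))} {z : ℂ} : z ∈ LC Λ ↔ ph z ∈ Λ := Iff.rfl

lemma ph_norm (z : ℂ) : ‖ph z‖ = ‖z‖ := ph.norm_map z

section
variable (Λ : Submodule ℤ (EuclideanSpace ℝ (Fin 2))) [DiscreteTopology Λ] [IsZLattice ℝ Λ]

lemma coc_E2 : ∃ R : ℝ, ∀ z : EuclideanSpace ℝ (Fin 2), ∃ l ∈ Λ, ‖z - l‖ ≤ R := by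
  classical
  set b := (Module.Free.chooseBasis ℤ Λ).ofZLatticeBasis ℝ Λ with hb
  refine ⟨∑ i, ‖b i‖, fun z => ⟨ZSpan.floor b z, ?_, ?_⟩⟩
  · have h1 := (ZSpan.floor b z).2
    have h2 := (Module.Free.chooseBasis ℤ Λ).ofZLatticeBasis_span ℝ Λ
    rw [← hb] at h2
    exact h2.le h1
  · exact ZSpan.norm_fract_le b z

lemma fin_E2 (R : ℝ) : {l : EuclideanSpace ℝ (Fin 2) | l ∈ Λ ∧ ‖l‖ ≤ R}.Finite := by
  classical
  set b := (Module.Free.chooseBasis ℤ Λ).ofZLatticeBasis ℝ Λ with hb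
  have h2 := (Module.Free.chooseBasis ℤ Λ).ofZLatticeBasis_span ℝ Λ
  rw [← hb] at h2
  have h3 := ZSpan.setFinite_inter b (s := Metric.closedBall 0 R) Metric.isBounded_closedBall
  refine h3.subset ?_
  rintro l ⟨h4, h5⟩
  refine ⟨by simpa using h5, ?_⟩
  rw [h2]; exact h4

lemma coc_LC : ∃ R : ℝ, ∀ z : ℂ, ∃ l ∈ LC Λ, ‖z - l‖ ≤ R := by
  obtain ⟨R, hR⟩ := coc_E2 Λ
  refine ⟨R, fun z => ?_⟩
  obtain ⟨l, hl, hle⟩ := hR (ph z)
  refine ⟨ph.symm l, by rw [mem_LC]; simpa using hl, ?_⟩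
  rw [← ph_norm, map_sub, ph.apply_symm_apply]
  exact hle

lemma fin_LC (R : ℝ) : {l : ℂ | l ∈ LC Λ ∧ ‖l‖ ≤ R}.Finite := by
  have h1 := fin_E2 Λ R
  have h2 : {l : ℂ | l ∈ LC Λ ∧ ‖l‖ ≤ R} = ph ⁻¹' {l | l ∈ Λ ∧ ‖l‖ ≤ R} := by
    ext l
    simp [mem_LC]
  rw [h2]
  exact h1.preimage ph.injective.injOn

end

lemma tor_of_imm {Λ : Submodule ℤ (EuclideanSpace ℝ (Fin 2))} [DiscreteTopology Λ]
    [IsZLattice ℝ Λ] {f : EuclideanSpace ℝ (Fin 2) → EuclideanSpace ℝ (Fin 4)}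
    (hsm : ContDiff ℝ ∞ f) (hsp : ∀ z, ‖f z‖ = 1) (hiso : ∀ z w, ‖fderiv ℝ f z w‖ = ‖w‖)
    (hper : ∀ z, ∀ v ∈ Λ, f (z + v) = f z) : Tor (fun z => ps (f (ph z))) (LC Λ) where
  imm := by
    refine ⟨?_, ?_, ?_⟩
    · have h1 : ContDiff ℝ 3 f := contDiff_infty.1 hsm 3
      exact ps.toContinuousLinearEquiv.contDiff.comp
        (h1.comp ph.toContinuousLinearEquiv.contDiff)
    · intro p
      rw [ps.norm_map, hsp]
    · intro p v
      have h1 : DifferentiableAt ℝ f (ph p) :=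
        (hsm.differentiable (by simp)) _
      have h2 : HasFDerivAt (fun z => ps (f (ph z)))
          ((ps.toContinuousLinearEquiv : EuclideanSpace ℝ (Fin 4) →L[ℝ] ℍ[ℝ]).comp
            ((fderiv ℝ f (ph p)).comp
              (ph.toContinuousLinearEquiv : ℂ →L[ℝ] EuclideanSpace ℝ (Fin 2)))) p :=
        ((ps.toContinuousLinearEquiv : EuclideanSpace ℝ (Fin 4) →L[ℝ] ℍ[ℝ]).hasFDerivAt).comp p
          ((h1.hasFDerivAt).comp p
            (ph.toContinuousLinearEquiv : ℂ →L[ℝ] EuclideanSpace ℝ (Fin 2)).hasFDerivAt)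
      rw [h2.fderiv]
      show ‖ps (fderiv ℝ f (ph p) (ph v))‖ = ‖v‖
      rw [ps.norm_map, hiso, ph_norm]
  per l hl p := by
    simp only [map_add]
    rw [hper _ _ (mem_LC.1 hl)]
  coc := coc_LC Λ

/-- Necessity, in terms of distances to the lattice. -/
theorem necessity {Λ : Submodule ℤ (EuclideanSpace ℝ (Fin 2))} [DiscreteTopology Λ]
    [IsZLattice ℝ Λ] (h : Immersible Λ) :
    (∃ x : EuclideanSpace ℝ (Fin 2), ∀ l ∈ Λ, Real.pi ≤ ‖l - x‖) ∧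
      ((∀ y : EuclideanSpace ℝ (Fin 2), ∃ l ∈ Λ, ‖l - y‖ ≤ Real.pi) → IsCliffordLattice Λ) := by
  obtain ⟨f, hsm, hsp, hiso, hper⟩ := h
  obtain ⟨h1, h2⟩ := main_C (tor_of_imm hsm hsp hiso hper) (fin_LC Λ)
  refine ⟨?_, fun hcov => ?_⟩
  · obtain ⟨x, hx⟩ := h1
    refine ⟨ph x, fun l hl => ?_⟩
    have := hx (ph.symm l) (by rw [mem_LC]; simpa using hl)
    rwa [← ph_norm, map_sub, ph.apply_symm_apply] at this
  · obtain ⟨A, B, hA, hB, hd, hn, hm⟩ := h2 (by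
      intro y
      obtain ⟨l, hl, hle⟩ := hcov (ph y)
      refine ⟨ph.symm l, by rw [mem_LC]; simpa using hl, ?_⟩
      rwa [← ph_norm, map_sub, ph.apply_symm_apply])
    refine ⟨ph A, ph B, by simpa using hA, by simpa using hB, ?_, by rw [ph_norm, ph_norm, hn], ?_⟩
    · rw [ph.inner_map_map, Complex.inner]
      simp only [Complex.mul_re, Complex.conj_re, Complex.conj_im]
      unfold dot at hd
      linarith
    · ext l
      rw [Submodule.mem_span_pair]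
      constructor
      · intro hl
        obtain ⟨m, n, hmn⟩ := (hm (ph.symm l)).1 (by rw [mem_LC]; simpa using hl)
        refine ⟨m, n, ?_⟩
        have := congrArg ph hmn
        rw [ph.apply_symm_apply, map_add, map_zsmul, map_zsmul] at this
        exact this.symm
      · rintro ⟨m, n, rfl⟩
        have := (hm (m • A + n • B)).2 ⟨m, n, rfl⟩
        rw [mem_LC, map_add, map_zsmul, map_zsmul] at this
        exact this

section diam
variable (Λ : Submodule ℤ (EuclideanSpace ℝ (Fin 2)))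

lemma quot_dist (x y : EuclideanSpace ℝ (Fin 2)) :
    dist (Submodule.Quotient.mk x : EuclideanSpace ℝ (Fin 2) ⧸ Λ) (Submodule.Quotient.mk y)
      = Metric.infDist (x - y) (Λ : Set (EuclideanSpace ℝ (Fin 2))) := by
  rw [dist_eq_norm]
  exact QuotientAddGroup.norm_mk (S := Λ.toAddSubgroup) (x - y)

variable [DiscreteTopology Λ] [IsZLattice ℝ Λ]

lemma quot_bounded : Bornology.IsBounded (univ : Set (EuclideanSpace ℝ (Fin 2) ⧸ Λ)) := by
  obtain ⟨R, hR⟩ := coc_E2 Λ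
  rw [Metric.isBounded_iff]
  refine ⟨R, ?_⟩
  rintro x - y -
  obtain ⟨x, rfl⟩ := Submodule.Quotient.mk_surjective _ x
  obtain ⟨y, rfl⟩ := Submodule.Quotient.mk_surjective _ y
  rw [quot_dist]
  obtain ⟨l, hl, hle⟩ := hR (x - y)
  refine (Metric.infDist_le_dist_of_mem (y := l) hl).trans ?_
  rwa [dist_eq_norm]

lemma le_diam {x : EuclideanSpace ℝ (Fin 2)} {r : ℝ} (h : ∀ l ∈ Λ, r ≤ ‖l - x‖) :
    r ≤ Metric.diam (univ : Set (EuclideanSpace ℝ (Fin 2) ⧸ Λ)) := by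
  have h1 := Metric.dist_le_diam_of_mem (quot_bounded Λ)
    (mem_univ (Submodule.Quotient.mk x : EuclideanSpace ℝ (Fin 2) ⧸ Λ))
    (mem_univ (Submodule.Quotient.mk 0))
  rw [quot_dist, sub_zero] at h1
  refine le_trans ?_ h1
  rw [Metric.le_infDist ⟨0, Λ.zero_mem⟩]
  intro l hl
  rw [dist_comm, dist_eq_norm]
  exact h l hl

lemma near_of_diam {r : ℝ} (h : Metric.diam (univ : Set (EuclideanSpace ℝ (Fin 2) ⧸ Λ)) ≤ r)
    (y : EuclideanSpace ℝ (Fin 2)) : ∃ l ∈ Λ, ‖l - y‖ ≤ r := by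
  have h1 := Metric.dist_le_diam_of_mem (quot_bounded Λ)
    (mem_univ (Submodule.Quotient.mk y : EuclideanSpace ℝ (Fin 2) ⧸ Λ))
    (mem_univ (Submodule.Quotient.mk 0))
  rw [quot_dist, sub_zero] at h1
  have hcl : IsClosed (Λ : Set (EuclideanSpace ℝ (Fin 2))) := by
    have : IsClosed (Λ.toAddSubgroup : Set (EuclideanSpace ℝ (Fin 2))) :=
      AddSubgroup.isClosed_of_discrete
    exact this
  obtain ⟨l, hl, hle⟩ := hcl.exists_infDist_eq_dist ⟨0, Λ.zero_mem⟩ y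
  refine ⟨l, hl, ?_⟩
  rw [hle, dist_comm, dist_eq_norm] at h1
  exact h1.trans h

omit [DiscreteTopology Λ] [IsZLattice ℝ Λ] in
lemma diam_le {r : ℝ} (hr : 0 ≤ r) (h : ∀ y : EuclideanSpace ℝ (Fin 2), ∃ l ∈ Λ, ‖l - y‖ ≤ r) :
    Metric.diam (univ : Set (EuclideanSpace ℝ (Fin 2) ⧸ Λ)) ≤ r := by
  apply Metric.diam_le_of_forall_dist_le hr
  rintro x - y -
  obtain ⟨x, rfl⟩ := Submodule.Quotient.mk_surjective _ x
  obtain ⟨y, rfl⟩ := Submodule.Quotient.mk_surjective _ y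
  rw [quot_dist]
  obtain ⟨l, hl, hle⟩ := h (x - y)
  refine (Metric.infDist_le_dist_of_mem (y := l) hl).trans ?_
  rw [dist_comm, dist_eq_norm]; exact hle

end diam

end Pool.Agent.helper3.FlatTorus
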