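import Pool.Agent.helper3.FlatTorus.Reach
import Pool.Agent.helper3.FlatTorus.Transfer

/-! The structure theorem for isometric immersions of flat tori in the three-sphere. -/

namespace Pool.Agent.helper3.FlatTorus
open Quaternion Complex Set Filter Topology

attribute [local instance] starModuleQuat

/-- translations by `w` change `F` by a constant sign -/
def SG (F : ℂ → ℍ[ℝ]) (w : ℂ) (ε : ℝ) : Prop := ∀ p, F (p + w) = ε • F p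

lemma SG.zsmul {F : ℂ → ℍ[ℝ]} {w : ℂ} {ε : ℝ} (hε : ε = 1 ∨ ε = -1) (h : SG F w ε) (n : ℤ) :
    SG F (n • w) (ε ^ n) := by
  have hee : ε * ε = 1 := by rcases hε with rfl | rfl <;> norm_num
  have hne : ε ≠ 0 := by rintro rfl; norm_num at hee
  intro p
  induction n using Int.induction_on generalizing p with
  | zero => simp
  | succ n ih =>
    have h1 := h (p + (n : ℤ) • w)
    rw [ih] at h1
    rw [add_zsmul, one_zsmul, ← add_assoc, h1, smul_smul, zpow_add₀ hne, zpow_one, mul_comm]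
  | pred n ih =>
    have h1 := h (p + ((-(n : ℤ) - 1) • w))
    have h2 : p + (-(n : ℤ) - 1) • w + w = p + (-(n : ℤ)) • w := by
      rw [sub_zsmul, one_zsmul]; abel
    rw [h2, ih] at h1
    have h3 : F (p + (-(n : ℤ) - 1) • w) = ε • (ε • F (p + (-(n : ℤ) - 1) • w)) := by
      rw [smul_smul, hee, one_smul]
    rw [h3, ← h1, smul_smul]
    congr 1
    rw [zpow_sub₀ hne, zpow_one, div_eq_mul_inv]
    have : ε⁻¹ = ε := by
      rcases hε with rfl | rfl <;> norm_num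
    rw [this, mul_comm]

section
variable {F : ℂ → ℍ[ℝ]} {Λ : AddSubgroup ℂ} {Φ : ℂ → ℂ}

lemma sg_tau (hT : Tor F Λ) (hS : Sys (MM F) Φ Λ) {l : ℂ} (hl : l ∈ Λ) :
    ∃ ε : ℝ, (ε = 1 ∨ ε = -1) ∧ SG F (tau Φ l) ε := by
  rcases hol hT hS hl with h | h
  · exact ⟨1, Or.inl rfl, fun p => by rw [h, one_smul]⟩
  · exact ⟨-1, Or.inr rfl, fun p => by rw [h, neg_smul, one_smul]⟩

lemma sg_tau' (hT : Tor F Λ) (hS : Sys (MM F) Φ Λ) {l : ℂ} (hl : l ∈ Λ) :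
    ∃ ε : ℝ, (ε = 1 ∨ ε = -1) ∧ SG F (tau (cF Φ) l) ε := by
  obtain ⟨ε, hε, h⟩ := sg_tau hT hS hl
  have hee : ε * ε = 1 := by rcases hε with rfl | rfl <;> norm_num
  refine ⟨ε, hε, fun p => ?_⟩
  have h1 : p + tau (cF Φ) l = (p - tau Φ l) + l := by rw [tau_cF]; ring
  rw [h1, hT.per l hl]
  have h2 := h (p - tau Φ l)
  rw [sub_add_cancel] at h2
  rw [h2, smul_smul, hee, one_smul]

/-- periods up to sign are discrete -/
lemma sg_discrete (hF : FlatImm F) : ∃ δ > 0, ∀ w ε, (ε = 1 ∨ ε = -1) → SG F w ε → ‖w‖ < δ →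
    w = 0 := by
  have h1 := (hF.diff 0).hasFDerivAt
  rw [hasFDerivAt_iff_isLittleO_nhds_zero] at h1
  have h2 := h1.def (c := 1 / 2) (by norm_num)
  obtain ⟨δ, hδ, h3⟩ := Metric.eventually_nhds_iff.1 h2
  refine ⟨min δ 1, lt_min hδ one_pos, fun w ε hε hw hlt => ?_⟩
  have h4 := h3 (y := w) (by rw [dist_zero_right]; exact hlt.trans_le (min_le_left _ _))
  rw [zero_add] at h4
  have h5 := hw 0
  rw [zero_add] at h5
  have h6 := hF.iso 0 w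
  have hw1 : ‖w‖ < 1 := hlt.trans_le (min_le_right _ _)
  rcases hε with rfl | rfl
  · rw [h5, one_smul, sub_self, zero_sub, norm_neg, h6] at h4
    have : ‖w‖ ≤ 0 := by linarith
    exact norm_le_zero_iff.1 this
  · exfalso
    have h7 : ‖F w - F 0‖ = 2 := by
      rw [h5]
      have : (-1 : ℝ) • F 0 - F 0 = (-2 : ℝ) • F 0 := by module
      rw [this, norm_smul, hF.sph]; norm_num
    have h8 : ‖F w - F 0‖ ≤ ‖F w - F 0 - (fderiv ℝ F 0) w‖ + ‖(fderiv ℝ F 0) w‖ := by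
      have : F w - F 0 = (F w - F 0 - (fderiv ℝ F 0) w) + (fderiv ℝ F 0) w := by abel
      conv_lhs => rw [this]
      exact norm_add_le _ _
    rw [h7, h6] at h8
    linarith

/-- the first components do not all vanish -/
lemma exists_tau_ne {M : ℂ → ℂ →L[ℝ] ℂ} (hS : Sys M Φ Λ) : ∃ l ∈ Λ, tau Φ l ≠ 0 := by
  by_contra hcon
  push Not at hcon
  obtain ⟨a, b, -, -, -, ⟨α, β, -, -, hg0⟩, -⟩ := hS.exists_good
  obtain ⟨e, he, hg⟩ := hg0.unit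
  obtain ⟨R, hR⟩ := hS.coc
  obtain ⟨K, hK⟩ := (isCompact_closedBall (0 : ℂ) R).exists_bound_of_continuousOn
    hS.cont.continuousOn
  obtain ⟨c, hc, hcb⟩ := hg.bound hS
  have hper : ∀ l ∈ Λ, ∀ p, Φ (p + l) = Φ p := by
    intro l hl p
    have h1 := hS.tau_spec hl p
    have h2 := hcon l hl
    unfold tau at h2
    rw [h1, h2, add_zero]
  have hbd : ∀ z, ‖Φ z‖ ≤ K := by
    intro z
    obtain ⟨l, hl, hle⟩ := hR z
    have h1 := hper l hl (z - l)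
    rw [sub_add_cancel] at h1
    rw [h1]
    exact hK _ (by simpa using hle)
  set g : ℝ → ℝ := fun t => 1 * cross (Φ (0 + t • e)) e with hgdef
  have hgd : ∀ t, HasDerivAt g (1 * cross (M (0 + t • e) e) e) t := fun t =>
    (cross_hasDerivAt (hS.line_deriv 0 e t) e).const_mul 1
  have hgrow : ∀ x y, x ≤ y → c * (y - x) ≤ g y - g x := fun x y hxy =>
    mul_sub_le_image_sub_of_le_deriv (fun t => (hgd t).differentiableAt)
      (fun t => by rw [(hgd t).deriv]; exact hcb _) hxy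
  have hgb : ∀ t, |g t| ≤ K := by
    intro t
    rw [hgdef]
    simp only [one_mul]
    have h1 := dot_cross_sq (Φ (0 + t • e)) e he
    have h2 : cross (Φ (0 + t • e)) e ^ 2 ≤ ‖Φ (0 + t • e)‖ ^ 2 := by
      nlinarith [sq_nonneg (dot (Φ (0 + t • e)) e)]
    exact (abs_le_of_sq_le_sq h2 (norm_nonneg _)).trans (hbd _)
  have hK0 : 0 ≤ K := (norm_nonneg _).trans (hbd 0)
  have h1 := hgrow 0 ((2 * K + 1) / c) (by positivity)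
  rw [sub_zero, mul_div_cancel₀ _ hc.ne'] at h1
  have h2 := abs_le.1 (hgb ((2 * K + 1) / c))
  have h3 := abs_le.1 (hgb 0)
  linarith [h2.2, h3.1]

end

/-- a discrete subgroup of a line is cyclic -/
lemma cyclic_of_line {G : AddSubgroup ℂ} {δ : ℝ} (hδ : 0 < δ) (hd : ∀ w ∈ G, ‖w‖ < δ → w = 0)
    {w0 : ℂ} (hw0 : w0 ≠ 0) (hw0G : w0 ∈ G) (hp : ∀ w ∈ G, cross w w0 = 0) :
    ∃ V ∈ G, V ≠ 0 ∧ ∀ w ∈ G, ∃ n : ℤ, w = n • V := by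
  set H : AddSubgroup ℝ :=
    { carrier := {r : ℝ | r • w0 ∈ G}
      zero_mem' := by simp [G.zero_mem]
      add_mem' := by
        intro r s hr hs
        simp only [mem_ofPred_eq] at hr hs ⊢
        rw [add_smul]; exact G.add_mem hr hs
      neg_mem' := by
        intro r hr
        simp only [mem_ofPred_eq] at hr ⊢
        rw [neg_smul]; exact G.neg_mem hr } with hH
  have hmem : ∀ r, r ∈ H ↔ r • w0 ∈ G := fun r => Iff.rfl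
  have hn0 : 0 < ‖w0‖ := norm_pos_iff.2 hw0
  rcases AddSubgroup.dense_or_cyclic H with h | ⟨a, ha⟩
  · exfalso
    have h1 := h.exists_mem_open (isOpen_Ioo (a := (0 : ℝ)) (b := δ / ‖w0‖))
      ⟨δ / ‖w0‖ / 2, by constructor <;> [positivity; linarith [div_pos hδ hn0]]⟩
    obtain ⟨r, hr, hr1, hr2⟩ := h1
    have h2 := hd (r • w0) hr (by
      rw [norm_smul, Real.norm_eq_abs, abs_of_pos hr1]
      rwa [lt_div_iff₀ hn0] at hr2)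
    rcases smul_eq_zero.1 h2 with h3 | h3
    · linarith
    · exact hw0 h3
  · have haH : a ∈ H := by rw [ha]; exact AddSubgroup.mem_closure_singleton_self a
    have hgen : ∀ w ∈ G, ∃ n : ℤ, w = n • (a • w0) := by
      intro w hw
      obtain ⟨r, hr⟩ := exists_smul_of_cross hw0 (hp w hw)
      have h1 : r ∈ H := by rw [hmem, ← hr]; exact hw
      rw [ha, AddSubgroup.mem_closure_singleton] at h1
      obtain ⟨n, hn⟩ := h1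
      refine ⟨n, ?_⟩
      rw [hr, ← hn, ← Int.cast_smul_eq_zsmul ℝ, ← Int.cast_smul_eq_zsmul ℝ, smul_assoc]
    refine ⟨a • w0, haH, ?_, hgen⟩
    intro h0
    obtain ⟨n, hn⟩ := hgen w0 hw0G
    rw [h0, smul_zero] at hn
    exact hw0 hn

section
variable {F : ℂ → ℍ[ℝ]} {Λ : AddSubgroup ℂ} {Φ : ℂ → ℂ}

lemma tau_neg {M : ℂ → ℂ →L[ℝ] ℂ} (hS : Sys M Φ Λ) {l : ℂ} (hl : l ∈ Λ) :
    tau Φ (-l) = - tau Φ l := by
  have := map_neg (tauHom hS) ⟨l, hl⟩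
  exact this

/-- a generator of the group of first components, swept in the positive direction -/
lemma gen_exists {M : ℂ → ℂ →L[ℝ] ℂ} (hS : Sys M Φ Λ) {s : ℝ} {f : ℂ} (hg : Sys.Good M s f)
    {δ : ℝ} (hδ : 0 < δ) (hd : ∀ l ∈ Λ, ‖tau Φ l‖ < δ → tau Φ l = 0)
    (hp : ∀ l ∈ Λ, ∀ m ∈ Λ, cross (tau Φ l) (tau Φ m) = 0) :
    ∃ l₁ ∈ Λ, ∃ T : ℝ, 0 < T ∧ tau Φ l₁ = qpt Φ (0 + T • f) 0 - 0 ∧
      ∀ l ∈ Λ, ∃ n : ℤ, tau Φ l = n • tau Φ l₁ := by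
  obtain ⟨m, hm, hm0⟩ := exists_tau_ne hS
  obtain ⟨V, ⟨⟨l0, hl0⟩, hV⟩, hV0, hgen⟩ := cyclic_of_line (G := (tauHom hS).range) hδ
    (by rintro w ⟨⟨l, hl⟩, rfl⟩ h; exact hd l hl h) hm0 ⟨⟨m, hm⟩, rfl⟩
    (by rintro w ⟨⟨l, hl⟩, rfl⟩; exact hp l hl m hm)
  have hV : tau Φ l0 = V := hV
  have hgen' : ∀ l ∈ Λ, ∃ n : ℤ, tau Φ l = n • tau Φ l0 := by
    intro l hl
    rw [hV]
    exact hgen _ ⟨⟨l, hl⟩, rfl⟩
  -- sweeping
  have hsw : ∀ l ∈ Λ, ∃ T : ℝ, tau Φ l = qpt Φ (0 + T • f) 0 - 0 ∧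
      (0 < T ↔ 0 < s * cross (tau Φ l) f) ∧ (T < 0 ↔ s * cross (tau Φ l) f < 0) := by
    intro l hl
    obtain ⟨T, hT⟩ := hS.sweep hg 0 (0 + l)
    have h1 : Φ (0 + T • f) - Φ 0 = tau Φ l := by rw [hT, zero_add]; rfl
    refine ⟨T, ?_, ?_⟩
    · unfold qpt; rw [← h1]; abel
    · have := hS.sweep_sign hg (p := 0) (T := T)
      rw [h1] at this
      exact this
  obtain ⟨T, hT1, hT2, hT3⟩ := hsw l0 hl0
  have hTne : T ≠ 0 := by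
    rintro rfl
    rw [qpt_zero, sub_zero, hV] at hT1
    exact hV0 hT1
  rcases lt_or_gt_of_ne hTne with h | h
  · have h1 := hT3.1 h
    obtain ⟨T', k1, k2, -⟩ := hsw (-l0) (Λ.neg_mem hl0)
    refine ⟨-l0, Λ.neg_mem hl0, T', ?_, k1, ?_⟩
    · rw [k2, tau_neg hS hl0, cross_neg_left]; linarith
    · intro l hl
      obtain ⟨n, hn⟩ := hgen' l hl
      exact ⟨-n, by rw [hn, tau_neg hS hl0]; simp⟩
  · exact ⟨l0, hl0, T, h, hT1, hgen'⟩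

/-- the components of the periods lie on two lines -/
lemma par_both {M : ℂ → ℂ →L[ℝ] ℂ} (hS : Sys M Φ Λ) {e e' : ℂ} (hg : Sys.Good M 1 e)
    (hg' : Sys.Good M (-1) e') :
    (∀ l ∈ Λ, ∀ m ∈ Λ, cross (tau Φ l) (tau Φ m) = 0) ∧
      (∀ l ∈ Λ, ∀ m ∈ Λ, cross (tau (cF Φ) l) (tau (cF Φ) m) = 0) := by
  obtain ⟨κ, hκ, hq⟩ := q_sign hS hg hg'
  have hee := cross_good_ne hg hg'
  constructor
  · intro l hl m hm
    refine line_of_cone (G := (tauHom hS).range) hκ hee ?_ ⟨⟨l, hl⟩, rfl⟩ ⟨⟨m, hm⟩, rfl⟩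
    rintro w ⟨l, rfl⟩
    show 0 ≤ κ * (cross (tau Φ l) e * cross (tau Φ l) e')
    by_cases h0 : tau Φ (l : ℂ) = 0
    · rw [h0, cross_zero_left]; simp
    · exact ((hq l).1 h0).le
  · intro l hl m hm
    refine line_of_cone (G := (tauHom hS.compl).range) (neg_ne_zero.2 hκ) hee ?_ ⟨⟨l, hl⟩, rfl⟩
      ⟨⟨m, hm⟩, rfl⟩
    rintro w ⟨l, rfl⟩
    show 0 ≤ -κ * (cross (tau (cF Φ) l) e * cross (tau (cF Φ) l) e')
    by_cases h0 : tau (cF Φ) (l : ℂ) = 0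
    · rw [h0, cross_zero_left]; simp
    · have := (hq l).2 h0
      linarith

/-- `e₁` and `f₁` lie in the open cone generated by `e` and `f` -/
def Inner (e f e₁ f₁ : ℂ) : Prop :=
  (∃ a b : ℝ, 0 < a ∧ 0 < b ∧ e₁ = a • e + b • f) ∧
    ∃ a b : ℝ, 0 < a ∧ 0 < b ∧ f₁ = a • e + b • f

/-- good pairs in the interior -/
lemma inner_pair {M : ℂ → ℂ →L[ℝ] ℂ} (hS : Sys M Φ Λ) {e f : ℂ} (hg : Sys.Good M 1 f)
    (hg' : Sys.Good M (-1) e) (hef : 0 < cross e f) :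
    (∃ e₁ f₁ : ℂ, ‖e₁‖ = 1 ∧ ‖f₁‖ = 1 ∧ Sys.Good M 1 f₁ ∧ Sys.Good M (-1) e₁ ∧ 0 < cross e₁ f₁ ∧
      Inner e f e₁ f₁) ∧
    (∃ e₂ f₂ : ℂ, ‖e₂‖ = 1 ∧ ‖f₂‖ = 1 ∧ Sys.Good M 1 f₂ ∧ Sys.Good M (-1) e₂ ∧ 0 < cross e₂ f₂ ∧
      Inner f (-e) f₂ (-e₂)) := by
  have t1 : Tendsto (fun η : ℝ => f + η • e) (𝓝 0) (𝓝 f) := by
    have : Continuous (fun η : ℝ => f + η • e) := by fun_prop
    simpa using this.tendsto 0
  have t2 : Tendsto (fun η : ℝ => e + η • f) (𝓝 0) (𝓝 e) := by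
    have : Continuous (fun η : ℝ => e + η • f) := by fun_prop
    simpa using this.tendsto 0
  have t3 : Tendsto (fun η : ℝ => f + (-η) • e) (𝓝 0) (𝓝 f) := by
    have : Continuous (fun η : ℝ => f + (-η) • e) := by fun_prop
    simpa using this.tendsto 0
  have t4 : Tendsto (fun η : ℝ => e + (-η) • f) (𝓝 0) (𝓝 e) := by
    have : Continuous (fun η : ℝ => e + (-η) • f) := by fun_prop
    simpa using this.tendsto 0
  have hsmall : ∀ᶠ η : ℝ in 𝓝 0, η < 1 := gt_mem_nhds one_pos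
  have hall : ∀ᶠ η : ℝ in 𝓝[>] 0, (Sys.Good M 1 (f + η • e) ∧ Sys.Good M (-1) (e + η • f) ∧
      Sys.Good M 1 (f + (-η) • e) ∧ Sys.Good M (-1) (e + (-η) • f) ∧ η < 1) ∧ 0 < η := by
    filter_upwards [(t1.eventually (hS.good_open hg)).filter_mono nhdsWithin_le_nhds,
      (t2.eventually (hS.good_open hg')).filter_mono nhdsWithin_le_nhds,
      (t3.eventually (hS.good_open hg)).filter_mono nhdsWithin_le_nhds,
      (t4.eventually (hS.good_open hg')).filter_mono nhdsWithin_le_nhds,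
      hsmall.filter_mono nhdsWithin_le_nhds, self_mem_nhdsWithin] with η h1 h2 h3 h4 h5 h6
    exact ⟨⟨h1, h2, h3, h4, h5⟩, h6⟩
  obtain ⟨η, ⟨g1, g2, g3, g4, hη1⟩, hη0⟩ := hall.exists
  have hsq : 0 < 1 - η ^ 2 := by nlinarith
  have key : ∀ u v : ℂ, Sys.Good M 1 v → Sys.Good M (-1) u → 0 < cross u v →
      0 < ‖u‖⁻¹ ∧ 0 < ‖v‖⁻¹ ∧ ‖(‖u‖⁻¹ : ℝ) • u‖ = 1 ∧ ‖(‖v‖⁻¹ : ℝ) • v‖ = 1 ∧
      Sys.Good M 1 ((‖v‖⁻¹ : ℝ) • v) ∧ Sys.Good M (-1) ((‖u‖⁻¹ : ℝ) • u) ∧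
      0 < cross ((‖u‖⁻¹ : ℝ) • u) ((‖v‖⁻¹ : ℝ) • v) := by
    intro u v hv hu huv
    have nu : 0 < ‖u‖ := norm_pos_iff.2 hu.ne_zero
    have nv : 0 < ‖v‖ := norm_pos_iff.2 hv.ne_zero
    refine ⟨by positivity, by positivity, ?_, ?_, hv.smul (by positivity), hu.smul (by positivity),
      ?_⟩
    · rw [norm_smul, norm_inv, norm_norm, inv_mul_cancel₀ nu.ne']
    · rw [norm_smul, norm_inv, norm_norm, inv_mul_cancel₀ nv.ne']
    · rw [cross_smul_left, cross_smul_right]; positivity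
  constructor
  · have hc : 0 < cross (e + η • f) (f + η • e) := by
      have : cross (e + η • f) (f + η • e) = (1 - η ^ 2) * cross e f := by
        simp only [cross]; simp; ring
      rw [this]; positivity
    obtain ⟨k1, k2, k3, k4, k5, k6, k7⟩ := key _ _ g1 g2 hc
    refine ⟨_, _, k3, k4, k5, k6, k7, ⟨_, _, k1, mul_pos k1 hη0, ?_⟩, ⟨_, _, mul_pos k2 hη0, k2, ?_⟩⟩
    · module
    · module
  · have hc : 0 < cross (e + (-η) • f) (f + (-η) • e) := by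
      have : cross (e + (-η) • f) (f + (-η) • e) = (1 - η ^ 2) * cross e f := by
        simp only [cross]; simp; ring
      rw [this]; positivity
    obtain ⟨k1, k2, k3, k4, k5, k6, k7⟩ := key _ _ g3 g4 hc
    refine ⟨_, _, k3, k4, k5, k6, k7, ⟨_, _, k2, mul_pos k2 hη0, ?_⟩, ⟨_, _, mul_pos k1 hη0, k1, ?_⟩⟩
    · module
    · module

/-- Structure theorem in the plane. -/
theorem structure_C (hT : Tor F Λ) :
    ∃ (e f e₁ f₁ e₂ f₂ V₁ V₂ : ℂ) (ε₁ ε₂ : ℝ), ‖e‖ = 1 ∧ ‖f‖ = 1 ∧ 0 < cross e f ∧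
      ‖e₁‖ = 1 ∧ ‖f₁‖ = 1 ∧ 0 < cross e₁ f₁ ∧ Inner e f e₁ f₁ ∧
      ‖e₂‖ = 1 ∧ ‖f₂‖ = 1 ∧ 0 < cross e₂ f₂ ∧ Inner f (-e) f₂ (-e₂) ∧
      (ε₁ = 1 ∨ ε₁ = -1) ∧ (ε₂ = 1 ∨ ε₂ = -1) ∧
      Reach e₁ f₁ V₁ ε₁ ∧ Reach f₂ (-e₂) V₂ ε₂ ∧
      ∀ l ∈ Λ, ∃ n₁ n₂ : ℤ, l = n₁ • V₁ + n₂ • V₂ ∧ ε₁ ^ n₁ * ε₂ ^ n₂ = 1 := by
  obtain ⟨Φ, hS⟩ := hT.exists_sys
  obtain ⟨a, b, -, -, hab, ⟨α, β, hα, hβ, hg0⟩, ⟨γ, δ', hγ, hδ', hg0'⟩⟩ := hS.exists_good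
  -- the outer pair
  obtain ⟨e, f, he, hf, hg, hg', hef⟩ : ∃ e f : ℂ, ‖e‖ = 1 ∧ ‖f‖ = 1 ∧ Sys.Good (MM F) 1 f ∧
      Sys.Good (MM F) (-1) e ∧ 0 < cross e f := by
    have n1 : 0 < ‖α • a + β • b‖ := norm_pos_iff.2 hg0.ne_zero
    have n2 : 0 < ‖γ • a - δ' • b‖ := norm_pos_iff.2 hg0'.ne_zero
    refine ⟨(‖γ • a - δ' • b‖⁻¹ : ℝ) • (γ • a - δ' • b), (‖α • a + β • b‖⁻¹ : ℝ) • (α • a + β • b),
      ?_, ?_, hg0.smul (by positivity), hg0'.smul (by positivity), ?_⟩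
    · rw [norm_smul, norm_inv, norm_norm, inv_mul_cancel₀ n2.ne']
    · rw [norm_smul, norm_inv, norm_norm, inv_mul_cancel₀ n1.ne']
    · rw [cross_smul_left, cross_smul_right]
      have : cross (γ • a - δ' • b) (α • a + β • b) = (γ * β + δ' * α) * cross a b := by
        simp only [cross]; simp; ring
      rw [this]; positivity
  obtain ⟨⟨e₁, f₁, he₁, hf₁, g1, g1', hef₁, hin₁⟩, ⟨e₂, f₂, he₂, hf₂, g2, g2', hef₂, hin₂⟩⟩ :=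
    inner_pair hS hg hg' hef
  obtain ⟨par1, par2⟩ := par_both hS hg hg'
  obtain ⟨δ, hδ, hdisc⟩ := sg_discrete hT.imm
  obtain ⟨l₁, hl₁, T₁, hT₁, hV₁, hgen₁⟩ := gen_exists hS g1 hδ (fun l hl h => by
    obtain ⟨ε, hε, hs⟩ := sg_tau hT hS hl
    exact hdisc _ ε hε hs h) par1
  obtain ⟨l₂, hl₂, T₂, hT₂, hV₂, hgen₂⟩ := gen_exists hS.compl (Sys.good_compl g2) hδ
    (fun l hl h => by
      obtain ⟨ε, hε, hs⟩ := sg_tau' hT hS hl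
      exact hdisc _ ε hε hs h) par2
  obtain ⟨ε₁, hε₁, hs₁⟩ := sg_tau hT hS hl₁
  obtain ⟨ε₂, hε₂, hs₂⟩ := sg_tau' hT hS hl₂
  refine ⟨e, f, e₁, f₁, e₂, f₂, tau Φ l₁, tau (cF Φ) l₂, ε₁, ε₂, he, hf, hef, he₁, hf₁, hef₁, hin₁,
    he₂, hf₂, hef₂, hin₂, hε₁, hε₂, ?_, ?_, ?_⟩
  · refine reach1 hT.imm hS he₁ hf₁ g1 g1' hef₁ hT₁ hV₁ hε₁ ?_
    have := hs₁ 0
    rwa [zero_add] at this
  · refine reach2 hT.imm hS he₂ hf₂ g2 g2' hef₂ hT₂ hV₂ hε₂ ?_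
    have := hs₂ 0
    rwa [zero_add] at this
  · intro l hl
    obtain ⟨n₁, hn₁⟩ := hgen₁ l hl
    obtain ⟨n₂, hn₂⟩ := hgen₂ l hl
    have hsum : l = n₁ • tau Φ l₁ + n₂ • tau (cF Φ) l₂ := by
      rw [← hn₁, ← hn₂, tau_cF]; ring
    refine ⟨n₁, n₂, hsum, ?_⟩
    have h1 := hs₁.zsmul hε₁ n₁ (0 + n₂ • tau (cF Φ) l₂)
    have h2 := hs₂.zsmul hε₂ n₂ 0
    have h3 : (0 : ℂ) + n₂ • tau (cF Φ) l₂ + n₁ • tau Φ l₁ = 0 + l := by
      conv_rhs => rw [hsum]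
      abel
    rw [h3, hT.per l hl, h2, smul_smul] at h1
    have h4 : (1 - ε₁ ^ n₁ * ε₂ ^ n₂) • F 0 = 0 := by
      rw [sub_smul, one_smul, ← h1, sub_self]
    rcases smul_eq_zero.1 h4 with h5 | h5
    · linarith
    · exfalso
      have := hT.imm.sph 0
      rw [h5, norm_zero] at this
      norm_num at this

end

/-- Structure theorem for isometric immersions of flat tori in the unit three-sphere. -/
theorem structure_E {L : Submodule ℤ (EuclideanSpace ℝ (Fin 2))} [DiscreteTopology L]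
    [IsZLattice ℝ L] (h : Immersible L) :
    ∃ (e f e₁ f₁ e₂ f₂ V₁ V₂ : ℂ) (ε₁ ε₂ : ℝ), ‖e‖ = 1 ∧ ‖f‖ = 1 ∧ 0 < cross e f ∧
      ‖e₁‖ = 1 ∧ ‖f₁‖ = 1 ∧ 0 < cross e₁ f₁ ∧ Inner e f e₁ f₁ ∧
      ‖e₂‖ = 1 ∧ ‖f₂‖ = 1 ∧ 0 < cross e₂ f₂ ∧ Inner f (-e) f₂ (-e₂) ∧
      (ε₁ = 1 ∨ ε₁ = -1) ∧ (ε₂ = 1 ∨ ε₂ = -1) ∧
      Reach e₁ f₁ V₁ ε₁ ∧ Reach f₂ (-e₂) V₂ ε₂ ∧
      ∀ v ∈ L, ∃ n₁ n₂ : ℤ, ph.symm v = n₁ • V₁ + n₂ • V₂ ∧ ε₁ ^ n₁ * ε₂ ^ n₂ = 1 := by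
  obtain ⟨f, hsm, hsp, hiso, hper⟩ := h
  obtain ⟨e, f', e₁, f₁, e₂, f₂, V₁, V₂, ε₁, ε₂, h1, h2, h3, h4, h5, h6, h7, h8, h9, h10, h11, h12,
    h13, h14, h15, h16⟩ := structure_C (tor_of_imm hsm hsp hiso hper)
  refine ⟨e, f', e₁, f₁, e₂, f₂, V₁, V₂, ε₁, ε₂, h1, h2, h3, h4, h5, h6, h7, h8, h9, h10, h11, h12,
    h13, h14, h15, fun v hv => ?_⟩
  exact h16 (ph.symm v) (by rw [mem_LC]; simpa using hv)

end Pool.Agent.helper3.FlatTorus
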