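import Pool.Agent.helper3.FlatTorus.Suff
import Pool.Agent.helper3.FlatTorus.CriterionDefs
import Pool.Agent.helper70.Tori.MainIneq
import Pool.Agent.helper70.Tori.AdmArc3

/-!
# The final form of the criterion

For a given vector `V` and a given sign only one value of `N` has to be considered.
-/

namespace Pool.Agent.helper3.FlatTorus
open Pool.Agent.helper70.Tori (SArc immersion_of_sarcs cr InC arc_one arc_two ip)
open scoped ContDiff

section
variable {E : Type*} [NormedAddCommGroup E] [InnerProductSpace ℝ E]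

lemma Adm.admissible {ε : ℝ} {e f : E} {X Y : ℝ} (h : Adm ε e f X Y) : Admissible ε e f X Y :=
  ⟨h.1, fun N hN hN' _ _ => h.2 N hN hN'⟩

lemma Admissible.swap {ε : ℝ} {e f : E} {X Y : ℝ} (h : Admissible ε e f X Y) :
    Admissible ε f e Y X := by
  refine ⟨fun hε => by rw [add_comm]; exact h.1 hε, fun N hN hN' h1 h2 => ?_⟩
  rw [add_comm] at h1 h2
  obtain ⟨h1, h2, h3⟩ := h.2 N hN hN' h1 h2
  refine ⟨by rw [add_comm]; exact h2, by rw [add_comm]; exact h1, fun hY hX => ?_⟩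
  have := h3 hX hY
  rw [real_inner_comm]
  linarith

lemma Admissible.neg {ε : ℝ} {e f : E} {X Y : ℝ} (h : Admissible ε e f X Y) :
    Admissible ε (-e) (-f) X Y := by
  have e0 : X • (-e) + Y • (-f) = -(X • e + Y • f) := by rw [smul_neg, smul_neg]; abel
  refine ⟨fun hε => by rw [e0, norm_neg]; exact h.1 hε, fun N hN hN' h1 h2 => ?_⟩
  rw [e0, norm_neg] at h1 h2
  obtain ⟨h1, h2, h3⟩ := h.2 N hN hN' h1 h2
  refine ⟨?_, ?_, fun hX hY => by rw [inner_neg_neg]; exact h3 hX hY⟩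
  · rw [e0, smul_neg, sub_neg_eq_add, neg_add_eq_sub, ← neg_sub, norm_neg]; exact h1
  · rw [e0, smul_neg, sub_neg_eq_add, neg_add_eq_sub, ← neg_sub, norm_neg]; exact h2

lemma Admissible.map {E' : Type*} [NormedAddCommGroup E'] [InnerProductSpace ℝ E']
    (T : E →ₗᵢ[ℝ] E') {ε : ℝ} {e f : E} {X Y : ℝ} (h : Admissible ε e f X Y) :
    Admissible ε (T e) (T f) X Y := by
  have e0 : X • T e + Y • T f = T (X • e + Y • f) := by simp
  refine ⟨fun hε => by rw [e0, T.norm_map]; exact h.1 hε, fun N hN hN' h1 h2 => ?_⟩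
  rw [e0, T.norm_map] at h1 h2
  obtain ⟨h1, h2, h3⟩ := h.2 N hN hN' h1 h2
  refine ⟨?_, ?_, fun hX hY => by rw [T.inner_map_map]; exact h3 hX hY⟩
  · rw [e0, ← T.map_smul, ← T.map_sub, T.norm_map]; exact h1
  · rw [e0, ← T.map_smul, ← T.map_sub, T.norm_map]; exact h2

end

lemma Criterion.final {Λ : Submodule ℤ (EuclideanSpace ℝ (Fin 2))} (h : Criterion Λ) :
    ImmersionCriterion Λ := by
  obtain ⟨e, f, X₁, Y₁, X₂, Y₂, ε₁, ε₂, he, hf, h1, h2, hX₁, hY₁, hX₂, hY₂, hε₁, hε₂, hA₁, hA₂,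
    hL⟩ := h
  exact ⟨e, f, X₁, Y₁, X₂, Y₂, ε₁, ε₂, he, hf, h1, h2, hX₁, hY₁, hX₂, hY₂, hε₁, hε₂,
    hA₁.admissible, hA₂.admissible, hL⟩

/-- admissible vectors are displacements of closed arcs -/
theorem sarc_of_admissible {e f : ℂ} (he : ‖e‖ = 1) (hf : ‖f‖ = 1) (hef : 0 < cross e f)
    {ε X Y : ℝ} (hε : ε = 1 ∨ ε = -1) (hX : 0 < X) (hY : 0 < Y) (h : Admissible ε e f X Y) :
    Nonempty (SArc e f (X • e + Y • f) ε) := by
  have hpi := Real.pi_pos
  have hin : (inner ℝ e f : ℝ) = ip e f := by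
    rw [Complex.inner]; simp [ip]; ring
  have e0 : X • e + Y • f = (X : ℂ) * e + (Y : ℂ) * f := by simp
  obtain ⟨h1, h2⟩ := h
  rw [e0] at h1 h2 ⊢
  simp only [Complex.real_smul, hin] at h2
  have hV : InC e f ((X : ℂ) * e + (Y : ℂ) * f) := ⟨X, Y, hX, hY, rfl⟩
  set V := (X : ℂ) * e + (Y : ℂ) * f with hVdef
  have hVn := norm_nonneg V
  rcases hε with rfl | rfl
  · set m : ℕ := ⌊‖V‖ / (2 * Real.pi)⌋₊ with hm
    have hm1 : (m : ℝ) ≤ ‖V‖ / (2 * Real.pi) := Nat.floor_le (by positivity)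
    have hm2 : ‖V‖ / (2 * Real.pi) < m + 1 := Nat.lt_floor_add_one _
    rw [le_div_iff₀ (by positivity)] at hm1
    rw [div_lt_iff₀ (by positivity)] at hm2
    obtain ⟨h3, h4, h5⟩ := h2 (2 * m + 1) (by omega) (by rw [pow_succ, pow_mul]; norm_num)
      (by push_cast; linarith) (by push_cast; linarith)
    rcases Nat.eq_zero_or_pos m with h0 | h0
    · rw [h0] at h3 h4 hm2
      apply arc_one he hf hef hV
      · simp at hm2; linarith
      · simpa using h3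
      · simpa using h4
    · have := arc_two he hf hef (n := 2 * m + 1) (by omega) hX hY
        (by push_cast; linarith) (by push_cast; linarith) h3 h4 h5
      have e1 : (-1 : ℝ) ^ (2 * m + 1 - 1) = 1 := by
        rw [Nat.add_sub_cancel, pow_mul]; norm_num
      rwa [e1] at this
  · have h1' := h1 rfl
    set m : ℕ := ⌊(‖V‖ - Real.pi) / (2 * Real.pi)⌋₊ with hm
    have hm1 : (m : ℝ) ≤ (‖V‖ - Real.pi) / (2 * Real.pi) :=
      Nat.floor_le (div_nonneg (by linarith) (by positivity))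
    have hm2 : (‖V‖ - Real.pi) / (2 * Real.pi) < m + 1 := Nat.lt_floor_add_one _
    rw [le_div_iff₀ (by positivity)] at hm1
    rw [div_lt_iff₀ (by positivity)] at hm2
    obtain ⟨h3, h4, h5⟩ := h2 (2 * m + 2) (by omega)
      (by rw [pow_add, pow_mul]; norm_num) (by push_cast; linarith) (by push_cast; linarith)
    have := arc_two he hf hef (n := 2 * m + 2) (by omega) hX hY
      (by push_cast; linarith) (by push_cast; linarith) h3 h4 h5
    have e1 : (-1 : ℝ) ^ (2 * m + 2 - 1) = -1 := by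
      have : 2 * m + 2 - 1 = 2 * m + 1 := by omega
      rw [this, pow_succ, pow_mul]; norm_num
    rwa [e1] at this

/-- The criterion in the complex plane, with a positively oriented pair. -/
lemma ImmersionCriterion.toC {L : Submodule ℤ (EuclideanSpace ℝ (Fin 2))}
    (h : ImmersionCriterion L) :
    ∃ (e f : ℂ) (X₁ Y₁ X₂ Y₂ ε₁ ε₂ : ℝ), ‖e‖ = 1 ∧ ‖f‖ = 1 ∧ 0 < cross e f ∧
      0 < X₁ ∧ 0 < Y₁ ∧ 0 < X₂ ∧ 0 < Y₂ ∧ (ε₁ = 1 ∨ ε₁ = -1) ∧ (ε₂ = 1 ∨ ε₂ = -1) ∧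
      Admissible ε₁ e f X₁ Y₁ ∧ Admissible ε₂ f (-e) X₂ Y₂ ∧
      ∀ v ∈ L, ∃ m n : ℤ, ph.symm v = m • (X₁ • e + Y₁ • f) + n • (X₂ • f + Y₂ • (-e)) ∧
        ε₁ ^ m * ε₂ ^ n = 1 := by
  obtain ⟨e, f, X₁, Y₁, X₂, Y₂, ε₁, ε₂, he, hf, h1, h2, hX₁, hY₁, hX₂, hY₂, hε₁, hε₂, hA₁, hA₂,
    hL⟩ := h
  have he' : ‖ph.symm e‖ = 1 := by rw [ph.symm.norm_map, he]
  have hf' : ‖ph.symm f‖ = 1 := by rw [ph.symm.norm_map, hf]
  have hne : cross (ph.symm e) (ph.symm f) ≠ 0 := by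
    apply cross_ne_iff he' hf'
    · intro h0; exact h1 (ph.symm.injective h0)
    · intro h0; rw [← map_neg] at h0; exact h2 (ph.symm.injective h0)
  have hB₁ := hA₁.map ph.symm.toLinearIsometry
  have hB₂ := hA₂.map ph.symm.toLinearIsometry
  simp only [LinearIsometryEquiv.coe_toLinearIsometry, map_neg] at hB₁ hB₂
  have hL' : ∀ v ∈ L, ∃ m n : ℤ, ph.symm v = m • (X₁ • ph.symm e + Y₁ • ph.symm f) +
      n • (X₂ • ph.symm f + Y₂ • (-ph.symm e)) ∧ ε₁ ^ m * ε₂ ^ n = 1 := by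
    intro v hv
    obtain ⟨m, n, hmn, hs⟩ := hL v hv
    refine ⟨m, n, ?_, hs⟩
    rw [hmn]
    simp [sub_eq_add_neg]
  rcases lt_or_gt_of_ne hne with hlt | hgt
  · refine ⟨ph.symm f, ph.symm e, Y₁, X₁, Y₂, X₂, ε₁, ε₂, hf', he', ?_, hY₁, hX₁, hY₂, hX₂, hε₁,
      hε₂, hB₁.swap, ?_, ?_⟩
    · rw [cross_swap]; linarith
    · have := hB₂.swap.neg
      rwa [neg_neg] at this
    · intro v hv
      obtain ⟨m, n, hmn, hs⟩ := hL' v hv
      refine ⟨m, -n, ?_, ?_⟩
      · rw [hmn, neg_smul, ← smul_neg]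
        congr 1
        · rw [add_comm]
        · congr 1
          module
      · have : ε₂ ^ (-n) = ε₂ ^ n := by
          rw [zpow_neg, ← inv_zpow]
          congr 1
          rcases hε₂ with rfl | rfl <;> norm_num
        rw [this]; exact hs
  · exact ⟨ph.symm e, ph.symm f, X₁, Y₁, X₂, Y₂, ε₁, ε₂, he', hf', hgt, hX₁, hY₁, hX₂, hY₂, hε₁,
      hε₂, hB₁, hB₂, hL'⟩

/-- Sufficiency of the criterion. -/
theorem immersible_of_immersionCriterion {L : Submodule ℤ (EuclideanSpace ℝ (Fin 2))}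
    (h : ImmersionCriterion L) : Immersible L := by
  obtain ⟨e, f, X₁, Y₁, X₂, Y₂, ε₁, ε₂, he, hf, hef, hX₁, hY₁, hX₂, hY₂, hε₁, hε₂, hA₁, hA₂, hL⟩ :=
    h.toC
  have hne : ‖-e‖ = 1 := by rwa [norm_neg]
  have hc : 0 < cross f (-e) := by rw [cross_neg_right, cross_swap]; simpa using hef
  obtain ⟨A⟩ := sarc_of_admissible he hf hef hε₁ hX₁ hY₁ hA₁
  obtain ⟨B⟩ := sarc_of_admissible hf hne hc hε₂ hX₂ hY₂ hA₂
  have hcr : cr e f ≠ 0 := hef.ne'
  obtain ⟨F, F1, F2, F3, F4⟩ := immersion_of_sarcs hcr hε₁ hε₂ A B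
  refine ⟨fun z => ps.symm (F (ph.symm z)), ?_, ?_, ?_, ?_⟩
  · exact ps.symm.toContinuousLinearEquiv.contDiff.comp
      (F1.comp ph.symm.toContinuousLinearEquiv.contDiff)
  · intro z
    rw [ps.symm.norm_map, F2]
  · intro z w
    have h1 : DifferentiableAt ℝ F (ph.symm z) := (F1.differentiable (by simp)) _
    have h2 : HasFDerivAt (fun z => ps.symm (F (ph.symm z)))
        ((ps.symm.toContinuousLinearEquiv : Quaternion ℝ →L[ℝ] EuclideanSpace ℝ (Fin 4)).comp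
          ((fderiv ℝ F (ph.symm z)).comp
            (ph.symm.toContinuousLinearEquiv : EuclideanSpace ℝ (Fin 2) →L[ℝ] ℂ))) z :=
      ((ps.symm.toContinuousLinearEquiv :
        Quaternion ℝ →L[ℝ] EuclideanSpace ℝ (Fin 4)).hasFDerivAt).comp z
        ((h1.hasFDerivAt).comp z
          (ph.symm.toContinuousLinearEquiv : EuclideanSpace ℝ (Fin 2) →L[ℝ] ℂ).hasFDerivAt)
    rw [h2.fderiv]
    show ‖ps.symm (fderiv ℝ F (ph.symm z) (ph.symm w))‖ = ‖w‖
    rw [ps.symm.norm_map, F3, ph.symm.norm_map]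
  · intro z v hv
    obtain ⟨m, n, hmn, hs⟩ := hL v hv
    have h1 := F4 (ph.symm z) m n hs
    simp only [map_add]
    rw [hmn]
    simp only [zsmul_eq_mul]
    rw [h1]

/-- Classification of the flat tori with an isometric immersion in the unit three-sphere. -/
theorem immersible_iff {L : Submodule ℤ (EuclideanSpace ℝ (Fin 2))} [DiscreteTopology L]
    [IsZLattice ℝ L] : Immersible L ↔ ImmersionCriterion L :=
  ⟨fun h => (criterion_of_immersible Pool.Agent.helper70.Tori.mainIneq h).final,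
    immersible_of_immersionCriterion⟩

end Pool.Agent.helper3.FlatTorus
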