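import Mathlib

/-! Algebra of orthonormal pairs of imaginary quaternions. -/

namespace Pool.Agent.helper3.FlatTorus
open Quaternion

lemma qinner (x y : ℍ[ℝ]) :
    inner ℝ x y = x.re * y.re + x.imI * y.imI + x.imJ * y.imJ + x.imK * y.imK := by
  rw [Quaternion.inner_def]
  simp
  try ring

/-- an orthonormal pair of imaginary quaternions -/
structure OPair (a b : ℍ[ℝ]) : Prop where
  ra : a.re = 0
  rb : b.re = 0
  na : inner ℝ a a = (1 : ℝ)
  nb : inner ℝ b b = (1 : ℝ)
  ab : inner ℝ a b = (0 : ℝ)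

namespace OPair
variable {a b : ℍ[ℝ]} (h : OPair a b)
include h

lemma aa : a * a = -1 := by
  have h1 := h.na
  rw [qinner] at h1
  have h2 := h.ra
  ext <;> simp <;> nlinarith [h.ra]

lemma bb : b * b = -1 := by
  have h1 := h.nb
  rw [qinner] at h1
  have h2 := h.rb
  ext <;> simp <;> nlinarith [h.rb]

lemma ba : b * a = -(a * b) := by
  have h1 := h.ab
  rw [qinner] at h1
  have h2 := h.ra
  have h3 := h.rb
  ext <;> simp [h2, h3] at h1 ⊢ <;> linarith

lemma star_a : star a = -a := by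
  ext <;> simp [h.ra]

lemma star_b : star b = -b := by
  ext <;> simp [h.rb]

lemma Nb : a * b * b = -a := by rw [mul_assoc, h.bb]; simp
lemma aN : a * (a * b) = -b := by rw [← mul_assoc, h.aa]; simp

lemma inner_aN : inner ℝ a (a * b) = (0 : ℝ) := by
  rw [qinner]; simp [h.ra, h.rb]; ring

lemma inner_bN : inner ℝ b (a * b) = (0 : ℝ) := by
  rw [qinner]; simp [h.ra, h.rb]; ring

lemma reN : (a * b).re = 0 := by
  have h1 := h.ab
  rw [qinner] at h1
  simp [h.ra, h.rb] at h1 ⊢; linarith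

lemma nN : inner ℝ (a * b) (a * b) = (1 : ℝ) := by
  have h1 := h.na
  have h2 := h.nb
  rw [real_inner_self_eq_norm_sq] at *
  rw [norm_mul, mul_pow, h1, h2]; norm_num

lemma orthonormal : Orthonormal ℝ ![(1 : ℍ[ℝ]), a, b, a * b] := by
  rw [orthonormal_iff_ite]
  have e1 := h.na
  have e2 := h.nb
  have e3 := h.ab
  have e3' : inner ℝ b a = (0 : ℝ) := by rw [real_inner_comm]; exact e3
  have e4 := h.inner_aN
  have e4' : inner ℝ (a * b) a = (0 : ℝ) := by rw [real_inner_comm]; exact e4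
  have e5 := h.inner_bN
  have e5' : inner ℝ (a * b) b = (0 : ℝ) := by rw [real_inner_comm]; exact e5
  have e6 := h.nN
  have r1 : ∀ x : ℍ[ℝ], inner ℝ (1 : ℍ[ℝ]) x = x.re := fun x => by rw [qinner]; simp
  have r2 : ∀ x : ℍ[ℝ], inner ℝ x (1 : ℍ[ℝ]) = x.re := fun x => by rw [qinner]; simp
  have r3 := h.ra
  have r4 := h.rb
  have r5 := h.reN
  intro i j
  fin_cases i <;> fin_cases j <;> simp only [Fin.isValue, Fin.zero_eta, Fin.mk_one,
    Fin.reduceFinMk, Matrix.cons_val_zero, Matrix.cons_val_one, Matrix.cons_val, r1, r2, r3, r4,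
    r5, e1, e2, e3, e3', e4, e4', e5, e5', e6] <;> simp

/-- expansion in the orthonormal basis `1, a, b, ab` -/
lemma expand (x : ℍ[ℝ]) :
    x = x.re • (1 : ℍ[ℝ]) + (inner ℝ a x : ℝ) • a + (inner ℝ b x : ℝ) • b
      + (inner ℝ (a * b) x : ℝ) • (a * b) := by
  have ho := h.orthonormal
  have hs : ⊤ ≤ Submodule.span ℝ (Set.range ![(1 : ℍ[ℝ]), a, b, a * b]) := by
    have hli := ho.linearIndependent
    have := hli.span_eq_top_of_card_eq_finrank' (by simp [Quaternion.finrank_eq_four])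
    rw [this]
  have hb := (OrthonormalBasis.mk ho hs).sum_repr' x
  have r1 : inner ℝ (1 : ℍ[ℝ]) x = x.re := by rw [qinner]; simp
  conv_lhs => rw [← hb]
  simp only [OrthonormalBasis.coe_mk, Fin.sum_univ_four, Matrix.cons_val_zero,
    Matrix.cons_val_one, Matrix.cons_val, r1]

end OPair

end Pool.Agent.helper3.FlatTorus
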