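import Pool.Agent.helper3.FlatTorus.Proj
import Pool.Agent.helper3.FlatTorus.Quat

/-! Left and right frames of a flat surface in the unit quaternions. -/

namespace Pool.Agent.helper3.FlatTorus
open Quaternion Complex

section dircalc
variable {F : Type*} [NormedAddCommGroup F] [NormedSpace ℝ F]

/-- directional derivative -/
noncomputable def D (g : ℂ → F) (v : ℂ) (p : ℂ) : F := fderiv ℝ g p v

lemma D_contDiff {g : ℂ → F} {n : ℕ} (hg : ContDiff ℝ (n + 1 : ℕ) g) (v : ℂ) :
    ContDiff ℝ n (D g v) := by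
  unfold D
  exact (hg.fderiv_right (m := n) (by norm_cast)).clm_apply contDiff_const

lemma D_symm {g : ℂ → F} (hg : ContDiff ℝ 2 g) (u v p : ℂ) : D (D g u) v p = D (D g v) u p := by
  have h1 : ∀ u v, D (D g u) v p = fderiv ℝ (fderiv ℝ g) p v u := by
    intro u v
    unfold D
    have hd : DifferentiableAt ℝ (fderiv ℝ g) p :=
      ((hg.fderiv_right (m := 1) (by norm_num)).differentiable (by norm_num)) p
    have h2 := hd.hasFDerivAt.clm_apply (hasFDerivAt_const u p)
    rw [h2.fderiv]
    simp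
  rw [h1, h1]
  exact (hg.contDiffAt.isSymmSndFDerivAt (by simp)) v u


lemma D_diff {g : ℂ → F} {n : ℕ} (hg : ContDiff ℝ (n + 1 : ℕ) g) : Differentiable ℝ g :=
  hg.differentiable (by norm_cast)

lemma D_add_dir (g : ℂ → F) (u v p : ℂ) : D g (u + v) p = D g u p + D g v p := by
  unfold D; exact map_add _ _ _

lemma D_dir (g : ℂ → F) (w p : ℂ) : D g w p = w.re • D g 1 p + w.im • D g I p := by
  unfold D
  have : w = w.re • (1 : ℂ) + w.im • I := by
    simp
  conv_lhs => rw [this]
  rw [map_add, map_smul, map_smul]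

lemma D_const_zero {g : ℂ → F} {c : F} (h : ∀ p, g p = c) (v p : ℂ) : D g v p = 0 := by
  have : g = fun _ => c := funext h
  unfold D; rw [this]; simp

end dircalc

local instance starModuleQuat : StarModule ℝ ℍ[ℝ] := ⟨fun r a => by ext <;> simp⟩

lemma D_mul {g h : ℂ → ℍ[ℝ]} {p : ℂ} (hg : DifferentiableAt ℝ g p) (hh : DifferentiableAt ℝ h p)
    (v : ℂ) : D (fun q => g q * h q) v p = D g v p * h p + g p * D h v p := by
  unfold D
  have h1 := hg.hasFDerivAt.mul' hh.hasFDerivAt
  have h2 : fderiv ℝ (fun q => g q * h q) p = _ := h1.fderiv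
  rw [h2]
  simp [add_comm]

lemma D_star {g : ℂ → ℍ[ℝ]} (v p : ℂ) : D (fun q => star (g q)) v p = star (D g v p) := by
  unfold D
  rw [fderiv_star]; simp

lemma D_inner {g h : ℂ → ℍ[ℝ]} {p : ℂ} (hg : DifferentiableAt ℝ g p)
    (hh : DifferentiableAt ℝ h p) (v : ℂ) :
    D (fun q => (inner ℝ (g q) (h q) : ℝ)) v p
      = (inner ℝ (g p) (D h v p) : ℝ) + inner ℝ (D g v p) (h p) := by
  unfold D
  rw [fderiv_inner_apply ℝ hg hh]

lemma D_smul {g : ℂ → ℝ} {h : ℂ → ℍ[ℝ]} {p : ℂ} (hg : DifferentiableAt ℝ g p)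
    (hh : DifferentiableAt ℝ h p) (v : ℂ) :
    D (fun q => g q • h q) v p = D g v p • h p + g p • D h v p := by
  unfold D
  have h1 := hg.hasFDerivAt.smul hh.hasFDerivAt
  have h2 : fderiv ℝ (fun q => g q • h q) p = _ := h1.fderiv
  rw [h2]
  simp [add_comm]

/-- A flat immersed surface, as an isometric immersion of the plane in the unit quaternions. -/
structure FlatImm (f : ℂ → ℍ[ℝ]) : Prop where
  smooth : ContDiff ℝ 3 f
  sph : ∀ p, ‖f p‖ = 1
  iso : ∀ p v, ‖fderiv ℝ f p v‖ = ‖v‖

/-- left frame -/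
noncomputable def th (f : ℂ → ℍ[ℝ]) (v p : ℂ) : ℍ[ℝ] := star (f p) * D f v p

/-- right frame -/
noncomputable def thR (f : ℂ → ℍ[ℝ]) (v p : ℂ) : ℍ[ℝ] := D f v p * star (f p)

namespace FlatImm
variable {f : ℂ → ℍ[ℝ]} (h : FlatImm f)
include h

lemma star_mul_self' (p : ℂ) : star (f p) * f p = 1 := by
  have h1 := h.sph p
  rw [Quaternion.star_mul_self, Quaternion.normSq_eq_norm_mul_self, h1]; simp

lemma self_mul_star' (p : ℂ) : f p * star (f p) = 1 := by
  have h1 := h.sph p
  rw [Quaternion.self_mul_star, Quaternion.normSq_eq_norm_mul_self, h1]; simp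

lemma diff : Differentiable ℝ f := h.smooth.differentiable (by norm_num)

lemma Df_contDiff (v : ℂ) : ContDiff ℝ 2 (D f v) := by
  have := D_contDiff (n := 2) (g := f) (by exact_mod_cast h.smooth) v
  exact_mod_cast this

lemma star_contDiff : ContDiff ℝ 3 (fun p => star (f p)) :=
  (starL' ℝ : ℍ[ℝ] ≃L[ℝ] ℍ[ℝ]).contDiff.comp h.smooth

lemma th_contDiff (v : ℂ) : ContDiff ℝ 2 (th f v) := by
  unfold th
  exact (h.star_contDiff.of_le (by norm_num)).mul (h.Df_contDiff v)

lemma thR_contDiff (v : ℂ) : ContDiff ℝ 2 (thR f v) := by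
  unfold thR
  exact (h.Df_contDiff v).mul (h.star_contDiff.of_le (by norm_num))

lemma th_diff (v : ℂ) : Differentiable ℝ (th f v) := (h.th_contDiff v).differentiable (by norm_num)

omit h in
lemma th_lin (f : ℂ → ℍ[ℝ]) (w p : ℂ) : th f w p = w.re • th f 1 p + w.im • th f I p := by
  unfold th
  rw [D_dir f w p, mul_add]; simp

lemma Df_eq (v p : ℂ) : D f v p = f p * th f v p := by
  unfold th
  rw [← mul_assoc, h.self_mul_star', one_mul]

lemma norm_th (v p : ℂ) : ‖th f v p‖ = ‖v‖ := by
  unfold th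
  rw [norm_mul, norm_star, h.sph, one_mul]
  exact h.iso p v

lemma re_th (v p : ℂ) : (th f v p).re = 0 := by
  have h1 : D (fun q => (inner ℝ (f q) (f q) : ℝ)) v p = 0 := by
    apply D_const_zero (c := 1)
    intro q
    rw [real_inner_self_eq_norm_sq, h.sph]; norm_num
  rw [D_inner (h.diff p) (h.diff p), real_inner_comm] at h1
  have h2 : (inner ℝ (D f v p) (f p) : ℝ) = 0 := by linarith
  rw [qinner] at h2
  unfold th
  simp
  linarith

lemma inner_th (u v p : ℂ) : (inner ℝ (th f u p) (th f v p) : ℝ) = u.re * v.re + u.im * v.im := by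
  have h1 := h.norm_th (u + v) p
  have e : th f (u + v) p = th f u p + th f v p := by
    unfold th; rw [D_add_dir, mul_add]
  have h2 := h.norm_th u p
  have h3 := h.norm_th v p
  have h4 : ‖th f u p + th f v p‖ ^ 2 = ‖u + v‖ ^ 2 := by rw [← e, h1]
  rw [@norm_add_sq_real, h2, h3] at h4
  rw [Complex.sq_norm, Complex.sq_norm, Complex.sq_norm, Complex.normSq_apply,
    Complex.normSq_apply, Complex.normSq_apply] at h4
  simp at h4
  linarith

lemma opair (p : ℂ) : OPair (th f 1 p) (th f I p) where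
  ra := h.re_th 1 p
  rb := h.re_th I p
  na := by rw [h.inner_th]; simp
  nb := by rw [h.inner_th]; simp
  ab := by rw [h.inner_th]; simp

lemma star_th (v p : ℂ) : star (th f v p) = - th f v p := by
  ext <;> simp [h.re_th v p]

/-- derivative of the left frame -/
lemma D_th (v u p : ℂ) :
    D (th f v) u p = -(th f u p * th f v p) + star (f p) * D (D f v) u p := by
  have e : D (th f v) u p = D (fun q => star (f q) * D f v q) u p := rfl
  rw [e, D_mul (h.diff p).star (((h.Df_contDiff v).differentiable (by norm_num)) p), D_star]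
  have e2 : star (D f u p) * D f v p = -(th f u p * th f v p) := by
    rw [h.Df_eq u p, StarMul.star_mul, h.star_th, h.Df_eq v p, mul_assoc, ← mul_assoc (star (f p)),
      h.star_mul_self', one_mul, neg_mul]
  rw [e2]

lemma torsion (p : ℂ) : D (th f I) 1 p - D (th f 1) I p = -(2 : ℝ) • (th f 1 p * th f I p) := by
  rw [h.D_th, h.D_th, D_symm (h.smooth.of_le (by norm_num)) I 1 p, (h.opair p).ba]
  module

lemma D_th_re (v u p : ℂ) : (D (th f v) u p).re = 0 := by
  rw [h.D_th]
  have h1 : D (fun q => (inner ℝ (f q) (D f v q) : ℝ)) u p = 0 := by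
    apply D_const_zero (c := 0)
    intro q
    have := h.re_th v q
    unfold th at this
    rw [qinner]
    simp at this
    linarith
  rw [D_inner (h.diff p) (((h.Df_contDiff v).differentiable (by norm_num)) p)] at h1
  rw [qinner, qinner] at h1
  have h2 := h.Df_eq u p
  have h3 := h.Df_eq v p
  have h4 : (inner ℝ (D f u p) (D f v p) : ℝ) = inner ℝ (th f u p) (th f v p) := by
    have e : D f u p + D f v p = D f (u + v) p := (D_add_dir f u v p).symm
    have e' : th f u p + th f v p = th f (u + v) p := by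
      unfold th; rw [D_add_dir, mul_add]
    have n1 := @norm_add_sq_real _ _ _ (D f u p) (D f v p)
    have n2 := @norm_add_sq_real _ _ _ (th f u p) (th f v p)
    rw [e] at n1
    rw [e'] at n2
    have k : ∀ w, ‖D f w p‖ = ‖th f w p‖ := fun w => by rw [h.norm_th]; exact h.iso p w
    rw [k, k, k] at n1
    linarith
  rw [qinner, qinner] at h4
  have r1 := h.re_th u p
  have r2 := h.re_th v p
  simp [r1, r2] at h4 ⊢
  linarith

lemma inner_D_self (v u p : ℂ) : (inner ℝ (th f v p) (D (th f v) u p) : ℝ) = 0 := by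
  have h1 : D (fun q => (inner ℝ (th f v q) (th f v q) : ℝ)) u p = 0 := by
    apply D_const_zero (c := v.re * v.re + v.im * v.im)
    intro q
    exact h.inner_th v v q
  rw [D_inner (h.th_diff v p) (h.th_diff v p), real_inner_comm (th f v p) (D (th f v) u p)] at h1
  have h2 := real_inner_comm (th f v p) (D (th f v) u p)
  linarith

lemma inner_D_cross (u p : ℂ) :
    (inner ℝ (th f 1 p) (D (th f I) u p) : ℝ) + inner ℝ (th f I p) (D (th f 1) u p) = 0 := by
  have h1 : D (fun q => (inner ℝ (th f 1 q) (th f I q) : ℝ)) u p = 0 := by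
    apply D_const_zero (c := 0)
    intro q
    rw [h.inner_th]; simp
  rw [D_inner (h.th_diff 1 p) (h.th_diff I p), real_inner_comm (th f I p) (D (th f 1) u p)] at h1
  linarith

end FlatImm

/-- normal -/
noncomputable def nn (f : ℂ → ℍ[ℝ]) (p : ℂ) : ℍ[ℝ] := th f 1 p * th f I p

/-- coefficients of the second fundamental form -/
noncomputable def ca (f : ℂ → ℍ[ℝ]) (p : ℂ) : ℝ := inner ℝ (nn f p) (D (th f 1) 1 p)
noncomputable def cb (f : ℂ → ℍ[ℝ]) (p : ℂ) : ℝ := inner ℝ (nn f p) (D (th f I) 1 p)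
noncomputable def cd (f : ℂ → ℍ[ℝ]) (p : ℂ) : ℝ := inner ℝ (nn f p) (D (th f I) I p)

namespace FlatImm
variable {f : ℂ → ℍ[ℝ]} (h : FlatImm f)
include h

lemma alpha0 (p : ℂ) : (inner ℝ (th f 1 p) (D (th f I) 1 p) : ℝ) = 0 := by
  have h1 := h.torsion p
  have h2 : (inner ℝ (th f 1 p) (D (th f I) 1 p - D (th f 1) I p) : ℝ) = 0 := by
    rw [h1, inner_smul_right, (h.opair p).inner_aN]; simp
  rw [inner_sub_right, h.inner_D_self 1 I p] at h2
  linarith

lemma beta0 (p : ℂ) : (inner ℝ (th f I p) (D (th f 1) I p) : ℝ) = 0 := by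
  have h1 := h.torsion p
  have h2 : (inner ℝ (th f I p) (D (th f I) 1 p - D (th f 1) I p) : ℝ) = 0 := by
    rw [h1, inner_smul_right, (h.opair p).inner_bN]; simp
  rw [inner_sub_right, h.inner_D_self I 1 p] at h2
  linarith

lemma D00 (p : ℂ) : D (th f 1) 1 p = ca f p • nn f p := by
  have e := (h.opair p).expand (D (th f 1) 1 p)
  have e2 := h.inner_D_cross 1 p
  rw [h.alpha0, zero_add] at e2
  rw [h.D_th_re, h.inner_D_self, e2] at e
  simp only [zero_smul, zero_add] at e
  exact e

lemma D10 (p : ℂ) : D (th f I) 1 p = cb f p • nn f p := by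
  have e := (h.opair p).expand (D (th f I) 1 p)
  rw [h.D_th_re, h.inner_D_self, h.alpha0] at e
  simp only [zero_smul, zero_add, add_zero] at e
  exact e

lemma D11 (p : ℂ) : D (th f I) I p = cd f p • nn f p := by
  have e := (h.opair p).expand (D (th f I) I p)
  have e2 := h.inner_D_cross I p
  rw [h.beta0, add_zero] at e2
  rw [h.D_th_re, h.inner_D_self, e2] at e
  simp only [zero_smul, zero_add] at e
  exact e

lemma D01 (p : ℂ) : D (th f 1) I p = (cb f p + 2) • nn f p := by
  have h1 := h.torsion p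
  rw [h.D10] at h1
  have : D (th f 1) I p = cb f p • nn f p - -(2 : ℝ) • (th f 1 p * th f I p) := by
    rw [← h1]; abel
  rw [this, nn]
  module

lemma nn_contDiff : ContDiff ℝ 2 (nn f) := by
  unfold nn
  exact (h.th_contDiff 1).mul (h.th_contDiff I)

lemma Dth_contDiff (v u : ℂ) : ContDiff ℝ 1 (D (th f v) u) := by
  have := D_contDiff (n := 1) (g := th f v) (by exact_mod_cast h.th_contDiff v) u
  exact_mod_cast this

lemma ca_contDiff : ContDiff ℝ 1 (ca f) := by
  unfold ca
  exact (h.nn_contDiff.of_le (by norm_num)).inner ℝ (h.Dth_contDiff 1 1)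

lemma cb_contDiff : ContDiff ℝ 1 (cb f) := by
  unfold cb
  exact (h.nn_contDiff.of_le (by norm_num)).inner ℝ (h.Dth_contDiff I 1)

lemma cd_contDiff : ContDiff ℝ 1 (cd f) := by
  unfold cd
  exact (h.nn_contDiff.of_le (by norm_num)).inner ℝ (h.Dth_contDiff I I)

lemma nn_diff (p : ℂ) : DifferentiableAt ℝ (nn f) p := (h.nn_contDiff.differentiable (by norm_num)) p

lemma ca_diff (p : ℂ) : DifferentiableAt ℝ (ca f) p := (h.ca_contDiff.differentiable (by norm_num)) p
lemma cb_diff (p : ℂ) : DifferentiableAt ℝ (cb f) p := (h.cb_contDiff.differentiable (by norm_num)) p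
lemma cd_diff (p : ℂ) : DifferentiableAt ℝ (cd f) p := (h.cd_contDiff.differentiable (by norm_num)) p

lemma D0n (p : ℂ) : D (nn f) 1 p = -(ca f p) • th f 1 p - cb f p • th f I p := by
  have e : D (nn f) 1 p = D (fun q => th f 1 q * th f I q) 1 p := rfl
  rw [e, D_mul (h.th_diff 1 p) (h.th_diff I p), h.D00, h.D10, nn, smul_mul_assoc,
    (h.opair p).Nb, mul_smul_comm, (h.opair p).aN]
  module

lemma D1n (p : ℂ) : D (nn f) I p = -(cb f p + 2) • th f 1 p - cd f p • th f I p := by
  have e : D (nn f) I p = D (fun q => th f 1 q * th f I q) I p := rfl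
  rw [e, D_mul (h.th_diff 1 p) (h.th_diff I p), h.D01, h.D11, nn, smul_mul_assoc,
    (h.opair p).Nb, mul_smul_comm, (h.opair p).aN]
  module

/-- Gauss and Codazzi equations -/
lemma integ1 (p : ℂ) :
    D (ca f) I p = D (cb f) 1 p ∧ ca f p * cd f p = cb f p * (cb f p + 2) := by
  have hs := D_symm (h.th_contDiff 1) 1 I p
  have e1 : D (D (th f 1) 1) I p = D (fun q => ca f q • nn f q) I p := by
    congr 1; exact funext h.D00
  have e2 : D (D (th f 1) I) 1 p = D (fun q => (cb f q + 2) • nn f q) 1 p := by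
    congr 1; exact funext h.D01
  rw [e1, e2, D_smul (h.ca_diff p) (h.nn_diff p),
    D_smul ((h.cb_diff p).add_const 2) (h.nn_diff p), h.D0n, h.D1n] at hs
  have e3 : D (fun q => cb f q + 2) 1 p = D (cb f) 1 p := by
    unfold D; rw [fderiv_add_const]
  rw [e3] at hs
  have hN := congrArg (fun x => (inner ℝ (nn f p) x : ℝ)) hs
  have hI := congrArg (fun x => (inner ℝ (th f I p) x : ℝ)) hs
  have o := h.opair p
  have k1 : (inner ℝ (nn f p) (nn f p) : ℝ) = 1 := o.nN
  have k2 : (inner ℝ (nn f p) (th f 1 p) : ℝ) = 0 := by rw [real_inner_comm]; exact o.inner_aN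
  have k3 : (inner ℝ (nn f p) (th f I p) : ℝ) = 0 := by rw [real_inner_comm]; exact o.inner_bN
  have k4 : (inner ℝ (th f I p) (nn f p) : ℝ) = 0 := o.inner_bN
  have k5 : (inner ℝ (th f I p) (th f 1 p) : ℝ) = 0 := by rw [real_inner_comm]; exact o.ab
  have k6 : (inner ℝ (th f I p) (th f I p) : ℝ) = 1 := o.nb
  simp only [inner_add_right, inner_sub_right, inner_smul_right, k1, k2, k3, k4, k5, k6] at hN hI
  constructor
  · linarith
  · linarith

lemma integ2 (p : ℂ) : D (cb f) I p = D (cd f) 1 p := by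
  have hs := D_symm (h.th_contDiff I) 1 I p
  have e1 : D (D (th f I) 1) I p = D (fun q => cb f q • nn f q) I p := by
    congr 1; exact funext h.D10
  have e2 : D (D (th f I) I) 1 p = D (fun q => cd f q • nn f q) 1 p := by
    congr 1; exact funext h.D11
  rw [e1, e2, D_smul (h.cb_diff p) (h.nn_diff p),
    D_smul (h.cd_diff p) (h.nn_diff p), h.D0n, h.D1n] at hs
  have hN := congrArg (fun x => (inner ℝ (nn f p) x : ℝ)) hs
  have o := h.opair p
  have k1 : (inner ℝ (nn f p) (nn f p) : ℝ) = 1 := o.nN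
  have k2 : (inner ℝ (nn f p) (th f 1 p) : ℝ) = 0 := by rw [real_inner_comm]; exact o.inner_aN
  have k3 : (inner ℝ (nn f p) (th f I p) : ℝ) = 0 := by rw [real_inner_comm]; exact o.inner_bN
  simp only [inner_add_right, inner_sub_right, inner_smul_right, k1, k2, k3] at hN
  linarith

end FlatImm

end Pool.Agent.helper3.FlatTorus
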