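import Pool.Agent.helper3.FlatTorus.Expo

/-! Holonomy along the leaves, and the arc inequalities. -/

namespace Pool.Agent.helper3.FlatTorus
open Quaternion Complex Set InnerProductGeometry

variable {f : ℂ → ℍ[ℝ]} {Λ : AddSubgroup ℂ} {Φ : ℂ → ℂ}

lemma deriv_along {F : Type*} [NormedAddCommGroup F] [NormedSpace ℝ F] {g : ℂ → F}
    (hg : Differentiable ℝ g) {z : ℝ → ℂ} {z' : ℂ} {t : ℝ} (hz : HasDerivAt z z' t) :
    HasDerivAt (fun t => g (z t)) (D g z' (z t)) t :=
  (hg (z t)).hasFDerivAt.comp_hasDerivAt t hz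

lemma const_along {F : Type*} [NormedAddCommGroup F] [NormedSpace ℝ F] {g : ℝ → F}
    (hg : ∀ t, HasDerivAt g 0 t) (t : ℝ) : g t = g 0 :=
  is_const_of_deriv_eq_zero (fun t => (hg t).differentiableAt) (fun t => (hg t).deriv) t 0

lemma qpt_self (Φ : ℂ → ℂ) (p : ℂ) : qpt Φ p p = p := by unfold qpt; abel

lemma qpt_zero (Φ : ℂ → ℂ) (p e : ℂ) : qpt Φ (p + (0 : ℝ) • e) p = p := by
  rw [zero_smul, add_zero, qpt_self]

/-- the left frame is constant along leaves of the first kind -/
lemma th_leaf (hf : FlatImm f) (hS : Sys (MM f) Φ Λ) (v p e : ℂ) (t : ℝ) :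
    th f v (qpt Φ (p + t • e) p) = th f v p := by
  have key : ∀ t, HasDerivAt (fun t : ℝ => th f v (qpt Φ (p + t • e) p)) 0 t := by
    intro t
    have h1 := deriv_along (hf.th_diff v) (hS.leaf_deriv p e t)
    rw [← hS.leaf_fix p e t, hf.D_th_zero] at h1
    exact h1
  have := const_along key t
  rw [this, qpt_zero]

/-- the right frame is constant along leaves of the second kind -/
lemma thR_leaf (hf : FlatImm f) (hS : Sys (MM f) Φ Λ) (v p e : ℂ) (t : ℝ) :
    thR f v (qpt (cF Φ) (p + t • e) p) = thR f v p := by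
  have key : ∀ t, HasDerivAt (fun t : ℝ => thR f v (qpt (cF Φ) (p + t • e) p)) 0 t := by
    intro t
    have h1 := deriv_along (hf.thR_diff v) (hS.compl.leaf_deriv p e t)
    rw [← hS.compl.leaf_fix p e t, cM_apply, hf.D_thR_zero] at h1
    exact h1
  have := const_along key t
  rw [this, qpt_zero]

lemma IU_th (hf : FlatImm f) {e : ℂ} (he : ‖e‖ = 1) (p : ℂ) : IU (th f e p) :=
  ⟨hf.re_th e p, by rw [hf.norm_th, he]⟩

lemma IU_thR (hf : FlatImm f) {e : ℂ} (he : ‖e‖ = 1) (p : ℂ) : IU (thR f e p) := by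
  constructor
  · have h1 := hf.D_th_re
    have h2 : (thR f e p).re = (th f e p).re := by
      unfold thR th; simp; ring
    rw [h2, hf.re_th]
  · unfold thR
    rw [norm_mul, norm_star, hf.sph, mul_one]
    have := hf.iso p e
    unfold D; rw [this, he]

lemma thR_add_smul (f : ℂ → ℍ[ℝ]) (u e p : ℂ) (x : ℝ) :
    thR f (u + x • e) p = thR f u p + x • thR f e p := by
  unfold thR
  rw [D_add_dir, add_mul]
  have : D f (x • e) p = x • D f e p := by unfold D; rw [map_smul]
  rw [this, smul_mul_assoc]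

lemma th_add_smul (f : ℂ → ℍ[ℝ]) (u e p : ℂ) (x : ℝ) :
    th f (u + x • e) p = th f u p + x • th f e p := by
  unfold th
  rw [D_add_dir, mul_add]
  have : D f (x • e) p = x • D f e p := by unfold D; rw [map_smul]
  rw [this, mul_smul_comm]

/-- speed of the corrected curves -/
lemma speed {z' e : ℂ} (he : ‖e‖ = 1) (k s : ℝ) (hs : s * s = 1) (hpos : 0 < s * cross z' e) :
    ‖z' + (-dot z' e + k * cross z' e) • e‖ = Real.sqrt (1 + k ^ 2) * (s * cross z' e) := by
  have h1 := norm_add_smul_sq z' e he (-dot z' e + k * cross z' e)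
  have h2 : ‖z' + (-dot z' e + k * cross z' e) • e‖ ^ 2
      = (Real.sqrt (1 + k ^ 2) * (s * cross z' e)) ^ 2 := by
    rw [h1, mul_pow, Real.sq_sqrt (by positivity)]
    linear_combination (-(1 + k ^ 2) * cross z' e ^ 2) * hs
  have h3 : 0 ≤ Real.sqrt (1 + k ^ 2) * (s * cross z' e) := by positivity
  exact (pow_left_inj₀ (norm_nonneg _) h3 (by norm_num)).1 h2

/-- arc inequality along a leaf of the first kind -/
lemma arc1 (hf : FlatImm f) (hS : Sys (MM f) Φ Λ) {s : ℝ} (hs : s * s = 1) {e : ℂ} (he : ‖e‖ = 1)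
    (hg : Sys.Good (MM f) s e) (p : ℂ) (T k : ℝ) {w : ℂ} (hw : w = qpt Φ (p + T • e) p - p) :
    angle (f p) (f (p + w) * EE (th f e p) (-dot w e + k * cross w e))
      ≤ Real.sqrt (1 + k ^ 2) * |cross w e| := by
  set z : ℝ → ℂ := fun t => qpt Φ (p + t • e) p with hz
  set z' : ℝ → ℂ := fun t => MM f (p + t • e) e with hz'
  set φ : ℝ → ℝ := fun t => -dot (z t - p) e + k * cross (z t - p) e with hφ
  set J := th f e p with hJ
  have hIU : IU J := IU_th hf he p
  have hzd : ∀ t, HasDerivAt z (z' t) t := fun t => hS.leaf_deriv p e t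
  have hzd' : ∀ t, HasDerivAt (fun t => z t - p) (z' t) t := fun t => (hzd t).sub_const p
  have hφd : ∀ t, HasDerivAt φ (-dot (z' t) e + k * cross (z' t) e) t := fun t =>
    ((dot_hasDerivAt (hzd' t) e).neg).add ((cross_hasDerivAt (hzd' t) e).const_mul k)
  have hfd : ∀ t, HasDerivAt (fun t => f (z t)) (f (z t) * th f (z' t) p) t := by
    intro t
    have h1 := deriv_along hf.diff (hzd t)
    rw [hf.Df_eq] at h1
    have h2 : th f (z' t) (z t) = th f (z' t) p := th_leaf hf hS (z' t) p e t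
    rw [h2] at h1
    exact h1
  have hGd : ∀ t, HasDerivAt (fun t => f (z t) * EE J (φ t))
      (f (z t) * (th f (z' t + (-dot (z' t) e + k * cross (z' t) e) • e) p * EE J (φ t))) t := by
    intro t
    have h1 := (hfd t).mul (EE_hasDerivAt hIU (hφd t))
    refine h1.congr_deriv ?_
    rw [th_add_smul, add_mul, mul_add, mul_assoc, smul_mul_assoc]
  have hSd : ∀ t, HasDerivAt (fun t => Real.sqrt (1 + k ^ 2) * (s * cross (z t - p) e))
      (Real.sqrt (1 + k ^ 2) * (s * cross (z' t) e)) t := fun t =>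
    ((cross_hasDerivAt (hzd' t) e).const_mul s).const_mul _
  have hn : ∀ t, ‖f (z t) * EE J (φ t)‖ = 1 := by
    intro t; rw [norm_mul, hf.sph, EE_norm hIU, one_mul]
  have hle : ∀ t, ‖f (z t) * (th f (z' t + (-dot (z' t) e + k * cross (z' t) e) • e) p * EE J (φ t))‖
      ≤ Real.sqrt (1 + k ^ 2) * (s * cross (z' t) e) := by
    intro t
    rw [norm_mul, norm_mul, hf.sph, EE_norm hIU, one_mul, mul_one, hf.norm_th,
      speed he k s hs (hg _)]
  have key := arc_angle_abs hGd hn hSd hle 0 T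
  have z0 : z 0 = p := qpt_zero Φ p e
  have zT : z T = p + w := by rw [hw]; simp [hz]
  have φ0 : φ 0 = 0 := by simp [hφ, z0, dot, cross]
  have φT : φ T = -dot w e + k * cross w e := by simp only [hφ, zT, add_sub_cancel_left]
  rw [φ0, φT, z0, zT, EE_zero, mul_one] at key
  refine key.trans (le_of_eq ?_)
  have h5 : |s| = 1 := by
    have : |s| * |s| = 1 := by rw [← abs_mul, hs, abs_one]
    nlinarith [abs_nonneg s]
  simp only [sub_self, cross_zero_left, mul_zero, sub_zero, add_sub_cancel_left, abs_mul, h5, one_mul]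
  rw [abs_of_nonneg (Real.sqrt_nonneg _)]

/-- arc inequality along a leaf of the second kind -/
lemma arc2 (hf : FlatImm f) (hS : Sys (MM f) Φ Λ) {s : ℝ} (hs : s * s = 1) {e : ℂ} (he : ‖e‖ = 1)
    (hg : Sys.Good (MM f) s e) (p : ℂ) (T k : ℝ) {w : ℂ} (hw : w = qpt (cF Φ) (p + T • e) p - p) :
    angle (f p) (EE (thR f e p) (-dot w e + k * cross w e) * f (p + w))
      ≤ Real.sqrt (1 + k ^ 2) * |cross w e| := by
  set z : ℝ → ℂ := fun t => qpt (cF Φ) (p + t • e) p with hz
  set z' : ℝ → ℂ := fun t => cM (MM f) (p + t • e) e with hz'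
  set φ : ℝ → ℝ := fun t => -dot (z t - p) e + k * cross (z t - p) e with hφ
  set J := thR f e p with hJ
  have hIU : IU J := IU_thR hf he p
  have hg' := Sys.good_compl hg
  have hzd : ∀ t, HasDerivAt z (z' t) t := fun t => hS.compl.leaf_deriv p e t
  have hzd' : ∀ t, HasDerivAt (fun t => z t - p) (z' t) t := fun t => (hzd t).sub_const p
  have hφd : ∀ t, HasDerivAt φ (-dot (z' t) e + k * cross (z' t) e) t := fun t =>
    ((dot_hasDerivAt (hzd' t) e).neg).add ((cross_hasDerivAt (hzd' t) e).const_mul k)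
  have hfd : ∀ t, HasDerivAt (fun t => f (z t)) (thR f (z' t) p * f (z t)) t := by
    intro t
    have h1 := deriv_along hf.diff (hzd t)
    have h2 : thR f (z' t) (z t) = thR f (z' t) p := thR_leaf hf hS (z' t) p e t
    have h3 : D f (z' t) (z t) = thR f (z' t) (z t) * f (z t) := by
      unfold thR; rw [mul_assoc, hf.star_mul_self', mul_one]
    rw [h3, h2] at h1
    exact h1
  have hGd : ∀ t, HasDerivAt (fun t => EE J (φ t) * f (z t))
      (EE J (φ t) * (thR f (z' t + (-dot (z' t) e + k * cross (z' t) e) • e) p * f (z t))) t := by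
    intro t
    have h1 := (EE_hasDerivAt hIU (hφd t)).mul (hfd t)
    refine h1.congr_deriv ?_
    have hcomm : J * EE J (φ t) = EE J (φ t) * J := by
      unfold EE; rw [mul_add, add_mul]; simp
    rw [thR_add_smul, add_mul, mul_add, hcomm, smul_mul_assoc, smul_mul_assoc, mul_smul_comm,
      mul_assoc]
    abel
  have hSd : ∀ t, HasDerivAt (fun t => Real.sqrt (1 + k ^ 2) * (-s * cross (z t - p) e))
      (Real.sqrt (1 + k ^ 2) * (-s * cross (z' t) e)) t := fun t =>
    ((cross_hasDerivAt (hzd' t) e).const_mul (-s)).const_mul _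
  have hn : ∀ t, ‖EE J (φ t) * f (z t)‖ = 1 := by
    intro t; rw [norm_mul, hf.sph, EE_norm hIU, one_mul]
  have hnR : ∀ v, ‖thR f v p‖ = ‖v‖ := by
    intro v
    unfold thR
    rw [norm_mul, norm_star, hf.sph, mul_one]
    exact hf.iso p v
  have hle : ∀ t, ‖EE J (φ t) * (thR f (z' t + (-dot (z' t) e + k * cross (z' t) e) • e) p * f (z t))‖
      ≤ Real.sqrt (1 + k ^ 2) * (-s * cross (z' t) e) := by
    intro t
    rw [norm_mul, norm_mul, hf.sph, EE_norm hIU, one_mul, mul_one, hnR,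
      speed he k (-s) (by rw [neg_mul_neg, hs]) (hg' _)]
  have key := arc_angle_abs hGd hn hSd hle 0 T
  have z0 : z 0 = p := qpt_zero (cF Φ) p e
  have zT : z T = p + w := by rw [hw]; simp [hz]
  have φ0 : φ 0 = 0 := by simp [hφ, z0, dot, cross]
  have φT : φ T = -dot w e + k * cross w e := by simp only [hφ, zT, add_sub_cancel_left]
  rw [φ0, φT, z0, zT, EE_zero, one_mul] at key
  refine key.trans (le_of_eq ?_)
  have h5 : |(-s)| = 1 := by
    rw [abs_neg]
    have : |s| * |s| = 1 := by rw [← abs_mul, hs, abs_one]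
    nlinarith [abs_nonneg s]
  simp only [sub_self, cross_zero_left, mul_zero, sub_zero, add_sub_cancel_left, abs_mul, h5, one_mul]
  rw [abs_of_nonneg (Real.sqrt_nonneg _)]

/-- first component of a period -/
noncomputable def tau (Φ : ℂ → ℂ) (l : ℂ) : ℂ := Φ l - Φ 0

lemma tau_cF (Φ : ℂ → ℂ) (l : ℂ) : tau (cF Φ) l = l - tau Φ l := by
  unfold tau cF; ring

section tor
variable (hT : Tor f Λ) (hS : Sys (MM f) Φ Λ)
include hS

/-- sweeping a period along the first leaf -/
lemma sweep1 {s : ℝ} {e : ℂ} (hg : Sys.Good (MM f) s e) {l : ℂ} (hl : l ∈ Λ) (p : ℂ) :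
    ∃ T : ℝ, tau Φ l = qpt Φ (p + T • e) p - p := by
  obtain ⟨T, hT⟩ := hS.sweep hg p (p + l)
  refine ⟨T, ?_⟩
  unfold qpt
  rw [hT, hS.tau_spec hl]
  unfold tau; ring

lemma sweep2 {s : ℝ} {e : ℂ} (hg : Sys.Good (MM f) s e) {l : ℂ} (hl : l ∈ Λ) (p : ℂ) :
    ∃ T : ℝ, tau (cF Φ) l = qpt (cF Φ) (p + T • e) p - p := by
  obtain ⟨T, hT⟩ := hS.compl.sweep (Sys.good_compl hg) p (p + l)
  refine ⟨T, ?_⟩
  unfold qpt
  rw [hT, hS.compl.tau_spec hl]
  unfold tau; ring

include hT

/-- left frame at the intermediate point -/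
lemma th_mid {l : ℂ} (hl : l ∈ Λ) (v p : ℂ) : th f v (p + tau Φ l) = th f v p := by
  obtain ⟨a, b, -, -, -, ⟨α, β, -, -, hg⟩, -⟩ := hS.exists_good
  obtain ⟨T, h1⟩ := sweep1 hS hg hl p
  rw [h1, add_sub_cancel]
  exact th_leaf hT.imm hS v p _ T

lemma thR_mid {l : ℂ} (hl : l ∈ Λ) (v p : ℂ) : thR f v (p + tau Φ l) = thR f v p := by
  obtain ⟨a, b, -, -, -, ⟨α, β, -, -, hg⟩, -⟩ := hS.exists_good
  obtain ⟨T, h1⟩ := sweep2 hS hg hl (p + tau Φ l)
  have h2 := thR_leaf hT.imm hS v (p + tau Φ l) (α • a + β • b) T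
  have h3 : qpt (cF Φ) (p + tau Φ l + T • (α • a + β • b)) (p + tau Φ l) = p + l := by
    have h4 : qpt (cF Φ) (p + tau Φ l + T • (α • a + β • b)) (p + tau Φ l)
        = (p + tau Φ l) + tau (cF Φ) l := by rw [h1]; ring
    rw [h4, tau_cF]; ring
  rw [h3, hT.thR_per hl] at h2
  exact h2.symm

/-- the holonomy is a sign -/
lemma hol_point {l : ℂ} (hl : l ∈ Λ) (p : ℂ) :
    f (p + tau Φ l) = f p ∨ f (p + tau Φ l) = - f p := by
  set q := p + tau Φ l with hq
  set g := star (f p) * f q with hgdef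
  have hfq : f q = f p * g := by rw [hgdef, ← mul_assoc, hT.imm.self_mul_star', one_mul]
  have hcomm : ∀ v, g * th f v p = th f v p * g := by
    intro v
    have h1 := thR_mid hT hS hl v p
    have h2 := th_mid hT hS hl v p
    rw [← hq] at h1 h2
    rw [hT.imm.thR_eq, hT.imm.thR_eq, h2] at h1
    calc g * th f v p = star (f p) * (f q * th f v p * star (f q)) * f q := by
          rw [hgdef]
          rw [mul_assoc (star (f p)) (f q) (th f v p), mul_assoc (star (f p)) _ (f q),
            mul_assoc (f q * th f v p), hT.imm.star_mul_self', mul_one]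
      _ = star (f p) * (f p * th f v p * star (f p)) * f q := by rw [h1]
      _ = th f v p * g := by
          rw [hgdef, mul_assoc (f p), ← mul_assoc (star (f p)) (f p), hT.imm.star_mul_self', one_mul,
            mul_assoc]
  have hgn : ‖g‖ = 1 := by rw [hgdef, norm_mul, norm_star, hT.imm.sph, hT.imm.sph, one_mul]
  -- g is real
  have o := hT.imm.opair p
  have hc1 := hcomm 1
  have hcI := hcomm I
  have e := o.expand g
  set a := th f 1 p
  set b := th f I p
  set x := (inner ℝ a g : ℝ)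
  set y := (inner ℝ b g : ℝ)
  set w := (inner ℝ (a * b) g : ℝ)
  have hb1 : (inner ℝ a b : ℝ) = 0 := o.ab
  -- commute with a : gives y = w = 0
  have k1 : g * a - a * g = (-(2 * y)) • (a * b) + (2 * w) • b := by
    rw [e]
    simp only [add_mul, mul_add, smul_mul_assoc, mul_smul_comm, one_mul, mul_one, o.aa, o.ba, o.aN]
    have : a * b * a = b := by rw [mul_assoc, o.ba, mul_neg, o.aN, neg_neg]
    rw [this]
    module
  have k2 : g * b - b * g = (2 * x) • (a * b) + (-(2 * w)) • a := by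
    rw [e]
    simp only [add_mul, mul_add, smul_mul_assoc, mul_smul_comm, one_mul, mul_one, o.bb, o.ba, o.Nb]
    have : b * (a * b) = a := by rw [← mul_assoc, o.ba, neg_mul, o.Nb, neg_neg]
    rw [this]
    module
  rw [hc1, sub_self] at k1
  rw [hcI, sub_self] at k2
  have n1 : (inner ℝ (a * b) (a * b) : ℝ) = 1 := o.nN
  have n2 : (inner ℝ (a * b) b : ℝ) = 0 := by rw [real_inner_comm]; exact o.inner_bN
  have n3 : (inner ℝ (a * b) a : ℝ) = 0 := by rw [real_inner_comm]; exact o.inner_aN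
  have n4 : (inner ℝ b (a * b) : ℝ) = 0 := o.inner_bN
  have n5 : (inner ℝ b b : ℝ) = 1 := o.nb
  have z1 := congrArg (fun u => (inner ℝ (a * b) u : ℝ)) k1
  have z2 := congrArg (fun u => (inner ℝ b u : ℝ)) k1
  have z3 := congrArg (fun u => (inner ℝ (a * b) u : ℝ)) k2
  simp only [inner_zero_right, inner_add_right, inner_smul_right, n1, n2, n3, n4, n5] at z1 z2 z3
  have hy : y = 0 := by linarith
  have hw : w = 0 := by linarith
  have hx : x = 0 := by linarith
  rw [hy, hw, hx] at e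
  simp only [zero_smul, add_zero] at e
  have hre : |g.re| = 1 := by
    rw [e, norm_smul] at hgn
    simpa using hgn
  rcases (abs_eq (by norm_num : (0:ℝ) ≤ 1)).1 hre with h1 | h1
  · left; rw [hfq, e, h1]; simp
  · right; rw [hfq, e, h1]; simp

/-- the sign of the holonomy does not depend on the point -/
lemma hol {l : ℂ} (hl : l ∈ Λ) :
    (∀ p, f (p + tau Φ l) = f p) ∨ (∀ p, f (p + tau Φ l) = - f p) := by
  have hcont : Continuous fun p => (inner ℝ (f (p + tau Φ l)) (f p) : ℝ) := by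
    have := hT.imm.diff.continuous
    fun_prop
  have hval : ∀ p, (inner ℝ (f (p + tau Φ l)) (f p) : ℝ) = 1 ∨
      (inner ℝ (f (p + tau Φ l)) (f p) : ℝ) = -1 := by
    intro p
    rcases hol_point hT hS hl p with h1 | h1
    · left; rw [h1, real_inner_self_eq_norm_sq, hT.imm.sph]; norm_num
    · right; rw [h1, inner_neg_left, real_inner_self_eq_norm_sq, hT.imm.sph]; norm_num
  have hne : ∀ p, (inner ℝ (f (p + tau Φ l)) (f p) : ℝ) ≠ 0 := by
    intro p; rcases hval p with h1 | h1 <;> rw [h1] <;> norm_num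
  have hinj : ∀ p, f (p + tau Φ l) = f p → 0 < (inner ℝ (f (p + tau Φ l)) (f p) : ℝ) := by
    intro p h1; rw [h1, real_inner_self_eq_norm_sq, hT.imm.sph]; norm_num
  have hneg : ∀ p, f (p + tau Φ l) = -f p → (inner ℝ (f (p + tau Φ l)) (f p) : ℝ) < 0 := by
    intro p h1; rw [h1, inner_neg_left, real_inner_self_eq_norm_sq, hT.imm.sph]; norm_num
  rcases hol_point hT hS hl 0 with h0 | h0
  · left
    intro p
    rcases hol_point hT hS hl p with h1 | h1
    · exact h1
    · exfalso
      have := Sys.sign_const hcont hne (hinj 0 h0) p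
      linarith [hneg p h1]
  · right
    intro p
    rcases hol_point hT hS hl p with h1 | h1
    · exfalso
      have h2 : (0 : ℝ) < -(inner ℝ (f (0 + tau Φ l)) (f 0) : ℝ) := by linarith [hneg 0 h0]
      have := Sys.sign_const (g := fun p => -(inner ℝ (f (p + tau Φ l)) (f p) : ℝ)) hcont.neg
        (fun p => neg_ne_zero.2 (hne p)) h2 p
      linarith [hinj p h1]
    · exact h1

end tor

end Pool.Agent.helper3.FlatTorus
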