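import Pool.Agent.helper3.FlatTorus.Hol

/-! Inequalities between periods and transversal directions. -/

namespace Pool.Agent.helper3.FlatTorus
open Quaternion Complex Set InnerProductGeometry

variable {f : ℂ → ℍ[ℝ]} {Λ : AddSubgroup ℂ} {Φ : ℂ → ℂ}

lemma angle_neg_self {x : ℍ[ℝ]} (hx : ‖x‖ = 1) : angle x (-x) = Real.pi := by
  rw [angle_neg_right, angle_self (by rintro rfl; simp at hx)]; ring

lemma len_eq {w e : ℂ} (he : ‖e‖ = 1) {k c : ℝ} (hk : k * cross w e = dot w e - c) :
    Real.sqrt (1 + k ^ 2) * |cross w e| = ‖w - c • e‖ := by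
  have h1 := norm_add_smul_sq w e he (-c)
  have h2 : w + (-c) • e = w - c • e := by module
  rw [h2] at h1
  have h3 : (Real.sqrt (1 + k ^ 2) * |cross w e|) ^ 2 = ‖w - c • e‖ ^ 2 := by
    rw [h1, mul_pow, Real.sq_sqrt (by positivity), sq_abs]
    have : (1 + k ^ 2) * cross w e ^ 2 = cross w e ^ 2 + (k * cross w e) ^ 2 := by ring
    rw [this, hk]; ring
  exact (pow_left_inj₀ (by positivity) (norm_nonneg _) (by norm_num)).1 h3

lemma norm_zero_sub {e : ℂ} (he : ‖e‖ = 1) {c : ℝ} (hc : |c| = Real.pi) :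
    Real.pi ≤ ‖(0 : ℂ) - c • e‖ := by
  rw [zero_sub, norm_neg, norm_smul, he, mul_one, Real.norm_eq_abs, hc]

lemma cos_of_abs {c : ℝ} (hc : |c| = Real.pi) : Real.cos (-c) = -1 := by
  rw [Real.cos_neg, ← Real.cos_abs, hc, Real.cos_pi]

lemma tau_zero_of_cross (hS : Sys (MM f) Φ Λ) {s : ℝ} {e : ℂ} (hg : Sys.Good (MM f) s e) {l : ℂ}
    (hc : cross (tau Φ l) e = 0) : tau Φ l = 0 := by
  have := hS.inj hg (p := l) (p' := 0) hc
  unfold tau; rw [this, sub_self]

lemma tau2_zero_of_cross (hS : Sys (MM f) Φ Λ) {s : ℝ} {e : ℂ} (hg : Sys.Good (MM f) s e) {l : ℂ}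
    (hc : cross (tau (cF Φ) l) e = 0) : tau (cF Φ) l = 0 := by
  have := hS.compl.inj (Sys.good_compl hg) (p := l) (p' := 0) hc
  unfold tau; rw [this, sub_self]

section
variable (hT : Tor f Λ) (hS : Sys (MM f) Φ Λ)
include hT hS

/-- first components with trivial holonomy -/
lemma bound1 {s : ℝ} (hs : s * s = 1) {e : ℂ} (he : ‖e‖ = 1) (hg : Sys.Good (MM f) s e)
    {l : ℂ} (hl : l ∈ Λ) (hh : ∀ p, f (p + tau Φ l) = f p) {c : ℝ} (hc : |c| = Real.pi) :
    Real.pi ≤ ‖tau Φ l - c • e‖ := by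
  by_cases h0 : cross (tau Φ l) e = 0
  · rw [tau_zero_of_cross hS hg h0]; exact norm_zero_sub he hc
  · obtain ⟨T, hw⟩ := sweep1 hS hg hl 0
    set k := (dot (tau Φ l) e - c) / cross (tau Φ l) e with hk
    have hk' : k * cross (tau Φ l) e = dot (tau Φ l) e - c := by rw [hk]; field_simp
    have h1 := arc1 hT.imm hS hs he hg 0 T k hw
    rw [len_eq he hk', hk', hh] at h1
    have h2 : -dot (tau Φ l) e + (dot (tau Φ l) e - c) = -c := by ring
    rw [h2, EE_odd (cos_of_abs hc), mul_neg, mul_one, angle_neg_self (hT.imm.sph 0)] at h1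
    exact h1

/-- second components with trivial holonomy -/
lemma bound2 {s : ℝ} (hs : s * s = 1) {e : ℂ} (he : ‖e‖ = 1) (hg : Sys.Good (MM f) s e)
    {l : ℂ} (hl : l ∈ Λ) (hh : ∀ p, f (p + tau Φ l) = f p) {c : ℝ} (hc : |c| = Real.pi) :
    Real.pi ≤ ‖tau (cF Φ) l - c • e‖ := by
  by_cases h0 : cross (tau (cF Φ) l) e = 0
  · rw [tau2_zero_of_cross hS hg h0]; exact norm_zero_sub he hc
  · obtain ⟨T, hw⟩ := sweep2 hS hg hl 0
    have hh2 : ∀ p, f (p + tau (cF Φ) l) = f p := by
      intro p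
      have h1 := hh (p + tau (cF Φ) l)
      have h2 : p + tau (cF Φ) l + tau Φ l = p + l := by rw [tau_cF]; ring
      rw [h2, hT.per l hl] at h1
      exact h1.symm
    set k := (dot (tau (cF Φ) l) e - c) / cross (tau (cF Φ) l) e with hk
    have hk' : k * cross (tau (cF Φ) l) e = dot (tau (cF Φ) l) e - c := by rw [hk]; field_simp
    have h1 := arc2 hT.imm hS hs he hg 0 T k hw
    rw [len_eq he hk', hk', hh2] at h1
    have h2 : -dot (tau (cF Φ) l) e + (dot (tau (cF Φ) l) e - c) = -c := by ring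
    rw [h2, EE_odd (cos_of_abs hc), neg_mul, one_mul, angle_neg_self (hT.imm.sph 0)] at h1
    exact h1

/-- the composite inequality -/
lemma arc12 {s : ℝ} (hs : s * s = 1) {e : ℂ} (he : ‖e‖ = 1) (hg : Sys.Good (MM f) s e)
    {l : ℂ} (hl : l ∈ Λ) (k : ℝ) :
    angle (f 0) (f 0 * EE (th f e 0) (-dot l e + k * cross l e))
      ≤ Real.sqrt (1 + k ^ 2) * (|cross (tau Φ l) e| + |cross (tau (cF Φ) l) e|) := by
  obtain ⟨T, hw⟩ := sweep1 hS hg hl 0
  obtain ⟨T', hw'⟩ := sweep2 hS hg hl (0 + tau Φ l)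
  have h1 := arc1 hT.imm hS hs he hg 0 T k hw
  have h2 := arc2 hT.imm hS hs he hg (0 + tau Φ l) T' k hw'
  set q := 0 + tau Φ l with hq
  set φ1 := -dot (tau Φ l) e + k * cross (tau Φ l) e with hφ1
  set φ2 := -dot (tau (cF Φ) l) e + k * cross (tau (cF Φ) l) e with hφ2
  have hsum : φ1 + φ2 = -dot l e + k * cross l e := by
    have h3 : l = tau Φ l + tau (cF Φ) l := by rw [tau_cF]; ring
    have h4 : dot l e = dot (tau Φ l) e + dot (tau (cF Φ) l) e := by
      conv_lhs => rw [h3]
      unfold dot; simp; ring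
    have h5 : cross l e = cross (tau Φ l) e + cross (tau (cF Φ) l) e := by
      conv_lhs => rw [h3]
      exact cross_add_left _ _ _
    rw [h4, h5, hφ1, hφ2]; ring
  have hql : q + tau (cF Φ) l = 0 + l := by rw [hq, tau_cF]; ring
  rw [hql] at h2
  have hthq : th f e q = th f e 0 := th_mid hT hS hl e 0
  have hIUq : IU (thR f e q) := IU_thR hT.imm he q
  have hIU0 : IU (th f e 0) := IU_th hT.imm he 0
  -- multiply the second inequality
  have h3 : angle (EE (thR f e q) φ1 * f q) (EE (thR f e q) φ1 * (EE (thR f e q) φ2 * f (0 + l)))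
      = angle (f q) (EE (thR f e q) φ2 * f (0 + l)) := by
    have hn := EE_norm hIUq φ1
    unfold angle
    have hi : ∀ x y : ℍ[ℝ], (inner ℝ (EE (thR f e q) φ1 * x) (EE (thR f e q) φ1 * y) : ℝ)
        = inner ℝ x y := by
      intro x y
      have h5 : ∀ z : ℍ[ℝ], ‖EE (thR f e q) φ1 * z‖ = ‖z‖ := fun z => by rw [norm_mul, hn, one_mul]
      have n1 := @norm_add_sq_real _ _ _ (EE (thR f e q) φ1 * x) (EE (thR f e q) φ1 * y)
      have n2 := @norm_add_sq_real _ _ _ x y
      rw [← mul_add, h5, h5, h5] at n1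
      linarith
    rw [hi, norm_mul, norm_mul, hn, one_mul, one_mul]
  have h4 : EE (thR f e q) φ1 * f q = f q * EE (th f e 0) φ1 := by
    rw [hT.imm.thR_eq, EE_conj (hT.imm.self_mul_star' q), mul_assoc, hT.imm.star_mul_self', mul_one,
      hthq]
  have h5 : EE (thR f e q) φ1 * (EE (thR f e q) φ2 * f (0 + l))
      = f 0 * EE (th f e 0) (-dot l e + k * cross l e) := by
    rw [← mul_assoc, EE_mul hIUq, hsum]
    have h6 : thR f e q = thR f e 0 := thR_mid hT hS hl e 0
    rw [h6, hT.per l hl, hT.imm.thR_eq, EE_conj (hT.imm.self_mul_star' 0), mul_assoc,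
      hT.imm.star_mul_self', mul_one]
  rw [← h3, h4, h5] at h2
  calc angle (f 0) (f 0 * EE (th f e 0) (-dot l e + k * cross l e))
      ≤ angle (f 0) (f q * EE (th f e 0) φ1) +
        angle (f q * EE (th f e 0) φ1) (f 0 * EE (th f e 0) (-dot l e + k * cross l e)) :=
        angle_le_angle_add_angle _ _ _
    _ ≤ Real.sqrt (1 + k ^ 2) * |cross (tau Φ l) e| + Real.sqrt (1 + k ^ 2) * |cross (tau (cF Φ) l) e| :=
        add_le_add h1 h2
    _ = _ := by ring

/-- periods whose components lie on the same side -/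
lemma bound12 {s : ℝ} (hs : s * s = 1) {e : ℂ} (he : ‖e‖ = 1) (hg : Sys.Good (MM f) s e)
    {l : ℂ} (hl : l ∈ Λ) (hside : 0 ≤ cross (tau Φ l) e * cross (tau (cF Φ) l) e)
    {c : ℝ} (hc : |c| = Real.pi) : Real.pi ≤ ‖l - c • e‖ := by
  have h3 : l = tau Φ l + tau (cF Φ) l := by rw [tau_cF]; ring
  have h5 : cross l e = cross (tau Φ l) e + cross (tau (cF Φ) l) e := by
    conv_lhs => rw [h3]
    exact cross_add_left _ _ _
  have h6 : |cross (tau Φ l) e| + |cross (tau (cF Φ) l) e| = |cross l e| := by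
    rw [h5]
    rcases le_total 0 (cross (tau Φ l) e) with ha | ha
    · rcases ha.eq_or_lt with h0 | h0
      · rw [← h0]; simp
      · have hb : 0 ≤ cross (tau (cF Φ) l) e := by
          by_contra hc
          have := mul_neg_of_pos_of_neg h0 (not_le.1 hc)
          linarith
        rw [abs_of_nonneg ha, abs_of_nonneg hb, abs_of_nonneg (add_nonneg ha hb)]
    · rcases ha.eq_or_lt with h0 | h0
      · rw [h0]; simp
      · have hb : cross (tau (cF Φ) l) e ≤ 0 := by
          by_contra hc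
          have := mul_neg_of_neg_of_pos h0 (not_le.1 hc)
          linarith
        rw [abs_of_nonpos ha, abs_of_nonpos hb, abs_of_nonpos (add_nonpos ha hb)]
        ring
  by_cases h0 : cross l e = 0
  · rw [h0, abs_zero] at h6
    have h7 : cross (tau Φ l) e = 0 := by
      have h8 := abs_nonneg (cross (tau Φ l) e)
      have h9 := abs_nonneg (cross (tau (cF Φ) l) e)
      exact abs_eq_zero.1 (by linarith)
    have h7' : cross (tau (cF Φ) l) e = 0 := by
      have h8 := abs_nonneg (cross (tau Φ l) e)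
      have h9 := abs_nonneg (cross (tau (cF Φ) l) e)
      exact abs_eq_zero.1 (by linarith)
    have h10 : l = 0 := by
      rw [h3, tau_zero_of_cross hS hg h7, tau2_zero_of_cross hS hg h7', add_zero]
    rw [h10]; exact norm_zero_sub he hc
  · set k := (dot l e - c) / cross l e with hk
    have hk' : k * cross l e = dot l e - c := by rw [hk]; field_simp
    have h1 := arc12 hT hS hs he hg hl k
    rw [h6, len_eq he hk', hk'] at h1
    have h2 : -dot l e + (dot l e - c) = -c := by ring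
    rw [h2, EE_odd (cos_of_abs hc), mul_neg, mul_one, angle_neg_self (hT.imm.sph 0)] at h1
    exact h1

end

/-- immersions do not increase distances -/
lemma lip_angle (hf : FlatImm f) (p u : ℂ) (a b : ℝ) (hu : ‖u‖ = 1) :
    angle (f (p + a • u)) (f (p + b • u)) ≤ |b - a| := by
  have hG : ∀ t, HasDerivAt (fun t : ℝ => f (p + t • u)) (D f u (p + t • u)) t := fun t =>
    deriv_along hf.diff (seg_hasDeriv p u t)
  have hS : ∀ t : ℝ, HasDerivAt (fun t : ℝ => t) 1 t := fun t => hasDerivAt_id t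
  exact arc_angle_abs hG (fun t => hf.sph _) hS (fun t => by unfold D; rw [hf.iso, hu]) a b

lemma antiperiod_norm (hf : FlatImm f) {w : ℂ} (hw : ∀ p, f (p + w) = - f p) :
    Real.pi ≤ ‖w‖ := by
  have hw0 : w ≠ 0 := by
    rintro rfl
    have h1 := hw 0
    rw [add_zero] at h1
    have h2 : f 0 = 0 := by
      have : (2 : ℝ) • f 0 = 0 := by rw [two_smul]; nth_rewrite 1 [h1]; simp
      simpa using this
    have := hf.sph 0
    rw [h2] at this; simp at this
  have hn : 0 < ‖w‖ := norm_pos_iff.2 hw0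
  have hu : ‖(‖w‖⁻¹ : ℝ) • w‖ = 1 := by
    rw [norm_smul, Real.norm_eq_abs, abs_of_pos (inv_pos.2 hn), inv_mul_cancel₀ hn.ne']
  have h1 := lip_angle hf 0 ((‖w‖⁻¹ : ℝ) • w) 0 ‖w‖ hu
  have e1 : (0 : ℂ) + (0 : ℝ) • ((‖w‖⁻¹ : ℝ) • w) = 0 := by rw [zero_smul, add_zero]
  have e2 : (0 : ℂ) + ‖w‖ • ((‖w‖⁻¹ : ℝ) • w) = 0 + w := by
    rw [smul_smul, mul_inv_cancel₀ hn.ne', one_smul]
  rw [e1, e2, hw, angle_neg_self (hf.sph 0), sub_zero, abs_of_pos hn] at h1
  exact h1

/-- an antiperiod of length `π` is an asymptotic direction everywhere -/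
lemma antiperiod_asymptotic (hf : FlatImm f) {w : ℂ} (hw : ∀ p, f (p + w) = - f p)
    (hn : ‖w‖ = Real.pi) (p : ℂ) : cross (MM f p w) w = 0 := by
  have hpi := Real.pi_pos
  set u : ℂ := (Real.pi⁻¹ : ℝ) • w with hudef
  have hu : ‖u‖ = 1 := by
    rw [hudef, norm_smul, Real.norm_eq_abs, abs_of_pos (inv_pos.2 hpi), hn, inv_mul_cancel₀ hpi.ne']
  have hwu : w = Real.pi • u := by rw [hudef, smul_smul, mul_inv_cancel₀ hpi.ne', one_smul]
  set o : ℂ := p - (Real.pi / 2) • u with ho
  set g : ℝ → ℍ[ℝ] := fun t => f (o + t • u) with hg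
  have hg1 : ∀ t, HasDerivAt g (D f u (o + t • u)) t := fun t =>
    deriv_along hf.diff (seg_hasDeriv o u t)
  have hg2 : ∀ t, HasDerivAt (fun t : ℝ => D f u (o + t • u)) (D (D f u) u (o + t • u)) t := fun t =>
    deriv_along ((hf.Df_contDiff u).differentiable (by norm_num)) (seg_hasDeriv o u t)
  have hcosr : ∀ r ∈ Icc (0 : ℝ) Real.pi, (inner ℝ (g 0) (g r) : ℝ) = Real.cos r := by
    intro r hr
    have a1 : angle (g 0) (g r) ≤ r := by
      have := lip_angle hf o u 0 r hu
      rw [sub_zero, abs_of_nonneg hr.1] at this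
      exact this
    have a2 : angle (g r) (g Real.pi) ≤ Real.pi - r := by
      have := lip_angle hf o u r Real.pi hu
      rw [abs_of_nonneg (by linarith [hr.2])] at this
      exact this
    have a3 : angle (g 0) (g Real.pi) = Real.pi := by
      simp only [hg]
      rw [← hwu, zero_smul, add_zero, hw, angle_neg_self (hf.sph o)]
    have a4 := angle_le_angle_add_angle (g 0) (g r) (g Real.pi)
    rw [a3] at a4
    have a5 : angle (g 0) (g r) = r := by linarith
    rw [unit_angle (hf.sph _) (hf.sph _)] at a5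
    have a6 : |(inner ℝ (f (o + (0 : ℝ) • u)) (f (o + r • u)) : ℝ)| ≤ 1 := by
      have := abs_real_inner_le_norm (f (o + (0 : ℝ) • u)) (f (o + r • u))
      rwa [hf.sph, hf.sph, one_mul] at this
    have a7 := congrArg Real.cos a5
    rw [Real.cos_arccos (abs_le.1 a6).1 (abs_le.1 a6).2] at a7
    exact a7
  have hsinr : ∀ r ∈ Ioo (0 : ℝ) Real.pi, (inner ℝ (g 0) (D f u (o + r • u)) : ℝ) = -Real.sin r := by
    intro r hr
    have d1 : HasDerivAt (fun t => (inner ℝ (g 0) (g t) : ℝ)) (inner ℝ (g 0) (D f u (o + r • u))) r := by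
      have := (hasDerivAt_const r (g 0)).inner ℝ (hg1 r)
      simpa using this
    have d2 : HasDerivAt (fun t => (inner ℝ (g 0) (g t) : ℝ)) (-Real.sin r) r := by
      refine (Real.hasDerivAt_cos r).congr_of_eventuallyEq ?_
      filter_upwards [Ioo_mem_nhds hr.1 hr.2] with t ht
      exact hcosr t (Ioo_subset_Icc_self ht)
    exact d1.unique d2
  have hid : ∀ r ∈ Ioo (0 : ℝ) Real.pi,
      Real.cos r • g r - Real.sin r • D f u (o + r • u) = g 0 := by
    intro r hr
    have i1 := hcosr r (Ioo_subset_Icc_self hr)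
    have i2 := hsinr r hr
    have i3 : (inner ℝ (g r) (D f u (o + r • u)) : ℝ) = 0 := by
      have h1 : HasDerivAt (fun t => (inner ℝ (g t) (g t) : ℝ)) _ r := (hg1 r).inner ℝ (hg1 r)
      have h2 : (fun t => (inner ℝ (g t) (g t) : ℝ)) = fun _ => 1 := by
        funext t; rw [real_inner_self_eq_norm_sq, hf.sph]; norm_num
      rw [h2] at h1
      have h3 := h1.unique (hasDerivAt_const r (1 : ℝ))
      rw [real_inner_comm (g r) (D f u (o + r • u))] at h3
      linarith
    have n1 : ‖g r‖ = 1 := hf.sph _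
    have n0 : ‖g 0‖ = 1 := hf.sph _
    have n2 : ‖D f u (o + r • u)‖ = 1 := by unfold D; rw [hf.iso, hu]
    have key : ‖Real.cos r • g r - Real.sin r • D f u (o + r • u) - g 0‖ ^ 2 = 0 := by
      rw [@norm_sub_sq_real, @norm_sub_sq_real, inner_sub_left, norm_smul, norm_smul, n1, n0, n2,
        inner_smul_left, inner_smul_left, inner_smul_left, inner_smul_right, i3,
        real_inner_comm (g 0) (g r), real_inner_comm (g 0) (D f u (o + r • u)), i1, i2]
      simp only [Real.norm_eq_abs, mul_one, sq_abs, RCLike.conj_to_real, mul_zero, sub_zero]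
      linear_combination (-1 : ℝ) * Real.sin_sq_add_cos_sq r
    have := pow_eq_zero_iff (two_ne_zero) |>.1 key
    rw [norm_eq_zero, sub_eq_zero] at this
    exact this
  have hmem : Real.pi / 2 ∈ Ioo (0 : ℝ) Real.pi := ⟨by linarith, by linarith⟩
  have hp : o + (Real.pi / 2) • u = p := by rw [ho]; abel
  have hder : HasDerivAt (fun r => Real.cos r • g r - Real.sin r • D f u (o + r • u))
      (-(g (Real.pi / 2)) - D (D f u) u (o + (Real.pi / 2) • u)) (Real.pi / 2) := by
    have h1 := ((Real.hasDerivAt_cos (Real.pi / 2)).smul (hg1 (Real.pi / 2))).sub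
      ((Real.hasDerivAt_sin (Real.pi / 2)).smul (hg2 (Real.pi / 2)))
    refine h1.congr_deriv ?_
    rw [Real.cos_pi_div_two, Real.sin_pi_div_two]
    simp
  have hzero : -(g (Real.pi / 2)) - D (D f u) u (o + (Real.pi / 2) • u) = 0 := by
    refine hder.unique ?_
    refine (hasDerivAt_const (Real.pi / 2) (g 0)).congr_of_eventuallyEq ?_
    filter_upwards [Ioo_mem_nhds hmem.1 hmem.2] with t ht
    exact hid t ht
  rw [hp] at hzero
  have hgp : g (Real.pi / 2) = f p := by simp only [hg]; rw [hp]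
  rw [hgp] at hzero
  have hDD : D (D f u) u p = - f p := by
    have : D (D f u) u p = -(f p) - (-(f p) - D (D f u) u p) := by abel
    rw [this, hzero, sub_zero]
  -- second fundamental form
  have h1 := hf.D_th u u p
  rw [hDD, mul_neg, hf.star_mul_self', (IU_th hf hu p).sq, neg_neg, add_neg_cancel] at h1
  have h2 : D (th f u) u p = (ca f p * u.re ^ 2 + 2 * (cb f p + 1) * u.re * u.im + cd f p * u.im ^ 2)
      • nn f p := by
    have e1 : th f u = fun q => u.re • th f 1 q + u.im • th f I q := funext fun q => FlatImm.th_lin f u q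
    have e : D (th f u) u p = u.re • D (th f 1) u p + u.im • D (th f I) u p := by
      unfold D
      conv_lhs => rw [e1]
      have h3 := ((hf.th_diff 1 p).hasFDerivAt.const_smul u.re).add
        ((hf.th_diff I p).hasFDerivAt.const_smul u.im)
      have h4 : fderiv ℝ (fun q => u.re • th f 1 q + u.im • th f I q) p = _ := h3.fderiv
      rw [h4]; simp
    rw [e, D_dir (th f 1) u, D_dir (th f I) u, hf.D00, hf.D10, hf.D01, hf.D11]
    module
  rw [h2] at h1
  have hnn : nn f p ≠ 0 := by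
    intro h0
    have := (hf.opair p).nN
    have h3 : (inner ℝ (nn f p) (nn f p) : ℝ) = 1 := this
    rw [h0] at h3; simp at h3
  have h3 : ca f p * u.re ^ 2 + 2 * (cb f p + 1) * u.re * u.im + cd f p * u.im ^ 2 = 0 := by
    rcases smul_eq_zero.1 h1 with h4 | h4
    · exact h4
    · exact absurd h4 hnn
  have h4 : cross (MM f p u) u = 0 := by rw [FlatImm.cross_MM, h3]; simp
  rw [hwu, map_smul, cross_smul_left, cross_smul_right, h4]; simp

end Pool.Agent.helper3.FlatTorus
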