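import Pool.Agent.helper3.FlatTorus.Shape

/-! Periodic closed projection fields: translations, transversal directions, sweeping. -/

namespace Pool.Agent.helper3.FlatTorus
open Complex Set Filter Topology

lemma cross_add_left (u v w : ℂ) : cross (u + v) w = cross u w + cross v w := by
  unfold cross; simp; ring
lemma cross_sub_left (u v w : ℂ) : cross (u - v) w = cross u w - cross v w := by
  unfold cross; simp; ring
lemma cross_add_right (u v w : ℂ) : cross u (v + w) = cross u v + cross u w := by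
  unfold cross; simp; ring
lemma cross_sub_right (u v w : ℂ) : cross u (v - w) = cross u v - cross u w := by
  unfold cross; simp; ring
lemma cross_smul_left (r : ℝ) (u v : ℂ) : cross (r • u) v = r * cross u v := by
  unfold cross; simp; ring
lemma cross_smul_right (r : ℝ) (u v : ℂ) : cross u (r • v) = r * cross u v := by
  unfold cross; simp; ring
lemma cross_self (u : ℂ) : cross u u = 0 := by unfold cross; ring
lemma cross_swap (u v : ℂ) : cross u v = - cross v u := by unfold cross; ring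
lemma cross_zero_left (u : ℂ) : cross 0 u = 0 := by simp [cross]
lemma cross_zero_right (u : ℂ) : cross u 0 = 0 := by simp [cross]
lemma cross_neg_left (u v : ℂ) : cross (-u) v = - cross u v := by unfold cross; simp; ring
lemma cross_neg_right (u v : ℂ) : cross u (-v) = - cross u v := by unfold cross; simp; ring

lemma cross_continuous : Continuous (fun z : ℂ × ℂ => cross z.1 z.2) := by
  unfold cross; fun_prop

/-- parallel vectors -/
lemma exists_smul_of_cross {u v : ℂ} (hv : v ≠ 0) (h : cross u v = 0) : ∃ r : ℝ, u = r • v := by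
  unfold cross at h
  have hn : 0 < v.re ^ 2 + v.im ^ 2 := by
    by_contra hc
    have h1 : v.re ^ 2 + v.im ^ 2 = 0 := le_antisymm (not_lt.1 hc) (by positivity)
    have h2 : v.re = 0 := by nlinarith [sq_nonneg v.re, sq_nonneg v.im]
    have h3 : v.im = 0 := by nlinarith [sq_nonneg v.re, sq_nonneg v.im]
    exact hv (Complex.ext h2 h3)
  refine ⟨(u.re * v.re + u.im * v.im) / (v.re ^ 2 + v.im ^ 2), ?_⟩
  apply Complex.ext
  · simp only [smul_re, smul_eq_mul]
    field_simp
    linear_combination v.im * h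
  · simp only [smul_im, smul_eq_mul]
    field_simp
    linear_combination (-v.re) * h

lemma cross_hasDerivAt {z : ℝ → ℂ} {z' : ℂ} {t : ℝ} (hz : HasDerivAt z z' t) (e : ℂ) :
    HasDerivAt (fun t => cross (z t) e) (cross z' e) t := by
  unfold cross
  have h1 : HasDerivAt (fun t => (z t).re) z'.re t :=
    (Complex.reCLM.hasFDerivAt.comp_hasDerivAt t hz)
  have h2 : HasDerivAt (fun t => (z t).im) z'.im t :=
    (Complex.imCLM.hasFDerivAt.comp_hasDerivAt t hz)
  exact (h1.mul_const _).sub (h2.mul_const _)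

/-- A periodic closed projection field with primitive. -/
structure Sys (M : ℂ → ℂ →L[ℝ] ℂ) (Φ : ℂ → ℂ) (Λ : AddSubgroup ℂ) : Prop where
  pf : ProjField M
  prim : ∀ p, HasFDerivAt Φ (M p) p
  per : ∀ l ∈ Λ, ∀ p, M (p + l) = M p
  coc : ∃ R : ℝ, ∀ z : ℂ, ∃ l ∈ Λ, ‖z - l‖ ≤ R
  im : ∃ a : ℂ, a ≠ 0 ∧ M 0 a = a
  ker : ∃ b : ℂ, b ≠ 0 ∧ M 0 b = 0

/-- the complementary field -/
noncomputable def cM (M : ℂ → ℂ →L[ℝ] ℂ) (p : ℂ) : ℂ →L[ℝ] ℂ := ContinuousLinearMap.id ℝ ℂ - M p

/-- the complementary primitive -/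
noncomputable def cF (Φ : ℂ → ℂ) (p : ℂ) : ℂ := p - Φ p

lemma cM_apply (M : ℂ → ℂ →L[ℝ] ℂ) (p v : ℂ) : cM M p v = v - M p v := by simp [cM]

lemma ProjField.compl {M : ℂ → ℂ →L[ℝ] ℂ} (h : ProjField M) : ProjField (cM M) where
  smooth := contDiff_const.sub h.smooth
  idem p v := by simp [cM_apply, h.idem]
  symm p u v := by
    have : fderiv ℝ (cM M) p = - fderiv ℝ M p := by
      unfold cM
      rw [fderiv_fun_sub (by fun_prop) ((h.smooth.differentiable (by norm_num)) p)]
      simp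
    rw [this]
    simp [h.symm p u v]

namespace Sys
variable {M : ℂ → ℂ →L[ℝ] ℂ} {Φ : ℂ → ℂ} {Λ : AddSubgroup ℂ} (h : Sys M Φ Λ)
include h

lemma compl : Sys (cM M) (cF Φ) Λ where
  pf := h.pf.compl
  prim p := (hasFDerivAt_id p).sub (h.prim p)
  per l hl p := by unfold cM; rw [h.per l hl]
  coc := h.coc
  im := by
    obtain ⟨b, hb, hb'⟩ := h.ker
    exact ⟨b, hb, by simp [cM_apply, hb']⟩
  ker := by
    obtain ⟨a, ha, ha'⟩ := h.im
    exact ⟨a, ha, by simp [cM_apply, ha']⟩

lemma tau_spec {l : ℂ} (hl : l ∈ Λ) (p : ℂ) : Φ (p + l) = Φ p + (Φ l - Φ 0) := by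
  have hd : ∀ q, HasFDerivAt (fun q => Φ (q + l) - Φ q) (0 : ℂ →L[ℝ] ℂ) q := by
    intro q
    have h1 : HasFDerivAt (fun q => Φ (q + l)) (M (q + l)) q := by
      have h0 := (h.prim (q + l)).comp q ((hasFDerivAt_id q).add_const l)
      rw [ContinuousLinearMap.comp_id] at h0
      exact h0
    have h2 := h1.sub (h.prim q)
    rw [h.per l hl, sub_self] at h2
    exact h2
  have hc := is_const_of_fderiv_eq_zero (𝕜 := ℝ) (fun q => (hd q).differentiableAt)
    (fun q => (hd q).fderiv) p 0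
  simp only [zero_add] at hc
  rw [← hc]; abel

lemma cont : Continuous Φ := continuous_iff_continuousAt.2 fun p => (h.prim p).continuousAt

lemma M_cont : Continuous M := h.pf.smooth.continuous

lemma per_sub {l : ℂ} (hl : l ∈ Λ) (p : ℂ) : M (p - l) = M p := by
  have := h.per l hl (p - l)
  rw [sub_add_cancel] at this
  exact this.symm

/-- reduction to a compact set -/
lemma cpt : ∃ K : Set ℂ, IsCompact K ∧ ∀ p, ∃ q ∈ K, M q = M p := by
  obtain ⟨R, hR⟩ := h.coc
  refine ⟨Metric.closedBall 0 R, isCompact_closedBall 0 R, fun p => ?_⟩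
  obtain ⟨l, hl, hle⟩ := hR p
  exact ⟨p - l, by simpa using hle, h.per_sub hl p⟩

lemma separate {v : ℂ} {p p' : ℂ} (h1 : M p v = v) (h2 : M p' v = 0) : v = 0 := by
  obtain ⟨q1, q2, -⟩ := product_structure h.pf h.prim p p'
  have e1 := q1 v
  have e2 := q2 v
  rw [h1] at e1
  rw [h2, sub_zero] at e2
  rw [← e1, e2]

/-- a transversal direction exists between the image direction and the kernel direction -/
lemma exists_transversal {a b : ℂ} (ha : a ≠ 0) (hb : b ≠ 0) (ha' : M 0 a = a) (hb' : M 0 b = 0) :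
    ∃ s : ℝ, 0 < s ∧ s < 1 ∧ ∀ p, M p ((1 - s) • a + s • b) ≠ 0 ∧
      M p ((1 - s) • a + s • b) ≠ (1 - s) • a + s • b := by
  obtain ⟨K, hK, hKp⟩ := h.cpt
  set v : ℝ → ℂ := fun s => (1 - s) • a + s • b with hv
  have hvc : Continuous v := by rw [hv]; fun_prop
  have hind : ∀ s, v s ≠ 0 := by
    intro s hs
    have h1 : M 0 (v s) = (1 - s) • a := by
      rw [hv]; simp only; rw [map_add, map_smul, map_smul, ha', hb']; simp
    rw [hs, map_zero] at h1
    have h2 : (1 - s) = 0 := by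
      rcases smul_eq_zero.1 h1.symm with h3 | h3
      · exact h3
      · exact absurd h3 ha
    have h3 : v s = s • b := by rw [hv]; simp [h2]
    rw [hs] at h3
    rcases smul_eq_zero.1 h3.symm with h4 | h4
    · rw [h4] at h2; norm_num at h2
    · exact hb h4
  set T1 : Set ℝ := {s ∈ Icc (0 : ℝ) 1 | ∃ p ∈ K, M p (v s) = v s} with hT1
  set T2 : Set ℝ := {s ∈ Icc (0 : ℝ) 1 | ∃ p ∈ K, M p (v s) = 0} with hT2
  have hMc := h.M_cont
  have cl1 : IsClosed T1 := by
    have e : T1 = Prod.fst '' ((Icc (0 : ℝ) 1 ×ˢ K) ∩ {z : ℝ × ℂ | M z.2 (v z.1) = v z.1}) := by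
      ext s
      simp only [hT1, mem_image, mem_inter_iff, mem_prod, mem_ofPred_eq, Prod.exists,
        exists_and_right, exists_eq_right]
      constructor
      · rintro ⟨h1, p, h2, h3⟩; exact ⟨p, ⟨h1, h2⟩, h3⟩
      · rintro ⟨p, ⟨h1, h2⟩, h3⟩; exact ⟨h1, p, h2, h3⟩
    rw [e]
    have hcc : IsClosed {z : ℝ × ℂ | M z.2 (v z.1) = v z.1} :=
      isClosed_eq (by fun_prop) (by fun_prop)
    exact (((isCompact_Icc.prod hK).inter_right hcc).image continuous_fst).isClosed
  have cl2 : IsClosed T2 := by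
    have e : T2 = Prod.fst '' ((Icc (0 : ℝ) 1 ×ˢ K) ∩ {z : ℝ × ℂ | M z.2 (v z.1) = 0}) := by
      ext s
      simp only [hT2, mem_image, mem_inter_iff, mem_prod, mem_ofPred_eq, Prod.exists,
        exists_and_right, exists_eq_right]
      constructor
      · rintro ⟨h1, p, h2, h3⟩; exact ⟨p, ⟨h1, h2⟩, h3⟩
      · rintro ⟨p, ⟨h1, h2⟩, h3⟩; exact ⟨h1, p, h2, h3⟩
    rw [e]
    have hcc : IsClosed {z : ℝ × ℂ | M z.2 (v z.1) = 0} :=
      isClosed_eq (by fun_prop) (by fun_prop)
    exact (((isCompact_Icc.prod hK).inter_right hcc).image continuous_fst).isClosed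
  obtain ⟨p0, hp0, hp0'⟩ := hKp 0
  have m0 : (0 : ℝ) ∈ T1 := by
    refine ⟨by simp, p0, hp0, ?_⟩
    rw [hp0', hv]; simp [ha']
  have m1 : (1 : ℝ) ∈ T2 := by
    refine ⟨by simp, p0, hp0, ?_⟩
    rw [hp0', hv]; simp [hb']
  have hdis : T1 ∩ T2 = ∅ := by
    ext s
    simp only [mem_inter_iff, mem_empty_iff_false, iff_false, not_and]
    rintro ⟨-, p, -, hp⟩ ⟨-, p', -, hp'⟩
    exact hind s (h.separate hp hp')
  have hex : ∃ s ∈ Icc (0 : ℝ) 1, s ∉ T1 ∧ s ∉ T2 := by
    by_contra hcon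
    push Not at hcon
    have hcov : Icc (0 : ℝ) 1 ⊆ T1 ∪ T2 := by
      intro s hs
      by_cases h1 : s ∈ T1
      · exact Or.inl h1
      · exact Or.inr (hcon s hs h1)
    have hpre : IsPreconnected (Icc (0 : ℝ) 1) := isPreconnected_Icc
    rw [isPreconnected_closed_iff] at hpre
    obtain ⟨x, -, hx⟩ := hpre T1 T2 cl1 cl2 hcov ⟨0, by simp, m0⟩ ⟨1, by simp, m1⟩
    rw [hdis] at hx
    exact hx
  obtain ⟨s, hs, hs1, hs2⟩ := hex
  have hs0 : 0 < s := by
    rcases hs.1.lt_or_eq with h1 | h1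
    · exact h1
    · exact absurd (h1 ▸ m0) hs1
  have hs1' : s < 1 := by
    rcases hs.2.lt_or_eq with h1 | h1
    · exact h1
    · exact absurd (h1 ▸ m1) hs2
  refine ⟨s, hs0, hs1', fun p => ?_⟩
  obtain ⟨q, hq, hq'⟩ := hKp p
  constructor
  · intro hc
    exact hs2 ⟨hs, q, hq, by rw [hq']; exact hc⟩
  · intro hc
    exact hs1 ⟨hs, q, hq, by rw [hq']; exact hc⟩

lemma cross_ne {e p : ℂ} (h1 : M p e ≠ 0) (h2 : M p e ≠ e) : cross (M p e) e ≠ 0 := by
  intro hc
  have he : e ≠ 0 := by rintro rfl; simp at h1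
  obtain ⟨r, hr⟩ := exists_smul_of_cross he hc
  have h3 := h.pf.idem p e
  rw [hr, map_smul, hr, smul_smul] at h3
  have h4 : (r * r - r) • e = 0 := by rw [sub_smul, h3, sub_self]
  rcases smul_eq_zero.1 h4 with h5 | h5
  · have h6 : r * (r - 1) = 0 := by linarith
    rcases mul_eq_zero.1 h6 with h7 | h7
    · apply h1; rw [hr, h7, zero_smul]
    · apply h2
      have : r = 1 := by linarith
      rw [hr, this, one_smul]
  · exact he h5

/-- `e` is transversal with sign `s` -/
def Good (M : ℂ → ℂ →L[ℝ] ℂ) (s : ℝ) (e : ℂ) : Prop := ∀ p, 0 < s * cross (M p e) e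

omit h in
lemma sign_const {g : ℂ → ℝ} (hg : Continuous g) (hne : ∀ p, g p ≠ 0) {p0 : ℂ} (h0 : 0 < g p0)
    (p : ℂ) : 0 < g p := by
  by_contra hc
  have h1 : g p ≤ 0 := not_lt.1 hc
  have hcon : (0 : ℝ) ∈ Set.range g := by
    have := (isPreconnected_range hg).Icc_subset (mem_range_self p) (mem_range_self p0)
    exact this ⟨h1, h0.le⟩
  obtain ⟨q, hq⟩ := hcon
  exact hne q hq

lemma exists_good : ∃ a b : ℂ, M 0 a = a ∧ M 0 b = 0 ∧ 0 < cross a b ∧
    (∃ α β : ℝ, 0 < α ∧ 0 < β ∧ Good M 1 (α • a + β • b)) ∧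
    (∃ α β : ℝ, 0 < α ∧ 0 < β ∧ Good M (-1) (α • a - β • b)) := by
  obtain ⟨a, ha, ha'⟩ := h.im
  obtain ⟨b0, hb0, hb0'⟩ := h.ker
  have hne : cross a b0 ≠ 0 := by
    intro hc
    obtain ⟨r, hr⟩ := exists_smul_of_cross hb0 hc
    apply ha
    have : M 0 a = 0 := by rw [hr, map_smul, hb0', smul_zero]
    rw [← ha', this]
  obtain ⟨b, hb, hb', hab⟩ : ∃ b : ℂ, b ≠ 0 ∧ M 0 b = 0 ∧ 0 < cross a b := by
    rcases lt_or_gt_of_ne hne with h1 | h1
    · exact ⟨-b0, neg_ne_zero.2 hb0, by simp [hb0'], by rw [cross_neg_right]; linarith⟩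
    · exact ⟨b0, hb0, hb0', h1⟩
  refine ⟨a, b, ha', hb', hab, ?_, ?_⟩
  · obtain ⟨s, hs0, hs1, hs⟩ := h.exists_transversal ha hb ha' hb'
    refine ⟨1 - s, s, by linarith, hs0, ?_⟩
    intro p
    have hMc := h.M_cont
    have hc : Continuous fun p => 1 * cross (M p ((1 - s) • a + s • b)) ((1 - s) • a + s • b) := by
      have : Continuous fun p => (M p ((1 - s) • a + s • b), ((1 - s) • a + s • b)) := by fun_prop
      exact continuous_const.mul (cross_continuous.comp this)
    refine sign_const hc (fun q => ?_) (p0 := 0) ?_ p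
    · rw [one_mul]; exact h.cross_ne (hs q).1 (hs q).2
    · rw [map_add, map_smul, map_smul, ha', hb', smul_zero, add_zero, cross_add_right,
        cross_smul_left, cross_smul_left, cross_smul_right, cross_smul_right, cross_self]
      have : 0 < (1 - s) * (s * cross a b) := by
        have : 0 < 1 - s := by linarith
        positivity
      linarith
  · obtain ⟨s, hs0, hs1, hs⟩ := h.exists_transversal ha (neg_ne_zero.2 hb) ha' (by simp [hb'])
    refine ⟨1 - s, s, by linarith, hs0, ?_⟩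
    intro p
    have hMc := h.M_cont
    have e0 : (1 - s) • a + s • (-b) = (1 - s) • a - s • b := by rw [smul_neg]; abel
    rw [e0] at hs
    have hc : Continuous fun p => -1 * cross (M p ((1 - s) • a - s • b)) ((1 - s) • a - s • b) := by
      have : Continuous fun p => (M p ((1 - s) • a - s • b), ((1 - s) • a - s • b)) := by fun_prop
      exact continuous_const.mul (cross_continuous.comp this)
    refine sign_const hc (fun q => ?_) (p0 := 0) ?_ p
    · have := h.cross_ne (hs q).1 (hs q).2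
      intro hc; apply this; linarith
    · rw [map_sub, map_smul, map_smul, ha', hb', smul_zero, sub_zero, cross_sub_right,
        cross_smul_left, cross_smul_left, cross_smul_right, cross_smul_right, cross_self]
      have : 0 < (1 - s) * (s * cross a b) := by
        have : 0 < 1 - s := by linarith
        positivity
      linarith

omit h in
lemma good_compl {s : ℝ} {e : ℂ} (hg : Good M s e) : Good (cM M) (-s) e := by
  intro p
  rw [cM_apply, cross_sub_left, cross_self]
  have := hg p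
  linarith

omit h in
lemma Good.ne_zero {s : ℝ} {e : ℂ} (hg : Good M s e) : e ≠ 0 := by
  rintro rfl
  have := hg 0
  simp [cross_zero_right] at this

lemma good_open {s : ℝ} {e : ℂ} (hg : Good M s e) : ∀ᶠ e' in 𝓝 e, Good M s e' := by
  obtain ⟨K, hK, hKp⟩ := h.cpt
  have hMc := h.M_cont
  have hc : Continuous fun z : ℂ × ℂ => s * cross (M z.2 z.1) z.1 := by
    have : Continuous fun z : ℂ × ℂ => (M z.2 z.1, z.1) := by fun_prop
    exact continuous_const.mul (cross_continuous.comp this)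
  have key := hK.eventually_forall_of_forall_eventually (x₀ := e)
    (P := fun e' p => 0 < s * cross (M p e') e') (fun p _ => by
      have : ∀ᶠ z : ℂ × ℂ in 𝓝 (e, p), 0 < s * cross (M z.2 z.1) z.1 :=
        hc.continuousAt.eventually (lt_mem_nhds (hg p))
      exact this)
  refine key.mono fun e' he' p => ?_
  obtain ⟨q, hq, hq'⟩ := hKp p
  have := he' q hq
  rwa [hq'] at this

lemma Good.bound {s : ℝ} {e : ℂ} (hg : Good M s e) : ∃ c > 0, ∀ p, c ≤ s * cross (M p e) e := by
  obtain ⟨K, hK, hKp⟩ := h.cpt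
  have hMc := h.M_cont
  have hc : Continuous fun p : ℂ => s * cross (M p e) e := by
    have : Continuous fun p : ℂ => (M p e, e) := by fun_prop
    exact continuous_const.mul (cross_continuous.comp this)
  obtain ⟨q0, hq0, -⟩ := hKp 0
  obtain ⟨x, hx, hmin⟩ := hK.exists_isMinOn ⟨q0, hq0⟩ hc.continuousOn
  refine ⟨s * cross (M x e) e, hg x, fun p => ?_⟩
  obtain ⟨q, hq, hq'⟩ := hKp p
  have := hmin hq
  simp only [mem_ofPred_eq] at this
  rwa [hq'] at this

lemma line_deriv (p e : ℂ) (t : ℝ) :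
    HasDerivAt (fun t : ℝ => Φ (p + t • e)) (M (p + t • e) e) t :=
  (h.prim (p + t • e)).comp_hasDerivAt t (seg_hasDeriv p e t)

/-- monotonicity along a transversal direction -/
lemma mono {s : ℝ} {e : ℂ} (hg : Good M s e) (p : ℂ) :
    StrictMono (fun t : ℝ => s * cross (Φ (p + t • e)) e) := by
  apply strictMono_of_deriv_pos
  intro t
  have h1 := (cross_hasDerivAt (h.line_deriv p e t) e).const_mul s
  rw [h1.deriv]
  exact hg _

lemma inj {s : ℝ} {e : ℂ} (hg : Good M s e) {p p' : ℂ} (hc : cross (Φ p - Φ p') e = 0) :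
    Φ p = Φ p' := by
  obtain ⟨-, -, q3⟩ := product_structure h.pf h.prim p p'
  obtain ⟨r, hr⟩ := exists_smul_of_cross hg.ne_zero hc
  have hq : qpt Φ p p' = p' + r • e := by
    unfold qpt; rw [← hr]; abel
  have hm := h.compl.mono (good_compl hg) p'
  have e1 : cF Φ (p' + r • e) = cF Φ (p' + (0 : ℝ) • e) := by
    rw [zero_smul, add_zero, ← hq]
    unfold cF
    rw [q3]
    unfold qpt; abel
  have e2 : r = 0 := hm.injective (by show -s * cross (cF Φ (p' + r • e)) e = _; rw [e1])
  rw [e2, zero_smul, sub_eq_zero] at hr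
  exact hr

/-- sweeping -/
lemma sweep {s : ℝ} {e : ℂ} (hg : Good M s e) (p p' : ℂ) : ∃ T : ℝ, Φ (p + T • e) = Φ p' := by
  obtain ⟨c, hc, hcb⟩ := hg.bound h
  set g : ℝ → ℝ := fun t => s * cross (Φ (p + t • e)) e with hgdef
  have hgd : ∀ t, HasDerivAt g (s * cross (M (p + t • e) e) e) t := fun t =>
    (cross_hasDerivAt (h.line_deriv p e t) e).const_mul s
  have hdiff : Differentiable ℝ g := fun t => (hgd t).differentiableAt
  have hgrow : ∀ x y, x ≤ y → c * (y - x) ≤ g y - g x := fun x y hxy =>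
    mul_sub_le_image_sub_of_le_deriv hdiff (fun t => by rw [(hgd t).deriv]; exact hcb _) hxy
  have hcont : Continuous g := hdiff.continuous
  have htop : Tendsto g atTop atTop := by
    refine tendsto_atTop_mono' (f₁ := fun t => c * t + g 0) atTop ?_ ?_
    · filter_upwards [eventually_ge_atTop 0] with t ht
      have := hgrow 0 t ht
      linarith
    · exact tendsto_atTop_add_const_right _ _ (tendsto_id.const_mul_atTop hc)
  have hbot : Tendsto g atBot atBot := by
    have hb2 : Tendsto (fun t : ℝ => c * t + g 0) atBot atBot :=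
      tendsto_atBot_add_const_right _ _ (tendsto_id.const_mul_atBot hc)
    refine tendsto_atBot_mono' atBot ?_ hb2
    filter_upwards [eventually_le_atBot 0] with t ht
    have := hgrow t 0 ht
    linarith
  obtain ⟨T, hT⟩ := hcont.surjective htop hbot (s * cross (Φ p') e)
  refine ⟨T, h.inj hg ?_⟩
  have hs : s ≠ 0 := by
    rintro rfl
    have := hg 0
    simp at this
  rw [cross_sub_left, sub_eq_zero]
  exact mul_left_cancel₀ hs hT

lemma sweep_sign {s : ℝ} {e : ℂ} (hg : Good M s e) {p : ℂ} {T : ℝ} :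
    (0 < T ↔ 0 < s * cross (Φ (p + T • e) - Φ p) e) ∧
    (T < 0 ↔ s * cross (Φ (p + T • e) - Φ p) e < 0) := by
  have hm := h.mono hg p
  have e0 : s * cross (Φ (p + T • e) - Φ p) e = s * cross (Φ (p + T • e)) e
      - s * cross (Φ (p + (0 : ℝ) • e)) e := by
    rw [cross_sub_left, zero_smul, add_zero]; ring
  rw [e0]
  constructor
  · rw [sub_pos]; exact (hm.lt_iff_lt (a := 0) (b := T)).symm
  · rw [sub_neg]; exact (hm.lt_iff_lt (a := T) (b := 0)).symm

/-- the leaf through `p` -/
lemma leaf_deriv (p e : ℂ) (t : ℝ) :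
    HasDerivAt (fun t : ℝ => qpt Φ (p + t • e) p) (M (p + t • e) e) t := by
  unfold qpt
  exact (h.line_deriv p e t).add_const _

lemma leaf_fix (p e : ℂ) (t : ℝ) :
    M (qpt Φ (p + t • e) p) (M (p + t • e) e) = M (p + t • e) e :=
  (product_structure h.pf h.prim (p + t • e) p).1 e

end Sys

end Pool.Agent.helper3.FlatTorus
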