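import Pool.Agent.helper3.FlatTorus.Ineq

/-! Planar geometry of the period lattice. -/

namespace Pool.Agent.helper3.FlatTorus
open Quaternion Complex Set Filter Topology

/-- Cramer's rule -/
lemma cramer (u v w : ℂ) : cross u w • v = cross v w • u + cross u v • w := by
  apply Complex.ext
  · simp [cross]; ring
  · simp [cross]; ring

lemma plucker (u v e e' : ℂ) :
    cross u e * cross v e' - cross v e * cross u e' = cross u v * cross e e' := by
  simp only [cross]; ring

lemma im_par {L : ℂ →L[ℝ] ℂ} {u u' v : ℂ} (hu : L u = u) (hu' : L u' = u') (hv : L v = 0)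
    (hv0 : v ≠ 0) : cross u u' = 0 := by
  have h1 := congrArg L (cramer u v u')
  rw [map_smul, map_add, map_smul, map_smul, hu, hu', hv, smul_zero, ← cramer u v u'] at h1
  rcases smul_eq_zero.1 h1.symm with h2 | h2
  · exact h2
  · exact absurd h2 hv0

lemma ker_par {L : ℂ →L[ℝ] ℂ} {u v v' : ℂ} (hv : L v = 0) (hv' : L v' = 0) (hu : L u = u)
    (hu0 : u ≠ 0) : cross v v' = 0 := by
  have h1 := congrArg L (cramer v u v')
  rw [map_smul, map_add, map_smul, map_smul, hu, hv, hv', smul_zero, smul_zero, add_zero] at h1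
  rcases smul_eq_zero.1 h1 with h2 | h2
  · exact h2
  · exact absurd h2 hu0

section signs
variable {M : ℂ → ℂ →L[ℝ] ℂ} {Φ : ℂ → ℂ} {Λ : AddSubgroup ℂ}

lemma prod_pos_of_good (hP : ProjField M) {e e' : ℂ} (hg : Sys.Good M 1 e)
    (hg' : Sys.Good M (-1) e') (p : ℂ) : 0 < cross (M p e) e' * cross (e - M p e) e' := by
  set u := M p e with hu
  set v := e - M p e with hv
  set u' := M p e' with hu'
  set v' := e' - M p e' with hv'
  have Lu : M p u = u := hP.idem p e
  have Lu' : M p u' = u' := hP.idem p e'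
  have Lv : M p v = 0 := by rw [hv, map_sub, hP.idem, sub_self]
  have Lv' : M p v' = 0 := by rw [hv', map_sub, hP.idem, sub_self]
  have h1 : 0 < cross u v := by
    have h0 := hg p
    have e1 : cross u v = cross u e := by
      rw [hv, cross_sub_right, ← hu, cross_self, sub_zero]
    rw [e1]; linarith
  have h2 : cross u' v' < 0 := by
    have h0 := hg' p
    have e1 : cross u' v' = cross u' e' := by
      rw [hv', cross_sub_right, ← hu', cross_self, sub_zero]
    rw [e1]; linarith
  have hu0 : u ≠ 0 := by intro h; rw [h, cross_zero_left] at h1; exact lt_irrefl _ h1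
  have hv0 : v ≠ 0 := by intro h; rw [h, cross_zero_right] at h1; exact lt_irrefl _ h1
  have p1 : cross u' u = 0 := im_par Lu' Lu Lv hv0
  have p2 : cross v' v = 0 := ker_par Lv' Lv Lu hu0
  obtain ⟨γ, hγ⟩ := exists_smul_of_cross hu0 p1
  obtain ⟨δ, hδ⟩ := exists_smul_of_cross hv0 p2
  have he' : e' = u' + v' := by rw [hv']; abel
  have h3 : cross u e' = δ * cross u v := by
    rw [he', cross_add_right, hγ, hδ, cross_smul_right, cross_self, cross_smul_right]; ring
  have h4 : cross v e' = - (γ * cross u v) := by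
    rw [he', cross_add_right, hγ, hδ, cross_smul_right, cross_smul_right, cross_self,
      cross_swap v u]; ring
  have h5 : γ * δ * cross u v < 0 := by
    have : cross u' v' = γ * δ * cross u v := by
      rw [hγ, hδ, cross_smul_left, cross_smul_right]; ring
    rw [← this]; exact h2
  rw [h3, h4]
  have : δ * cross u v * -(γ * cross u v) = -(γ * δ * cross u v) * cross u v := by ring
  rw [this]
  exact mul_pos (by linarith) h1

/-- sign of the quadratic form `cross _ e * cross _ e'` on the two components of periods -/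
lemma q_sign (hS : Sys M Φ Λ) {e e' : ℂ} (hg : Sys.Good M 1 e) (hg' : Sys.Good M (-1) e') :
    ∃ κ : ℝ, κ ≠ 0 ∧ ∀ l, (tau Φ l ≠ 0 → 0 < κ * (cross (tau Φ l) e * cross (tau Φ l) e')) ∧
      (tau (cF Φ) l ≠ 0 → κ * (cross (tau (cF Φ) l) e * cross (tau (cF Φ) l) e') < 0) := by
  have hprod := prod_pos_of_good hS.pf hg hg'
  have hMc := hS.M_cont
  have hc1 : Continuous fun p => cross (M p e) e' := by
    have : Continuous fun p => (M p e, e') := by fun_prop
    exact cross_continuous.comp this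
  have hne1 : ∀ p, cross (M p e) e' ≠ 0 := by
    intro p h0
    have := hprod p
    rw [h0, zero_mul] at this
    exact lt_irrefl _ this
  obtain ⟨κ, hκ, hκ1⟩ : ∃ κ : ℝ, κ ≠ 0 ∧ ∀ p, 0 < κ * cross (M p e) e' := by
    rcases lt_or_gt_of_ne (hne1 0) with h | h
    · refine ⟨-1, by norm_num, fun p => ?_⟩
      have h2 : (0 : ℝ) < -cross (M 0 e) e' := by linarith
      have := Sys.sign_const (g := fun p => -cross (M p e) e') hc1.neg
        (fun p => neg_ne_zero.2 (hne1 p)) h2 p
      linarith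
    · refine ⟨1, by norm_num, fun p => ?_⟩
      have := Sys.sign_const hc1 hne1 h p
      linarith
  have hκ2 : ∀ p, 0 < κ * cross (e - M p e) e' := by
    intro p
    have h1 := hκ1 p
    have h2 := hprod p
    by_contra hc
    have h3 : κ * cross (e - M p e) e' ≤ 0 := not_lt.1 hc
    have h4 : (κ * cross (M p e) e') * (κ * cross (e - M p e) e') ≤ 0 :=
      mul_nonpos_of_nonneg_of_nonpos h1.le h3
    have h5 : (κ * cross (M p e) e') * (κ * cross (e - M p e) e')
        = κ ^ 2 * (cross (M p e) e' * cross (e - M p e) e') := by ring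
    rw [h5] at h4
    have : 0 < κ ^ 2 * (cross (M p e) e' * cross (e - M p e) e') := by positivity
    linarith
  refine ⟨κ, hκ, fun l => ⟨fun hl => ?_, fun hl => ?_⟩⟩
  · obtain ⟨T, hT⟩ := hS.sweep hg 0 l
    have hss := hS.sweep_sign hg (p := 0) (T := T)
    rw [hT] at hss
    have hmono : StrictMono (fun t : ℝ => κ * cross (Φ (0 + t • e)) e') := by
      apply strictMono_of_deriv_pos
      intro t
      have h1 := (cross_hasDerivAt (hS.line_deriv 0 e t) e').const_mul κ
      rw [h1.deriv]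
      exact hκ1 _
    have hval : κ * cross (tau Φ l) e' = κ * cross (Φ (0 + T • e)) e'
        - κ * cross (Φ (0 + (0 : ℝ) • e)) e' := by
      rw [hT, zero_smul, add_zero]; unfold tau; rw [cross_sub_left]; ring
    rcases lt_trichotomy T 0 with h | h | h
    · have h1 := hss.2.1 h
      have h2 : κ * cross (tau Φ l) e' < 0 := by rw [hval, sub_neg]; exact hmono h
      have h3 : cross (tau Φ l) e < 0 := by unfold tau; linarith
      nlinarith
    · exfalso; apply hl; rw [h, zero_smul, add_zero] at hT; unfold tau; rw [← hT, sub_self]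
    · have h1 := hss.1.1 h
      have h2 : 0 < κ * cross (tau Φ l) e' := by rw [hval, sub_pos]; exact hmono h
      have h3 : 0 < cross (tau Φ l) e := by unfold tau; linarith
      nlinarith
  · obtain ⟨T, hT⟩ := hS.compl.sweep (Sys.good_compl hg) 0 l
    have hss := hS.compl.sweep_sign (Sys.good_compl hg) (p := 0) (T := T)
    rw [hT] at hss
    have hmono : StrictMono (fun t : ℝ => κ * cross (cF Φ (0 + t • e)) e') := by
      apply strictMono_of_deriv_pos
      intro t
      have h1 := (cross_hasDerivAt (hS.compl.line_deriv 0 e t) e').const_mul κ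
      rw [h1.deriv, cM_apply]
      exact hκ2 _
    have hval : κ * cross (tau (cF Φ) l) e' = κ * cross (cF Φ (0 + T • e)) e'
        - κ * cross (cF Φ (0 + (0 : ℝ) • e)) e' := by
      rw [hT, zero_smul, add_zero]; unfold tau; rw [cross_sub_left]; ring
    rcases lt_trichotomy T 0 with h | h | h
    · have h1 := hss.2.1 h
      have h2 : κ * cross (tau (cF Φ) l) e' < 0 := by rw [hval, sub_neg]; exact hmono h
      have h3 : 0 < cross (tau (cF Φ) l) e := by unfold tau; linarith
      nlinarith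
    · exfalso; apply hl; rw [h, zero_smul, add_zero] at hT; unfold tau; rw [← hT, sub_self]
    · have h1 := hss.1.1 h
      have h2 : 0 < κ * cross (tau (cF Φ) l) e' := by rw [hval, sub_pos]; exact hmono h
      have h3 : cross (tau (cF Φ) l) e < 0 := by unfold tau; linarith
      nlinarith

/-- `tau` is additive on periods -/
noncomputable def tauHom (hS : Sys M Φ Λ) : Λ →+ ℂ where
  toFun l := tau Φ l
  map_zero' := by simp [tau]
  map_add' l m := by
    have := hS.tau_spec m.2 l
    simp only [tau, AddSubgroup.coe_add]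
    rw [this]; ring

end signs

/-- a subgroup contained in a double cone lies on a line -/
lemma line_of_cone {G : AddSubgroup ℂ} {e e' : ℂ} {κ : ℝ} (hκ : κ ≠ 0) (hee : cross e e' ≠ 0)
    (h : ∀ w ∈ G, 0 ≤ κ * (cross w e * cross w e')) {u v : ℂ} (hu : u ∈ G) (hv : v ∈ G) :
    cross u v = 0 := by
  set A := κ * (cross u e * cross u e') with hA
  set C := κ * (cross v e * cross v e') with hC
  set B := κ * (cross u e * cross v e' + cross v e * cross u e') with hB
  have hint : ∀ m n : ℤ, 0 ≤ A * m ^ 2 + B * (m * n) + C * n ^ 2 := by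
    intro m n
    have hw : m • u + n • v ∈ G := G.add_mem (G.zsmul_mem hu m) (G.zsmul_mem hv n)
    have h1 := h _ hw
    have e1 : ∀ x : ℂ, cross (m • u + n • v) x = m * cross u x + n * cross v x := by
      intro x
      rw [cross_add_left, ← Int.cast_smul_eq_zsmul ℝ, ← Int.cast_smul_eq_zsmul ℝ, cross_smul_left,
        cross_smul_left]
    rw [e1, e1] at h1
    have e2 : A * m ^ 2 + B * (m * n) + C * n ^ 2 =
        κ * ((m * cross u e + n * cross v e) * (m * cross u e' + n * cross v e')) := by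
      rw [hA, hB, hC]; ring
    rw [e2]; exact h1
  have hrat : ∀ x : ℚ, 0 ≤ A * ((x : ℝ) * x) + B * x + C := by
    intro x
    have h1 := hint x.num x.den
    have hd : (0 : ℝ) < x.den := by exact_mod_cast x.den_pos
    have e1 : (x : ℝ) = x.num / x.den := by exact_mod_cast (Rat.num_div_den x).symm
    have e2 : A * ((x : ℝ) * x) + B * x + C =
        (A * (x.num : ℝ) ^ 2 + B * (x.num * x.den) + C * (x.den : ℝ) ^ 2) / (x.den : ℝ) ^ 2 := by
      rw [e1]; field_simp
    rw [e2]
    apply div_nonneg _ (by positivity)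
    exact_mod_cast h1
  have hreal : ∀ x : ℝ, 0 ≤ A * (x * x) + B * x + C := by
    intro x
    have hcl : IsClosed {x : ℝ | 0 ≤ A * (x * x) + B * x + C} :=
      isClosed_le continuous_const (by fun_prop)
    have := Rat.denseRange_cast (𝕜 := ℝ)
    exact this.induction_on (p := fun x => 0 ≤ A * (x * x) + B * x + C) x hcl (fun q => hrat q)
  have hd := discrim_le_zero hreal
  unfold discrim at hd
  have e3 : B ^ 2 - 4 * A * C = (κ * (cross u v * cross e e')) ^ 2 := by
    rw [← plucker u v e e', hA, hB, hC]; ring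
  rw [e3] at hd
  have h4 : κ * (cross u v * cross e e') = 0 := by
    have := sq_nonneg (κ * (cross u v * cross e e'))
    exact pow_eq_zero_iff (two_ne_zero) |>.1 (le_antisymm hd this)
  rcases mul_eq_zero.1 h4 with h5 | h5
  · exact absurd h5 hκ
  · rcases mul_eq_zero.1 h5 with h6 | h6
    · exact h6
    · exact absurd h6 hee

lemma norm_sub_smul_sq (l e : ℂ) (he : ‖e‖ = 1) (c : ℝ) :
    ‖l - c • e‖ ^ 2 = ‖l‖ ^ 2 - 2 * c * dot l e + c ^ 2 := by
  have h1 := norm_add_smul_sq l e he (-c)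
  have h2 : l + (-c) • e = l - c • e := by module
  rw [h2] at h1
  rw [h1, ← dot_cross_sq l e he]; ring

/-- a circle argument: strict inequality at a suitable point -/
lemma strict_point {Λ : AddSubgroup ℂ} (hfin : ∀ R : ℝ, {l : ℂ | l ∈ Λ ∧ ‖l‖ ≤ R}.Finite)
    {e0 : ℂ} (he0 : ‖e0‖ = 1)
    (h : ∀ᶠ e in 𝓝 e0, ‖e‖ = 1 → ∀ l ∈ Λ, Real.pi ≤ ‖l - Real.pi • e‖) :
    ∃ x : ℂ, ∀ l ∈ Λ, Real.pi < ‖l - x‖ := by
  have hpi := Real.pi_pos
  have hpi3 := Real.pi_gt_three
  set E : ℝ → ℂ := fun t => e0 * (Real.cos t + Real.sin t * I) with hE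
  have hEc : Continuous E := by rw [hE]; fun_prop
  have hEn : ∀ t, ‖E t‖ = 1 := by
    intro t
    simp only [hE]
    rw [norm_mul, he0, one_mul]
    have h1 : ‖(Real.cos t + Real.sin t * I : ℂ)‖ ^ 2 = 1 := by
      rw [Complex.sq_norm, normSq_apply]
      simp only [add_re, ofReal_re, mul_re, I_re, mul_zero, ofReal_im, I_im, mul_one, sub_self,
        add_zero, add_im, mul_im, zero_add]
      have := Real.cos_sq_add_sin_sq t
      nlinarith
    have h2 := norm_nonneg (Real.cos t + Real.sin t * I : ℂ)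
    nlinarith
  have hE0 : E 0 = e0 := by simp [hE]
  have hre : ∀ t, (E t).re = e0.re * Real.cos t - e0.im * Real.sin t := by
    intro t; simp [hE, mul_re, Complex.cos_ofReal_re, Complex.sin_ofReal_re]
  have him : ∀ t, (E t).im = e0.re * Real.sin t + e0.im * Real.cos t := by
    intro t; simp [hE, mul_im, Complex.cos_ofReal_re, Complex.sin_ofReal_re]
  have hev : ∀ᶠ t in 𝓝 (0 : ℝ), ∀ l ∈ Λ, Real.pi ≤ ‖l - Real.pi • E t‖ := by
    have h1 : Tendsto E (𝓝 0) (𝓝 e0) := by
      have := hEc.tendsto 0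
      rwa [hE0] at this
    exact (h1.eventually h).mono fun t ht => ht (hEn t)
  obtain ⟨δ, hδ, hδ'⟩ := Metric.eventually_nhds_iff.1 hev
  set ε := min δ 1 with hε
  have hε0 : 0 < ε := lt_min hδ one_pos
  have hgood : ∀ t ∈ Ioo (-ε) ε, ∀ l ∈ Λ, Real.pi ≤ ‖l - Real.pi • E t‖ := by
    intro t ht
    apply hδ'
    rw [Real.dist_eq, sub_zero]
    exact (abs_lt.2 ht).trans_le (min_le_left _ _)
  set F : Set ℂ := {l : ℂ | l ∈ Λ ∧ ‖l‖ ≤ 2 * Real.pi + 1} with hF
  have hFfin : F.Finite := hfin _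
  -- a generic parameter
  have hcr : ∀ (l : ℂ) (t : ℝ), cross l (E t) =
      Real.cos t * cross l e0 + Real.sin t * dot l e0 := by
    intro l t; unfold cross dot; rw [hre, him]; ring
  have hsub : ∀ l : ℂ, l ≠ 0 → {t ∈ Ioo (-ε) ε | cross l (E t) = 0}.Subsingleton := by
    intro l hl t ht s hs
    have h1 := ht.2
    have h2 := hs.2
    rw [hcr] at h1 h2
    have h3 : Real.sin (t - s) * cross l e0 = 0 := by
      rw [Real.sin_sub]; linear_combination (-Real.sin s) * h1 + Real.sin t * h2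
    have h4 : Real.sin (t - s) * dot l e0 = 0 := by
      rw [Real.sin_sub]; linear_combination (Real.cos s) * h1 - Real.cos t * h2
    have h5 : Real.sin (t - s) = 0 := by
      by_contra hc
      have h6 : cross l e0 = 0 := (mul_eq_zero.1 h3).resolve_left hc
      have h7 : dot l e0 = 0 := (mul_eq_zero.1 h4).resolve_left hc
      have h8 := dot_cross_sq l e0 he0
      rw [h6, h7] at h8
      apply hl
      have : ‖l‖ ^ 2 = 0 := by rw [← h8]; ring
      exact norm_eq_zero.1 (pow_eq_zero_iff two_ne_zero |>.1 this)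
    have h9 : -Real.pi < t - s := by
      have := ht.1.1; have := hs.1.2
      have : ε ≤ 1 := min_le_right _ _
      linarith
    have h10 : t - s < Real.pi := by
      have := ht.1.2; have := hs.1.1
      have : ε ≤ 1 := min_le_right _ _
      linarith
    have := (Real.sin_eq_zero_iff_of_lt_of_lt h9 h10).1 h5
    linarith
  have hbad : (⋃ l ∈ F \ {0}, {t ∈ Ioo (-ε) ε | cross l (E t) = 0}).Finite :=
    (hFfin.subset sdiff_subset).biUnion fun l hl => (hsub l (by simpa using hl.2)).finite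
  obtain ⟨t0, ht0, ht0'⟩ : ∃ t ∈ Ioo (-ε) ε,
      t ∉ ⋃ l ∈ F \ {0}, {t ∈ Ioo (-ε) ε | cross l (E t) = 0} := by
    have hinf : (Ioo (-ε) ε).Infinite := Ioo_infinite (by linarith)
    obtain ⟨t, ht, ht'⟩ := hinf.exists_notMem_finite hbad
    exact ⟨t, ht, ht'⟩
  have hne : ∀ l ∈ F, l ≠ 0 → cross l (E t0) ≠ 0 := by
    intro l hl hl0 hc
    apply ht0'
    simp only [mem_iUnion]
    exact ⟨l, ⟨hl, by simpa using hl0⟩, ht0, hc⟩
  -- strict inequality
  have hstrict : ∀ l ∈ F, l ≠ 0 → Real.pi < ‖l - Real.pi • E t0‖ := by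
    intro l hl hl0
    rcases (hgood t0 ht0 l hl.1).lt_or_eq with h1 | h1
    · exact h1
    · exfalso
      apply hne l hl hl0
      have hmax : IsLocalMax (fun t => dot l (E t)) t0 := by
        filter_upwards [Ioo_mem_nhds ht0.1 ht0.2] with t ht
        have h2 := hgood t ht l hl.1
        have h3 := norm_sub_smul_sq l (E t) (hEn t) Real.pi
        have h4 := norm_sub_smul_sq l (E t0) (hEn t0) Real.pi
        rw [← h1] at h4
        have h5 : Real.pi ^ 2 ≤ ‖l - Real.pi • E t‖ ^ 2 := by gcongr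
        nlinarith
      have hd : HasDerivAt (fun t => dot l (E t)) (-cross l (E t0)) t0 := by
        have e1 : (fun t => dot l (E t)) = fun t => Real.cos t * dot l e0 - Real.sin t * cross l e0 := by
          funext t; unfold dot cross; rw [hre, him]; ring
        rw [e1, hcr]
        have h2 := ((Real.hasDerivAt_cos t0).mul_const (dot l e0)).sub
          ((Real.hasDerivAt_sin t0).mul_const (cross l e0))
        refine h2.congr_deriv ?_
        ring
      have := hmax.hasDerivAt_eq_zero hd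
      linarith
  -- move outwards
  have hcontη : ∀ l : ℂ, Continuous fun η : ℝ => ‖l - (Real.pi + η) • E t0‖ := by
    intro l; fun_prop
  have hall : ∀ᶠ η in 𝓝 (0 : ℝ), ∀ l ∈ F \ {0}, Real.pi < ‖l - (Real.pi + η) • E t0‖ := by
    rw [Filter.eventually_all_finite (hFfin.subset sdiff_subset)]
    intro l hl
    have h1 := hstrict l hl.1 (by simpa using hl.2)
    have h2 := (hcontη l).continuousAt (x := 0)
    refine h2.eventually (lt_mem_nhds ?_)
    simpa using h1
  have hsmall : ∀ᶠ η in 𝓝 (0 : ℝ), η < 1 := gt_mem_nhds one_pos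
  have hcomb : ∀ᶠ η in 𝓝[>] (0 : ℝ), (∀ l ∈ F \ {0}, Real.pi < ‖l - (Real.pi + η) • E t0‖) ∧ η < 1 ∧ 0 < η := by
    filter_upwards [hall.filter_mono nhdsWithin_le_nhds, hsmall.filter_mono nhdsWithin_le_nhds,
      self_mem_nhdsWithin] with η h1 h2 h3
    exact ⟨h1, h2, h3⟩
  obtain ⟨η, h1, h2, h3⟩ := hcomb.exists
  refine ⟨(Real.pi + η) • E t0, fun l hl => ?_⟩
  have hxn : ‖(Real.pi + η) • E t0‖ = Real.pi + η := by
    rw [norm_smul, hEn, mul_one, Real.norm_eq_abs, abs_of_pos (by linarith)]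
  by_cases hl0 : l = 0
  · rw [hl0, zero_sub, norm_neg, hxn]; linarith
  · by_cases hlF : l ∈ F
    · exact h1 l ⟨hlF, by simpa using hl0⟩
    · have h4 : 2 * Real.pi + 1 < ‖l‖ := by
        by_contra hc
        exact hlF ⟨hl, not_lt.1 hc⟩
      have h5 := norm_sub_norm_le l ((Real.pi + η) • E t0)
      rw [hxn] at h5
      linarith

/-- Clifford lattices in the plane -/
def IsCliff (Λ : AddSubgroup ℂ) : Prop :=
  ∃ A B : ℂ, A ≠ 0 ∧ B ≠ 0 ∧ dot A B = 0 ∧ ‖A‖ ^ 2 + ‖B‖ ^ 2 = (2 * Real.pi) ^ 2 ∧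
    ∀ l, l ∈ Λ ↔ ∃ m n : ℤ, l = m • A + n • B

section minus
variable {Λ : AddSubgroup ℂ} (hfin : ∀ R : ℝ, {l : ℂ | l ∈ Λ ∧ ‖l‖ ≤ R}.Finite)
  {x : ℂ} (hx : ∀ l ∈ Λ, Real.pi ≤ ‖l - x‖) (hcov : ∀ y : ℂ, ∃ l ∈ Λ, ‖l - y‖ ≤ Real.pi)
include hfin hx hcov

lemma pos_span {v : ℂ} (hv : ‖v‖ = 1) : ∃ l ∈ Λ, ‖l - x‖ = Real.pi ∧ 0 < dot (l - x) v := by
  by_contra hcon
  push Not at hcon
  set F : Set ℂ := {l : ℂ | l ∈ Λ ∧ ‖l‖ ≤ Real.pi + 1 + ‖x‖} with hF
  have hFfin : F.Finite := hfin _
  have hsq : ∀ (l : ℂ) (η : ℝ), ‖l - (x + η • v)‖ ^ 2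
      = ‖l - x‖ ^ 2 - 2 * η * dot (l - x) v + η ^ 2 := by
    intro l η
    have := norm_sub_smul_sq (l - x) v hv η
    rw [← this]; congr 2; abel
  have hall : ∀ᶠ η in 𝓝[>] (0 : ℝ), ∀ l ∈ F, Real.pi < ‖l - (x + η • v)‖ := by
    rw [Filter.eventually_all_finite hFfin]
    intro l hl
    rcases (hx l hl.1).lt_or_eq with h1 | h1
    · have hc : Continuous fun η : ℝ => ‖l - (x + η • v)‖ := by fun_prop
      have h2 := hc.continuousAt (x := 0)
      refine (h2.eventually (lt_mem_nhds ?_)).filter_mono nhdsWithin_le_nhds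
      simpa using h1
    · have h2 := hcon l hl.1 h1.symm
      filter_upwards [self_mem_nhdsWithin] with η hη
      have hη' : 0 < η := hη
      have h3 := hsq l η
      rw [← h1] at h3
      have h4 : Real.pi ^ 2 < ‖l - (x + η • v)‖ ^ 2 := by
        rw [h3]
        have : 0 < η ^ 2 := by positivity
        have : 2 * η * dot (l - x) v ≤ 0 := mul_nonpos_of_nonneg_of_nonpos (by linarith) h2
        linarith
      exact lt_of_pow_lt_pow_left₀ 2 (norm_nonneg _) h4
  have hsmall : ∀ᶠ η in 𝓝[>] (0 : ℝ), η < 1 := (gt_mem_nhds one_pos).filter_mono nhdsWithin_le_nhds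
  obtain ⟨η, h1, h2, h3⟩ := (hall.and (hsmall.and self_mem_nhdsWithin)).exists
  have h3' : 0 < η := h3
  obtain ⟨l, hl, hle⟩ := hcov (x + η • v)
  have hlF : l ∈ F := by
    refine ⟨hl, ?_⟩
    have h4 : ‖l‖ ≤ ‖l - (x + η • v)‖ + ‖x + η • v‖ := by
      have := norm_add_le (l - (x + η • v)) (x + η • v)
      rwa [sub_add_cancel] at this
    have h5 : ‖x + η • v‖ ≤ ‖x‖ + η := by
      refine (norm_add_le _ _).trans ?_
      rw [norm_smul, hv, mul_one, Real.norm_eq_abs, abs_of_pos h3']
    linarith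
  exact absurd hle (not_le.2 (h1 l hlF))

lemma get_vertex {a b : ℂ} (ha : ‖a‖ = 1) (hb : ‖b‖ = 1) (hab : cross a b ≠ 0)
    (hU : ∀ l ∈ Λ, ‖l - x‖ = Real.pi → cross (l - x) a = 0 ∨ cross (l - x) b = 0) :
    x + Real.pi • a ∈ Λ := by
  have hpi := Real.pi_pos
  -- unit vector orthogonal to b
  set v0 : ℂ := I * b with hv0
  have hd0 : dot b v0 = 0 := by simp [hv0, dot]; ring
  have hda : dot a v0 = - cross a b := by simp [hv0, dot, cross]; ring
  obtain ⟨v, hv, hbv, hav⟩ : ∃ v : ℂ, ‖v‖ = 1 ∧ dot b v = 0 ∧ 0 < dot a v := by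
    rcases lt_or_gt_of_ne hab with h | h
    · refine ⟨v0, by rw [hv0, norm_mul, norm_I, hb, one_mul], hd0, by rw [hda]; linarith⟩
    · refine ⟨-v0, by rw [norm_neg, hv0, norm_mul, norm_I, hb, one_mul], ?_, ?_⟩
      · have : dot b (-v0) = - dot b v0 := by simp [dot]; ring
        rw [this, hd0, neg_zero]
      · have : dot a (-v0) = - dot a v0 := by simp [dot]; ring
        rw [this, hda]; linarith
  obtain ⟨l, hl, hn, hpos⟩ := pos_span hfin hx hcov hv
  have ha0 : a ≠ 0 := by rintro rfl; simp at ha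
  have hb0 : b ≠ 0 := by rintro rfl; simp at hb
  rcases hU l hl hn with h | h
  · obtain ⟨r, hr⟩ := exists_smul_of_cross ha0 h
    have h1 : dot (l - x) v = r * dot a v := by rw [hr]; simp [dot]; ring
    rw [h1] at hpos
    have hr0 : 0 < r := by
      by_contra hc
      have := mul_nonpos_of_nonpos_of_nonneg (not_lt.1 hc) hav.le
      linarith
    rw [hr, norm_smul, ha, mul_one, Real.norm_eq_abs, abs_of_pos hr0] at hn
    have : x + Real.pi • a = l := by rw [← hn, ← hr]; abel
    rw [this]; exact hl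
  · exfalso
    obtain ⟨r, hr⟩ := exists_smul_of_cross hb0 h
    have h1 : dot (l - x) v = r * dot b v := by rw [hr]; simp [dot]; ring
    rw [h1, hbv, mul_zero] at hpos
    exact lt_irrefl _ hpos

lemma minus_cliff {a b : ℂ} (ha : ‖a‖ = 1) (hb : ‖b‖ = 1) (hab : cross a b ≠ 0)
    (hU : ∀ l ∈ Λ, ‖l - x‖ = Real.pi → cross (l - x) a = 0 ∨ cross (l - x) b = 0) :
    IsCliff Λ := by
  have hpi := Real.pi_pos
  have v1 := get_vertex hfin hx hcov ha hb hab hU
  have v2 := get_vertex hfin hx hcov hb ha (by rw [cross_swap]; simpa using hab)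
    (fun l hl hn => (hU l hl hn).symm)
  have v3 := get_vertex hfin hx hcov (a := -a) (b := b) (by rwa [norm_neg]) hb
    (by rw [cross_neg_left]; simpa using hab)
    (fun l hl hn => (hU l hl hn).imp_left (fun h => by rw [cross_neg_right, h, neg_zero]))
  have v4 := get_vertex hfin hx hcov (a := -b) (b := a) (by rwa [norm_neg]) ha
    (by rw [cross_neg_left, cross_swap, neg_neg]; exact hab)
    (fun l hl hn => ((hU l hl hn).symm).imp_left (fun h => by rw [cross_neg_right, h, neg_zero]))
  set A : ℂ := Real.pi • (a + b) with hA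
  set B : ℂ := Real.pi • (a - b) with hB
  have hAm : A ∈ Λ := by
    have := Λ.sub_mem v1 v4
    have e1 : x + Real.pi • a - (x + Real.pi • (-b)) = A := by rw [hA]; module
    rwa [e1] at this
  have hBm : B ∈ Λ := by
    have := Λ.sub_mem v1 v2
    have e1 : x + Real.pi • a - (x + Real.pi • b) = B := by rw [hB]; module
    rwa [e1] at this
  have hAB : cross A B ≠ 0 := by
    have : cross A B = -2 * Real.pi ^ 2 * cross a b := by
      rw [hA, hB, cross_smul_left, cross_smul_right, cross_add_left, cross_sub_right,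
        cross_sub_right, cross_self, cross_self, cross_swap b a]; ring
    rw [this]
    have : (-2 * Real.pi ^ 2 : ℝ) ≠ 0 := by
      have : 0 < Real.pi ^ 2 := by positivity
      intro h; linarith
    exact mul_ne_zero this hab
  have ha2 : a.re * a.re + a.im * a.im = 1 := by
    have := Complex.sq_norm a
    rw [ha, normSq_apply] at this; linarith
  have hb2 : b.re * b.re + b.im * b.im = 1 := by
    have := Complex.sq_norm b
    rw [hb, normSq_apply] at this; linarith
  have hdot : dot A B = 0 := by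
    have : dot A B = Real.pi ^ 2 * ((a.re * a.re + a.im * a.im) - (b.re * b.re + b.im * b.im)) := by
      rw [hA, hB]; simp [dot]; ring
    rw [this, ha2, hb2]; ring
  have hnorm : ‖A‖ ^ 2 + ‖B‖ ^ 2 = (2 * Real.pi) ^ 2 := by
    rw [Complex.sq_norm, Complex.sq_norm, normSq_apply, normSq_apply]
    have : A.re * A.re + A.im * A.im + (B.re * B.re + B.im * B.im) =
        2 * Real.pi ^ 2 * ((a.re * a.re + a.im * a.im) + (b.re * b.re + b.im * b.im)) := by
      rw [hA, hB]; simp; ring
    rw [this, ha2, hb2]; ring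
  have hA0 : A ≠ 0 := by intro h; rw [h, cross_zero_left] at hAB; exact hAB rfl
  have hB0 : B ≠ 0 := by intro h; rw [h, cross_zero_right] at hAB; exact hAB rfl
  have hAn : 0 < ‖A‖ ^ 2 := by have := norm_pos_iff.2 hA0; positivity
  have hBn : 0 < ‖B‖ ^ 2 := by have := norm_pos_iff.2 hB0; positivity
  clear_value A B
  -- norm of combinations
  have hcomb : ∀ α β : ℝ, ‖α • A + β • B‖ ^ 2 = α ^ 2 * ‖A‖ ^ 2 + β ^ 2 * ‖B‖ ^ 2 := by
    intro α β
    rw [Complex.sq_norm, Complex.sq_norm, Complex.sq_norm, normSq_apply, normSq_apply,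
      normSq_apply]
    have : dot A B = A.re * B.re + A.im * B.im := rfl
    rw [this] at hdot
    simp
    linear_combination (2 * α * β) * hdot
  -- coordinates
  have hcoord : ∀ z : ℂ, z = (cross z B / cross A B) • A + (cross A z / cross A B) • B := by
    intro z
    have h1 := cramer A z B
    have e1 : (cross A B)⁻¹ * cross z B = cross z B / cross A B := by rw [div_eq_mul_inv]; ring
    have e2 : (cross A B)⁻¹ * cross A z = cross A z / cross A B := by rw [div_eq_mul_inv]; ring
    calc z = (cross A B)⁻¹ • (cross A B • z) := by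
          rw [smul_smul, inv_mul_cancel₀ hAB, one_smul]
      _ = (cross z B / cross A B) • A + (cross A z / cross A B) • B := by
          rw [h1, smul_add, smul_smul, smul_smul, e1, e2]
  have hhalf : ∀ l ∈ Λ, ∀ α β : ℝ, l - x = α • A + β • B →
      (∃ k : ℤ, α = k + 1 / 2) ∧ (∃ k : ℤ, β = k + 1 / 2) := by
    intro l hl α β hz
    have hmem : l - (round α) • A - (round β) • B ∈ Λ :=
      Λ.sub_mem (Λ.sub_mem hl (Λ.zsmul_mem hAm _)) (Λ.zsmul_mem hBm _)
    have h1 := hx _ hmem
    have e1 : l - (round α) • A - (round β) • B - x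
        = (α - round α) • A + (β - round β) • B := by
      have : l = (α • A + β • B) + x := by rw [← hz]; abel
      rw [this, ← Int.cast_smul_eq_zsmul ℝ, ← Int.cast_smul_eq_zsmul ℝ]
      module
    rw [e1] at h1
    have h2 : Real.pi ^ 2 ≤ (α - round α) ^ 2 * ‖A‖ ^ 2 + (β - round β) ^ 2 * ‖B‖ ^ 2 := by
      rw [← hcomb]; gcongr
    have hra := abs_sub_round α
    have hrb := abs_sub_round β
    have h3 : (α - round α) ^ 2 ≤ 1 / 4 := by
      rw [← sq_abs]; nlinarith [abs_nonneg (α - round α)]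
    have h4 : (β - round β) ^ 2 ≤ 1 / 4 := by
      rw [← sq_abs]; nlinarith [abs_nonneg (β - round β)]
    have h5 : (α - round α) ^ 2 = 1 / 4 := by
      by_contra hc
      have h6 : (α - round α) ^ 2 < 1 / 4 := lt_of_le_of_ne h3 hc
      nlinarith
    have h6 : (β - round β) ^ 2 = 1 / 4 := by
      by_contra hc
      have h6 : (β - round β) ^ 2 < 1 / 4 := lt_of_le_of_ne h4 hc
      nlinarith
    have half : ∀ y : ℝ, (y - round y) ^ 2 = 1 / 4 → ∃ k : ℤ, y = k + 1 / 2 := by
      intro y hy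
      have : (y - round y - 1 / 2) * (y - round y + 1 / 2) = 0 := by linarith
      rcases mul_eq_zero.1 this with h | h
      · exact ⟨round y, by linarith⟩
      · exact ⟨round y - 1, by push_cast; linarith⟩
    exact ⟨half α h5, half β h6⟩
  refine ⟨A, B, hA0, hB0, hdot, hnorm, fun l => ⟨fun hl => ?_, ?_⟩⟩
  · have hz := hcoord (l - x)
    have hz0 := hcoord (0 - x)
    obtain ⟨⟨k1, hk1⟩, ⟨k2, hk2⟩⟩ := hhalf l hl _ _ hz
    obtain ⟨⟨k3, hk3⟩, ⟨k4, hk4⟩⟩ := hhalf 0 Λ.zero_mem _ _ hz0
    rw [hk1, hk2] at hz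
    rw [hk3, hk4] at hz0
    refine ⟨k1 - k3, k2 - k4, ?_⟩
    have : l = (l - x) - (0 - x) := by abel
    rw [this, hz, hz0, ← Int.cast_smul_eq_zsmul ℝ, ← Int.cast_smul_eq_zsmul ℝ]
    push_cast
    module
  · rintro ⟨m, n, rfl⟩
    exact Λ.add_mem (Λ.zsmul_mem hAm _) (Λ.zsmul_mem hBm _)

end minus

end Pool.Agent.helper3.FlatTorus
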