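import Mathlib

/-!
Fields of projections `M : E → E →L[ℝ] E` which are closed as `E`-valued one-forms.
With a primitive `Φ` of `M` and `Ψ = id - Φ` the space has a product structure.
-/

namespace Pool.Agent.helper3.FlatTorus
open Set Filter Topology

variable {E : Type*} [NormedAddCommGroup E] [NormedSpace ℝ E]

/-- A closed field of projections. -/
structure ProjField (M : E → E →L[ℝ] E) : Prop where
  smooth : ContDiff ℝ 1 M
  idem : ∀ p v, M p (M p v) = M p v
  symm : ∀ p u v, fderiv ℝ M p u v = fderiv ℝ M p v u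

namespace ProjField

variable {M : E → E →L[ℝ] E} (h : ProjField M)
include h

lemma hasF (p : E) : HasFDerivAt M (fderiv ℝ M p) p :=
  ((h.smooth.differentiable (by norm_num)) p).hasFDerivAt

lemma der_idem (p u v : E) :
    fderiv ℝ M p u (M p v) = fderiv ℝ M p u v - M p (fderiv ℝ M p u v) := by
  have h1 := (h.hasF p).clm_apply ((h.hasF p).clm_apply (hasFDerivAt_const v p))
  have h2 := (h.hasF p).clm_apply (hasFDerivAt_const v p)
  have h3 : (fun q => M q (M q v)) = fun q => M q v := funext fun q => h.idem q v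
  rw [h3] at h1
  have h4 := h1.unique h2
  have h5 := congrArg (fun L => L u) h4
  simp at h5
  exact eq_sub_of_add_eq' h5

lemma der_QP (p w v : E) :
    fderiv ℝ M p (w - M p w) (M p v) = 0 := by
  rw [h.der_idem, h.symm p (w - M p w) v, map_sub, h.der_idem p v w]
  simp only [sub_sub_cancel]
  rw [h.idem]; simp

omit h in
lemma key_decomp (h : ProjField M) (q y x : E) :
    fderiv ℝ M q y x = fderiv ℝ M q (M q y) x + fderiv ℝ M q (y - M q y) (x - M q x) := by
  have h1 := h.der_QP q y x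
  simp only [map_sub, sub_apply] at h1 ⊢
  rw [sub_eq_zero] at h1
  rw [h1]; abel

end ProjField

section gronwall

variable {M : E → E →L[ℝ] E} {Φ : E → E}

/-- The point of the product structure. -/
def qpt (Φ : E → E) (a b : E) : E := Φ a + (b - Φ b)

/-- the segment -/
def seg (p v : E) (t : ℝ) : E := p + t • v

lemma seg_hasDeriv (p v : E) (t : ℝ) : HasDerivAt (seg p v) v t := by
  unfold seg
  simpa using ((hasDerivAt_id t).smul_const v).const_add p

lemma seg_cont (p v : E) : Continuous (seg p v) := by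
  unfold seg; fun_prop

/-- first defect -/
def defA (M : E → E →L[ℝ] E) (Φ : E → E) (p v : E) (s t : ℝ) : E →L[ℝ] E :=
  (ContinuousLinearMap.id ℝ E - M (qpt Φ (seg p v s) (seg p v t))).comp (M (seg p v s))

/-- second defect -/
def defB (M : E → E →L[ℝ] E) (Φ : E → E) (p v : E) (s t : ℝ) : E →L[ℝ] E :=
  (M (qpt Φ (seg p v s) (seg p v t))).comp (ContinuousLinearMap.id ℝ E - M (seg p v t))

lemma qpt_deriv_t (hΦ : ∀ p, HasFDerivAt Φ (M p) p) (p v : E) (s t : ℝ) :
    HasDerivAt (fun t => qpt Φ (seg p v s) (seg p v t)) (v - M (seg p v t) v) t := by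
  unfold qpt
  have h1 := (hΦ (seg p v t)).comp_hasDerivAt t (seg_hasDeriv p v t)
  exact ((seg_hasDeriv p v t).sub h1).const_add _

lemma qpt_deriv_s (hΦ : ∀ p, HasFDerivAt Φ (M p) p) (p v : E) (s t : ℝ) :
    HasDerivAt (fun s => qpt Φ (seg p v s) (seg p v t)) (M (seg p v s) v) s := by
  unfold qpt
  have h1 := (hΦ (seg p v s)).comp_hasDerivAt s (seg_hasDeriv p v s)
  exact h1.add_const _

lemma defA_deriv (h : ProjField M) (hΦ : ∀ p, HasFDerivAt Φ (M p) p) (p v : E) (s t : ℝ) :
    HasDerivAt (fun t => defA M Φ p v s t)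
      (-(fderiv ℝ M (qpt Φ (seg p v s) (seg p v t)) (v - M (seg p v t) v)).comp
        (M (seg p v s))) t := by
  unfold defA
  have h1 := (h.hasF (qpt Φ (seg p v s) (seg p v t))).comp_hasDerivAt t
    (qpt_deriv_t hΦ p v s t)
  have h2 := (h1.const_sub (ContinuousLinearMap.id ℝ E)).clm_comp
    (hasDerivAt_const t (M (seg p v s)))
  refine h2.congr_deriv ?_
  rw [ContinuousLinearMap.comp_zero, add_zero, ContinuousLinearMap.neg_comp]

lemma defB_deriv (h : ProjField M) (hΦ : ∀ p, HasFDerivAt Φ (M p) p) (p v : E) (s t : ℝ) :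
    HasDerivAt (fun s => defB M Φ p v s t)
      ((fderiv ℝ M (qpt Φ (seg p v s) (seg p v t)) (M (seg p v s) v)).comp
        (ContinuousLinearMap.id ℝ E - M (seg p v t))) s := by
  unfold defB
  have h1 := (h.hasF (qpt Φ (seg p v s) (seg p v t))).comp_hasDerivAt s
    (qpt_deriv_s hΦ p v s t)
  have h2 := h1.clm_comp
    (hasDerivAt_const s (ContinuousLinearMap.id ℝ E - M (seg p v t)))
  refine h2.congr_deriv ?_
  rw [ContinuousLinearMap.comp_zero, add_zero]

/-- a function bounding both derivatives -/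
noncomputable def bdK (M : E → E →L[ℝ] E) (Φ : E → E) (p v : E) (s t : ℝ) : ℝ :=
  ‖fderiv ℝ M (qpt Φ (seg p v s) (seg p v t))‖ *
    (‖v‖ * ‖M (seg p v s)‖ + (1 + ‖M (qpt Φ (seg p v s) (seg p v t))‖) *
        (‖v‖ * (1 + ‖M (seg p v t)‖))
      + ‖v‖ * (1 + ‖M (seg p v t)‖) + (1 + ‖M (qpt Φ (seg p v s) (seg p v t))‖) *
        (‖M (seg p v s)‖ * ‖v‖))

lemma id_sub_norm (L : E →L[ℝ] E) : ‖ContinuousLinearMap.id ℝ E - L‖ ≤ 1 + ‖L‖ := by
  refine (norm_sub_le _ _).trans ?_
  gcongr
  exact ContinuousLinearMap.norm_id_le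

lemma defA_bound (h : ProjField M) (p v : E) (s t : ℝ) :
    ‖-(fderiv ℝ M (qpt Φ (seg p v s) (seg p v t)) (v - M (seg p v t) v)).comp
        (M (seg p v s))‖ ≤ bdK M Φ p v s t * (‖defA M Φ p v s t‖ + ‖defB M Φ p v s t‖) := by
  rw [norm_neg]
  refine ContinuousLinearMap.opNorm_le_bound _ ?_ ?_
  · unfold bdK; positivity
  intro u
  set q := qpt Φ (seg p v s) (seg p v t) with hq
  set D := fderiv ℝ M q with hD
  set y := v - M (seg p v t) v with hy
  set x := M (seg p v s) u with hx
  have e1 : M q y = defB M Φ p v s t v := by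
    simp [defB, hy, hq]
  have e2 : x - M q x = defA M Φ p v s t u := by
    simp [defA, hx, hq]
  have e3 : D y x = D (defB M Φ p v s t v) x + D (y - M q y) (defA M Φ p v s t u) := by
    rw [← e1, ← e2]; exact h.key_decomp q y x
  have hyn : ‖y‖ ≤ ‖v‖ * (1 + ‖M (seg p v t)‖) := by
    have : y = (ContinuousLinearMap.id ℝ E - M (seg p v t)) v := by simp [hy]
    rw [this, mul_comm]
    refine (ContinuousLinearMap.le_opNorm _ _).trans ?_
    gcongr
    exact id_sub_norm _
  have hxn : ‖x‖ ≤ ‖M (seg p v s)‖ * ‖u‖ := ContinuousLinearMap.le_opNorm _ _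
  have hQ : ‖y - M q y‖ ≤ (1 + ‖M q‖) * (‖v‖ * (1 + ‖M (seg p v t)‖)) := by
    have : y - M q y = (ContinuousLinearMap.id ℝ E - M q) y := by simp
    rw [this]
    refine (ContinuousLinearMap.le_opNorm _ _).trans ?_
    gcongr
    exact id_sub_norm _
  have n1 : ‖D (defB M Φ p v s t v) x‖ ≤ ‖D‖ * (‖defB M Φ p v s t‖ * ‖v‖) * (‖M (seg p v s)‖ * ‖u‖) := by
    refine (ContinuousLinearMap.le_opNorm _ _).trans ?_
    gcongr
    refine (ContinuousLinearMap.le_opNorm _ _).trans ?_
    gcongr
    exact ContinuousLinearMap.le_opNorm _ _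
  have n2 : ‖D (y - M q y) (defA M Φ p v s t u)‖ ≤ ‖D‖ * ((1 + ‖M q‖) * (‖v‖ * (1 + ‖M (seg p v t)‖)))
      * (‖defA M Φ p v s t‖ * ‖u‖) := by
    refine (ContinuousLinearMap.le_opNorm _ _).trans ?_
    gcongr
    · refine (ContinuousLinearMap.le_opNorm _ _).trans ?_
      gcongr
    · exact ContinuousLinearMap.le_opNorm _ _
  have e4 : ((D y).comp (M (seg p v s))) u = D y x := by simp [hx]
  rw [e4, e3]
  refine (norm_add_le _ _).trans ?_
  refine (add_le_add n1 n2).trans ?_
  unfold bdK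
  have hA := norm_nonneg (defA M Φ p v s t)
  have hB := norm_nonneg (defB M Φ p v s t)
  have hu := norm_nonneg u
  have hv := norm_nonneg v
  have hDn := norm_nonneg D
  have hMs := norm_nonneg (M (seg p v s))
  have hMt := norm_nonneg (M (seg p v t))
  have hMq := norm_nonneg (M q)
  rw [← hq, ← hD]
  set α := ‖defA M Φ p v s t‖
  set β := ‖defB M Φ p v s t‖
  set a := ‖M (seg p v s)‖
  set b := ‖M (seg p v t)‖
  set c := ‖M q‖
  set d := ‖D‖
  set w := ‖v‖
  set z := ‖u‖
  have k1 : 0 ≤ d * z := by positivity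
  have k2 : β * w * a + (1 + c) * (w * (1 + b)) * α ≤
      (w * a + (1 + c) * (w * (1 + b)) + w * (1 + b) + (1 + c) * (a * w)) * (α + β) := by
    have : 0 ≤ w * a * α := by positivity
    have : 0 ≤ (1 + c) * (w * (1 + b)) * β := by positivity
    have : 0 ≤ (w * (1 + b) + (1 + c) * (a * w)) * (α + β) := by positivity
    nlinarith
  calc d * (β * w) * (a * z) + d * ((1 + c) * (w * (1 + b))) * (α * z)
      = (d * z) * (β * w * a + (1 + c) * (w * (1 + b)) * α) := by ring
    _ ≤ (d * z) * ((w * a + (1 + c) * (w * (1 + b)) + w * (1 + b) + (1 + c) * (a * w)) * (α + β)) := by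
        gcongr
    _ = _ := by ring

lemma defB_bound (h : ProjField M) (p v : E) (s t : ℝ) :
    ‖(fderiv ℝ M (qpt Φ (seg p v s) (seg p v t)) (M (seg p v s) v)).comp
        (ContinuousLinearMap.id ℝ E - M (seg p v t))‖
      ≤ bdK M Φ p v s t * (‖defA M Φ p v s t‖ + ‖defB M Φ p v s t‖) := by
  refine ContinuousLinearMap.opNorm_le_bound _ ?_ ?_
  · unfold bdK; positivity
  intro u
  set q := qpt Φ (seg p v s) (seg p v t) with hq
  set D := fderiv ℝ M q with hD
  set y := u - M (seg p v t) u with hy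
  set x := M (seg p v s) v with hx
  have e1 : M q y = defB M Φ p v s t u := by
    simp [defB, hy, hq]
  have e2 : x - M q x = defA M Φ p v s t v := by
    simp [defA, hx, hq]
  have e3 : D y x = D (defB M Φ p v s t u) x + D (y - M q y) (defA M Φ p v s t v) := by
    rw [← e1, ← e2]; exact h.key_decomp q y x
  have hyn : ‖y‖ ≤ (1 + ‖M (seg p v t)‖) * ‖u‖ := by
    have : y = (ContinuousLinearMap.id ℝ E - M (seg p v t)) u := by simp [hy]
    rw [this]
    refine (ContinuousLinearMap.le_opNorm _ _).trans ?_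
    gcongr
    exact id_sub_norm _
  have hxn : ‖x‖ ≤ ‖M (seg p v s)‖ * ‖v‖ := ContinuousLinearMap.le_opNorm _ _
  have hQ : ‖y - M q y‖ ≤ (1 + ‖M q‖) * ((1 + ‖M (seg p v t)‖) * ‖u‖) := by
    have : y - M q y = (ContinuousLinearMap.id ℝ E - M q) y := by simp
    rw [this]
    refine (ContinuousLinearMap.le_opNorm _ _).trans ?_
    gcongr
    exact id_sub_norm _
  have n1 : ‖D (defB M Φ p v s t u) x‖ ≤ ‖D‖ * (‖defB M Φ p v s t‖ * ‖u‖) * (‖M (seg p v s)‖ * ‖v‖) := by
    refine (ContinuousLinearMap.le_opNorm _ _).trans ?_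
    gcongr
    refine (ContinuousLinearMap.le_opNorm _ _).trans ?_
    gcongr
    exact ContinuousLinearMap.le_opNorm _ _
  have n2 : ‖D (y - M q y) (defA M Φ p v s t v)‖ ≤ ‖D‖ * ((1 + ‖M q‖) * ((1 + ‖M (seg p v t)‖) * ‖u‖))
      * (‖defA M Φ p v s t‖ * ‖v‖) := by
    refine (ContinuousLinearMap.le_opNorm _ _).trans ?_
    gcongr
    · refine (ContinuousLinearMap.le_opNorm _ _).trans ?_
      gcongr
    · exact ContinuousLinearMap.le_opNorm _ _
  have e4 : ((D x).comp (ContinuousLinearMap.id ℝ E - M (seg p v t))) u = D y x := by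
    have h0 := h.symm q y x
    rw [← hD] at h0
    rw [h0]
    simp [hy, map_sub]
  rw [e4, e3]
  refine (norm_add_le _ _).trans ?_
  refine (add_le_add n1 n2).trans ?_
  unfold bdK
  have hA := norm_nonneg (defA M Φ p v s t)
  have hB := norm_nonneg (defB M Φ p v s t)
  have hu := norm_nonneg u
  have hv := norm_nonneg v
  have hDn := norm_nonneg D
  have hMs := norm_nonneg (M (seg p v s))
  have hMt := norm_nonneg (M (seg p v t))
  have hMq := norm_nonneg (M q)
  rw [← hq, ← hD]
  set α := ‖defA M Φ p v s t‖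
  set β := ‖defB M Φ p v s t‖
  set a := ‖M (seg p v s)‖
  set b := ‖M (seg p v t)‖
  set c := ‖M q‖
  set d := ‖D‖
  set w := ‖v‖
  set z := ‖u‖
  have k1 : 0 ≤ d * z := by positivity
  have k2 : β * w * a + (1 + c) * (w * (1 + b)) * α ≤
      (w * a + (1 + c) * (w * (1 + b)) + w * (1 + b) + (1 + c) * (a * w)) * (α + β) := by
    have : 0 ≤ w * a * α := by positivity
    have : 0 ≤ (1 + c) * (w * (1 + b)) * β := by positivity
    have : 0 ≤ (w * (1 + b) + (1 + c) * (a * w)) * (α + β) := by positivity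
    nlinarith
  calc d * (β * z) * (a * w) + d * ((1 + c) * ((1 + b) * z)) * (α * w)
      = (d * z) * (β * w * a + (1 + c) * (w * (1 + b)) * α) := by ring
    _ ≤ (d * z) * ((w * a + (1 + c) * (w * (1 + b)) + w * (1 + b) + (1 + c) * (a * w)) * (α + β)) := by
        gcongr
    _ = _ := by ring

lemma defA_diag (h : ProjField M) (p v : E) (s : ℝ) : defA M Φ p v s s = 0 := by
  ext u
  simp [defA, qpt, h.idem]

lemma defB_diag (h : ProjField M) (p v : E) (s : ℝ) : defB M Φ p v s s = 0 := by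
  ext u
  simp [defB, qpt, h.idem]

lemma defA_cont (h : ProjField M) (hΦ : ∀ p, HasFDerivAt Φ (M p) p) (p v : E) :
    Continuous (fun z : ℝ × ℝ => defA M Φ p v z.1 z.2) := by
  have hc : Continuous Φ := continuous_iff_continuousAt.2 fun p => (hΦ p).continuousAt
  have hm : Continuous M := h.smooth.continuous
  have hs := seg_cont p v
  unfold defA qpt
  fun_prop

lemma defB_cont (h : ProjField M) (hΦ : ∀ p, HasFDerivAt Φ (M p) p) (p v : E) :
    Continuous (fun z : ℝ × ℝ => defB M Φ p v z.1 z.2) := by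
  have hc : Continuous Φ := continuous_iff_continuousAt.2 fun p => (hΦ p).continuousAt
  have hm : Continuous M := h.smooth.continuous
  have hs := seg_cont p v
  unfold defB qpt
  fun_prop

lemma bdK_cont (h : ProjField M) (hΦ : ∀ p, HasFDerivAt Φ (M p) p) (p v : E) :
    Continuous (fun z : ℝ × ℝ => bdK M Φ p v z.1 z.2) := by
  have hc : Continuous Φ := continuous_iff_continuousAt.2 fun p => (hΦ p).continuousAt
  have hm : Continuous M := h.smooth.continuous
  have hd := h.smooth.continuous_fderiv (by norm_num)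
  have hs := seg_cont p v
  have hq : Continuous (fun z : ℝ × ℝ => qpt Φ (seg p v z.1) (seg p v z.2)) := by
    unfold qpt; fun_prop
  have h2 : Continuous (fun z : ℝ × ℝ => M (qpt Φ (seg p v z.1) (seg p v z.2))) :=
    hm.comp hq
  have h3 : Continuous (fun z : ℝ × ℝ => M (seg p v z.1)) := hm.comp (hs.comp continuous_fst)
  have h4 : Continuous (fun z : ℝ × ℝ => M (seg p v z.2)) := hm.comp (hs.comp continuous_snd)
  have h1' : Continuous (fun z : ℝ × ℝ => ‖fderiv ℝ M (qpt Φ (seg p v z.1) (seg p v z.2))‖) :=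
    hd.norm.comp hq
  have h2' : Continuous (fun z : ℝ × ℝ => ‖M (qpt Φ (seg p v z.1) (seg p v z.2))‖) :=
    continuous_norm.comp h2
  have h3' : Continuous (fun z : ℝ × ℝ => ‖M (seg p v z.1)‖) := continuous_norm.comp h3
  have h4' : Continuous (fun z : ℝ × ℝ => ‖M (seg p v z.2)‖) := continuous_norm.comp h4
  unfold bdK
  refine h1'.mul ?_
  refine ((((continuous_const.mul h3').add ((continuous_const.add h2').mul
    (continuous_const.mul (continuous_const.add h4')))).add
    (continuous_const.mul (continuous_const.add h4'))).add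
    ((continuous_const.add h2').mul (h3'.mul continuous_const)))

/-- the triangle -/
def tri : Set (ℝ × ℝ) := {z | 0 ≤ z.1 ∧ z.1 ≤ z.2 ∧ z.2 ≤ 1}

lemma tri_compact : IsCompact tri := by
  apply IsCompact.of_isClosed_subset (isCompact_Icc (a := ((0:ℝ), (0:ℝ))) (b := (1, 1)))
  · have : tri = {z : ℝ × ℝ | 0 ≤ z.1} ∩ ({z | z.1 ≤ z.2} ∩ {z | z.2 ≤ 1}) := by
      ext z; simp [tri]
    rw [this]
    exact (isClosed_le continuous_const continuous_fst).inter
      ((isClosed_le continuous_fst continuous_snd).inter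
        (isClosed_le continuous_snd continuous_const))
  · rintro ⟨a, b⟩ ⟨h1, h2, h3⟩
    simp only at h1 h2 h3
    constructor <;> constructor <;> simp <;> linarith

theorem def_zero (h : ProjField M) (hΦ : ∀ p, HasFDerivAt Φ (M p) p) (p v : E) :
    ∀ z ∈ tri, defA M Φ p v z.1 z.2 = 0 ∧ defB M Φ p v z.1 z.2 = 0 := by
  -- constant
  obtain ⟨C0, hC0⟩ := tri_compact.exists_bound_of_continuousOn (bdK_cont h hΦ p v).continuousOn
  set C : ℝ := max C0 1 with hCdef
  have hC1 : 1 ≤ C := le_max_right _ _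
  have hC : ∀ z ∈ tri, bdK M Φ p v z.1 z.2 ≤ C := fun z hz =>
    (le_abs_self _).trans ((hC0 z hz).trans (le_max_left _ _))
  set k : ℝ := 4 * C with hk
  have hkpos : 0 < k := by positivity
  -- the weighted maximum
  set w : ℝ × ℝ → ℝ := fun z => Real.exp (-(k * (z.2 - z.1))) *
    max ‖defA M Φ p v z.1 z.2‖ ‖defB M Φ p v z.1 z.2‖ with hw
  have hwc : Continuous w := by
    have h1 := defA_cont h hΦ p v
    have h2 := defB_cont h hΦ p v
    rw [hw]
    fun_prop
  have hne : tri.Nonempty := ⟨(0, 0), by simp [tri]⟩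
  obtain ⟨z0, hz0, hmax⟩ := tri_compact.exists_isMaxOn hne hwc.continuousOn
  set m : ℝ := w z0 with hm
  have hm0 : 0 ≤ m := by rw [hm, hw]; positivity
  have hmul : ∀ z ∈ tri, max ‖defA M Φ p v z.1 z.2‖ ‖defB M Φ p v z.1 z.2‖
      ≤ m * Real.exp (k * (z.2 - z.1)) := by
    intro z hz
    have h1 : w z ≤ m := hmax hz
    have h2 : Real.exp (k * (z.2 - z.1)) * Real.exp (-(k * (z.2 - z.1))) = 1 := by
      rw [← Real.exp_add]; simp
    calc max ‖defA M Φ p v z.1 z.2‖ ‖defB M Φ p v z.1 z.2‖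
        = Real.exp (k * (z.2 - z.1)) * w z := by
          rw [hw]; simp only; rw [← mul_assoc, h2, one_mul]
      _ ≤ Real.exp (k * (z.2 - z.1)) * m := by gcongr
      _ = _ := mul_comm _ _
  have hA : ∀ z ∈ tri, ‖defA M Φ p v z.1 z.2‖ ≤ (m / 2) * Real.exp (k * (z.2 - z.1)) := by
    rintro ⟨s, t⟩ ⟨h0s, hst, ht1⟩
    simp only at h0s hst ht1 ⊢
    have key := image_norm_le_of_norm_deriv_right_le_deriv_boundary
      (f := fun t => defA M Φ p v s t) (a := s) (b := t)
      (f' := fun t => -(fderiv ℝ M (qpt Φ (seg p v s) (seg p v t)) (v - M (seg p v t) v)).comp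
        (M (seg p v s)))
      (B := fun t => (m / 2) * Real.exp (k * (t - s)))
      (B' := fun t => 2 * C * (m * Real.exp (k * (t - s))))
      (fun x _ => (defA_deriv h hΦ p v s x).continuousAt.continuousWithinAt)
      (fun x _ => (defA_deriv h hΦ p v s x).hasDerivWithinAt)
      (by simp [defA_diag h]; linarith) ?_ ?_
    · exact key ⟨hst, le_rfl⟩
    · intro x
      have h1 : HasDerivAt (fun t : ℝ => k * (t - s)) k x := by
        simpa using ((hasDerivAt_id x).sub_const s).const_mul k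
      have h2 := (h1.exp).const_mul (m / 2)
      refine h2.congr_deriv ?_
      rw [hk]; ring
    · intro x hx
      have hxt : (s, x) ∈ tri := ⟨h0s, hx.1, hx.2.le.trans ht1⟩
      refine (defA_bound h p v s x).trans ?_
      have h1 := hmul _ hxt
      have h2 := hC _ hxt
      simp only at h1 h2
      have h3 := le_max_left ‖defA M Φ p v s x‖ ‖defB M Φ p v s x‖
      have h4 := le_max_right ‖defA M Φ p v s x‖ ‖defB M Φ p v s x‖
      calc bdK M Φ p v s x * (‖defA M Φ p v s x‖ + ‖defB M Φ p v s x‖)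
          ≤ C * (m * Real.exp (k * (x - s)) + m * Real.exp (k * (x - s))) := by
            gcongr <;> linarith
        _ = _ := by ring
  have hB : ∀ z ∈ tri, ‖defB M Φ p v z.1 z.2‖ ≤ (m / 2) * Real.exp (k * (z.2 - z.1)) := by
    rintro ⟨s, t⟩ ⟨h0s, hst, ht1⟩
    simp only at h0s hst ht1 ⊢
    have key := image_norm_le_of_norm_deriv_right_le_deriv_boundary
      (f := fun r => defB M Φ p v (-r) t) (a := -t) (b := -s)
      (f' := fun r => (-1 : ℝ) • (fderiv ℝ M (qpt Φ (seg p v (-r)) (seg p v t)) (M (seg p v (-r)) v)).comp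
        (ContinuousLinearMap.id ℝ E - M (seg p v t)))
      (B := fun r => (m / 2) * Real.exp (k * (t + r)))
      (B' := fun r => 2 * C * (m * Real.exp (k * (t + r)))) ?_ ?_
      (by simp [defB_diag h]; linarith) ?_ ?_
    · have := key (x := -s) ⟨by linarith, le_rfl⟩
      simpa [sub_eq_add_neg] using this
    · intro x _
      have h1 := (defB_deriv h hΦ p v (-x) t).scomp x (hasDerivAt_neg x)
      exact h1.continuousAt.continuousWithinAt
    · intro x _
      have h1 := (defB_deriv h hΦ p v (-x) t).scomp x (hasDerivAt_neg x)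
      exact h1.hasDerivWithinAt
    · intro x
      have h1 : HasDerivAt (fun r : ℝ => k * (t + r)) k x := by
        simpa using ((hasDerivAt_id x).const_add t).const_mul k
      have h2 := (h1.exp).const_mul (m / 2)
      refine h2.congr_deriv ?_
      rw [hk]; ring
    · intro x hx
      have hxt : (-x, t) ∈ tri := ⟨by linarith [hx.2], by linarith [hx.1], ht1⟩
      rw [norm_smul, norm_neg, norm_one, one_mul]
      refine (defB_bound h p v (-x) t).trans ?_
      have h1 := hmul _ hxt
      have h2 := hC _ hxt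
      simp only at h1 h2
      have h3 := le_max_left ‖defA M Φ p v (-x) t‖ ‖defB M Φ p v (-x) t‖
      have h4 := le_max_right ‖defA M Φ p v (-x) t‖ ‖defB M Φ p v (-x) t‖
      rw [show t - -x = t + x by ring] at h1
      calc bdK M Φ p v (-x) t * (‖defA M Φ p v (-x) t‖ + ‖defB M Φ p v (-x) t‖)
          ≤ C * (m * Real.exp (k * (t + x)) + m * Real.exp (k * (t + x))) := by
            gcongr <;> linarith
        _ = _ := by ring
  have hm2 : m ≤ m / 2 := by
    have h1 := max_le (hA z0 hz0) (hB z0 hz0)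
    have h2 : Real.exp (-(k * (z0.2 - z0.1))) * Real.exp (k * (z0.2 - z0.1)) = 1 := by
      rw [← Real.exp_add]; simp
    calc m = Real.exp (-(k * (z0.2 - z0.1))) *
        max ‖defA M Φ p v z0.1 z0.2‖ ‖defB M Φ p v z0.1 z0.2‖ := by rw [hm, hw]
      _ ≤ Real.exp (-(k * (z0.2 - z0.1))) * ((m / 2) * Real.exp (k * (z0.2 - z0.1))) := by gcongr
      _ = (m / 2) * (Real.exp (-(k * (z0.2 - z0.1))) * Real.exp (k * (z0.2 - z0.1))) := by ring
      _ = m / 2 := by rw [h2, mul_one]
  have hm00 : m = 0 := by linarith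
  intro z hz
  have h1 := hA z hz
  have h2 := hB z hz
  rw [hm00] at h1 h2
  simp only [zero_div, zero_mul] at h1 h2
  exact ⟨norm_le_zero_iff.1 h1, norm_le_zero_iff.1 h2⟩

/-- The product structure. -/
theorem product_structure (h : ProjField M) (hΦ : ∀ p, HasFDerivAt Φ (M p) p) (a b : E) :
    (∀ u, M (qpt Φ a b) (M a u) = M a u) ∧ (∀ u, M (qpt Φ a b) (u - M b u) = 0) ∧
      Φ (qpt Φ a b) = Φ a := by
  have hz : ((0 : ℝ), (1 : ℝ)) ∈ tri := by simp [tri]
  have hseg0 : seg a (b - a) 0 = a := by simp [seg]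
  have hseg1 : seg a (b - a) 1 = b := by simp [seg]
  obtain ⟨hA, hB⟩ := def_zero h hΦ a (b - a) _ hz
  simp only [defA, defB, hseg0, hseg1] at hA hB
  refine ⟨fun u => ?_, fun u => ?_, ?_⟩
  · have := congrArg (fun L => L u) hA
    simp at this
    rw [sub_eq_zero] at this
    exact this.symm
  · have := congrArg (fun L => L u) hB
    simpa using this
  · have hd : ∀ t ∈ Icc (0 : ℝ) 1, HasDerivAt (fun t => Φ (qpt Φ (seg a (b - a) 0) (seg a (b - a) t))) 0 t := by
      intro t ht
      have h1 := (hΦ _).comp_hasDerivAt t (qpt_deriv_t hΦ a (b - a) 0 t)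
      refine h1.congr_deriv ?_
      have h2 : ((0 : ℝ), t) ∈ tri := ⟨le_rfl, ht.1, ht.2⟩
      have h3 := (def_zero h hΦ a (b - a) _ h2).2
      have := congrArg (fun L => L (b - a)) h3
      simpa [defB] using this
    have hconst := constant_of_has_deriv_right_zero
      (f := fun t => Φ (qpt Φ (seg a (b - a) 0) (seg a (b - a) t))) (a := 0) (b := 1)
      (fun t ht => (hd t ht).continuousAt.continuousWithinAt)
      (fun t ht => (hd t ⟨ht.1, ht.2.le⟩).hasDerivWithinAt)
    have h1 := hconst 1 ⟨zero_le_one, le_rfl⟩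
    simp only [hseg0, hseg1] at h1
    rw [h1]
    congr 1
    simp [qpt]

end gronwall

end Pool.Agent.helper3.FlatTorus
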