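import Pool.Agent.helper3.FlatTorus.Approx
import Pool.Agent.helper3.FlatTorus.Main

/-! The leaves of a flat surface in the unit quaternions are limits of polygons. -/

namespace Pool.Agent.helper3.FlatTorus
open Quaternion Complex Set Filter Topology
open Pool.Agent.helper70.Tori (er sx sy Nonneg io)

attribute [local instance] starModuleQuat

/-- `V = X e + Y f` with positive `X`, `Y`, and the sign `ε` is a limit of holonomies of staircases
with total displacement `V` -/
def Reach (e f V : ℂ) (ε : ℝ) : Prop :=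
  ∃ X Y : ℝ, 0 < X ∧ 0 < Y ∧ V = X • e + Y • f ∧
    ∀ δ > 0, ∃ l : List (ℝ × ℝ), Nonneg l ∧ sx l = X ∧ sy l = Y ∧
      ‖Pool.Agent.helper70.Tori.hol e f l - (ε : ℍ[ℝ])‖ < δ

/-- coordinates in a basis -/
lemma coords {e f : ℂ} (hef : 0 < cross e f) (z : ℂ) :
    z = (cross z f / cross e f) • e + (cross e z / cross e f) • f := by
  have h1 := cramer e z f
  have hne : cross e f ≠ 0 := hef.ne'
  calc z = (cross e f)⁻¹ • (cross e f • z) := by rw [smul_smul, inv_mul_cancel₀ hne, one_smul]
    _ = _ := by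
      rw [h1, smul_add, smul_smul, smul_smul, div_eq_inv_mul, div_eq_inv_mul]

lemma cone_dir {M : ℂ → ℂ →L[ℝ] ℂ} (hP : ProjField M) {e f : ℂ} (hg : Sys.Good M 1 f)
    (hg' : Sys.Good M (-1) e) (hef : 0 < cross e f) (p : ℂ) :
    0 < cross e (M p f) ∧ 0 < cross (M p f) f ∧ 0 < cross f (f - M p f) ∧
      0 < cross (f - M p f) (-e) := by
  have h1 := prod_pos_of_good hP hg hg' p
  have h2 := hg p
  have h3 : cross (M p f) e + cross (f - M p f) e = - cross e f := by
    rw [cross_sub_left, cross_swap f e]; ring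
  have h4 : cross (M p f) e < 0 := by
    by_contra hc
    have h5 : 0 < cross (M p f) e := by
      rcases (not_lt.1 hc).lt_or_eq with h | h
      · exact h
      · rw [← h, zero_mul] at h1; exact absurd h1 (lt_irrefl _)
    have h6 : 0 < cross (f - M p f) e := by
      by_contra hcc
      have := mul_nonpos_of_nonneg_of_nonpos h5.le (not_lt.1 hcc)
      linarith
    linarith
  have h5 : cross (f - M p f) e < 0 := by
    by_contra hcc
    have := mul_nonpos_of_nonpos_of_nonneg h4.le (not_lt.1 hcc)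
    linarith
  refine ⟨?_, ?_, ?_, ?_⟩
  · rw [cross_swap]; linarith
  · linarith
  · rw [cross_sub_right, cross_self, cross_swap f]; linarith
  · rw [cross_neg_right]; linarith

/-- general construction of polygons from a rolling curve over a planar curve `z` -/
lemma reach_of_curve {e f : ℂ} (he : ‖e‖ = 1) (hf : ‖f‖ = 1) (hef : 0 < cross e f)
    {a b : ℍ[ℝ]} (o : OPair a b) {z z' : ℝ → ℂ} {c : ℝ → ℍ[ℝ]} (hz : ∀ t, HasDerivAt z (z' t) t)
    (hzc : Continuous z') (h1 : ∀ t, 0 < cross e (z' t)) (h2 : ∀ t, 0 < cross (z' t) f)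
    (hc : ∀ t, HasDerivAt c (c t * ((z' t).re • a + (z' t).im • b)) t) (hn : ∀ t, ‖c t‖ = 1)
    {T : ℝ} (hT : 0 < T) {V : ℂ} (hV : V = z T - z 0) {ε : ℝ} (hε : ε = 1 ∨ ε = -1)
    (hh : star (c 0) * c T = (ε : ℍ[ℝ])) : Reach e f V ε := by
  have hne := hef.ne'
  set x : ℝ → ℝ := fun t => cross (z t) f / cross e f with hx
  set y : ℝ → ℝ := fun t => cross e (z t) / cross e f with hy
  set x' : ℝ → ℝ := fun t => cross (z' t) f / cross e f with hx'
  set y' : ℝ → ℝ := fun t => cross e (z' t) / cross e f with hy'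
  have hxd : ∀ t, HasDerivAt x (x' t) t := fun t => (cross_hasDerivAt (hz t) f).div_const _
  have hyd : ∀ t, HasDerivAt y (y' t) t := by
    intro t
    have h3 : HasDerivAt (fun t => (-cross (z t) e) / cross e f) (-cross (z' t) e / cross e f) t :=
      ((cross_hasDerivAt (hz t) e).neg).div_const (cross e f)
    have e1 : (fun t => (-cross (z t) e) / cross e f) = y := by
      funext t; rw [hy]; simp only; rw [cross_swap e (z t)]
    have e2 : -cross (z' t) e / cross e f = y' t := by
      rw [hy']; simp only; rw [cross_swap e (z' t)]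
    rw [e2, e1] at h3
    exact h3
  have hpos : ∀ t, 0 < x' t ∧ 0 < y' t := fun t => ⟨div_pos (h2 t) hef, div_pos (h1 t) hef⟩
  have hroll : Roll (e.re • a + e.im • b) (f.re • a + f.im • b) x y x' y' c := by
    refine ⟨IU_comb o he, IU_comb o hf, hxd, hyd, fun t => ?_, hn⟩
    refine (hc t).congr_deriv ?_
    congr 1
    have h3 := coords hef (z' t)
    have e1 : (z' t).re = x' t * e.re + y' t * f.re := by
      conv_lhs => rw [h3]
      simp [hx', hy']
    have e2 : (z' t).im = x' t * e.im + y' t * f.im := by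
      conv_lhs => rw [h3]
      simp [hx', hy']
    rw [e1, e2]
    module
  have hcx : Continuous x' := by
    have : Continuous fun t => (z' t, f) := by fun_prop
    exact (cross_continuous.comp this).div_const _
  have hcy : Continuous y' := by
    have : Continuous fun t => (e, z' t) := by fun_prop
    exact (cross_continuous.comp this).div_const _
  have mx : StrictMono x := strictMono_of_deriv_pos (fun t => by rw [(hxd t).deriv]; exact (hpos t).1)
  have my : StrictMono y := strictMono_of_deriv_pos (fun t => by rw [(hyd t).deriv]; exact (hpos t).2)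
  refine ⟨x T - x 0, y T - y 0, sub_pos.2 (mx hT), sub_pos.2 (my hT), ?_, fun δ hδ => ?_⟩
  · rw [hV]
    conv_lhs => rw [coords hef (z T), coords hef (z 0)]
    simp only [hx, hy]
    module
  · obtain ⟨l, l1, l2, l3, l4⟩ := hroll.approx hcx hcy (fun t => ⟨(hpos t).1.le, (hpos t).2.le⟩)
      hT.le hδ
    refine ⟨l, l1, l2, l3, ?_⟩
    rw [hh] at l4
    have n1 : ‖Pool.Agent.helper70.Tori.hol e f l‖ = 1 := Pool.Agent.helper70.Tori.norm_hol he hf l
    have n2 : ‖holJ (e.re • a + e.im • b) (f.re • a + f.im • b) l‖ = 1 := by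
      clear l1 l2 l3 l4 n1
      induction l with
      | nil => simp [holJ]
      | cons p l ih =>
        simp only [holJ]
        rw [norm_mul, norm_mul, EE_norm (IU_comb o he), EE_norm (IU_comb o hf), ih]
        norm_num
    have k1 := norm_sub_sign n1 hε
    have k2 := norm_sub_sign n2 hε
    rw [hol_re o, ← k2] at k1
    have k3 := (sq_eq_sq₀ (norm_nonneg _) (norm_nonneg _)).1 k1
    rw [k3, norm_sub_rev]
    exact l4

section
variable {F : ℂ → ℍ[ℝ]} {Λ : AddSubgroup ℂ} {Φ : ℂ → ℂ}

lemma opairR (hF : FlatImm F) (p : ℂ) : OPair (-(thR F 1 p)) (-(thR F I p)) := by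
  have r1 := (IU_thR hF (e := 1) (by simp) p)
  have r2 := (IU_thR hF (e := I) (by simp) p)
  have n1 : (inner ℝ (thR F 1 p) (thR F 1 p) : ℝ) = 1 := by
    rw [real_inner_self_eq_norm_sq, r1.nm]; norm_num
  have n2 : (inner ℝ (thR F I p) (thR F I p) : ℝ) = 1 := by
    rw [real_inner_self_eq_norm_sq, r2.nm]; norm_num
  have hnR : ∀ v, ‖thR F v p‖ = ‖v‖ := by
    intro v
    unfold thR
    rw [norm_mul, norm_star, hF.sph, mul_one]
    exact hF.iso p v
  refine ⟨by simp [r1.re], by simp [r2.re], by rw [inner_neg_neg, n1], by rw [inner_neg_neg, n2], ?_⟩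
  rw [inner_neg_neg]
  have h1 := hnR (1 + I)
  have h2 : thR F (1 + I) p = thR F 1 p + thR F I p := by
    unfold thR; rw [D_add_dir, add_mul]
  have h3 := @norm_add_sq_real _ _ _ (thR F 1 p) (thR F I p)
  rw [← h2, h1, hnR, hnR] at h3
  have h4 : ‖(1 + I : ℂ)‖ ^ 2 = 2 := by
    rw [Complex.sq_norm, normSq_apply]; simp; norm_num
  rw [h4] at h3
  simp at h3
  linarith

/-- leaves of the first kind -/
lemma reach1 (hF : FlatImm F) (hS : Sys (MM F) Φ Λ) {e f : ℂ} (he : ‖e‖ = 1) (hf : ‖f‖ = 1)
    (hg : Sys.Good (MM F) 1 f) (hg' : Sys.Good (MM F) (-1) e) (hef : 0 < cross e f)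
    {T : ℝ} (hT : 0 < T) {V : ℂ} (hV : V = qpt Φ (0 + T • f) 0 - 0) {ε : ℝ}
    (hε : ε = 1 ∨ ε = -1) (hh : F V = ε • F 0) : Reach e f V ε := by
  set z : ℝ → ℂ := fun t => qpt Φ (0 + t • f) 0 with hz
  set z' : ℝ → ℂ := fun t => MM F (0 + t • f) f with hz'
  have hzd : ∀ t, HasDerivAt z (z' t) t := fun t => hS.leaf_deriv 0 f t
  have z0 : z 0 = 0 := qpt_zero Φ 0 f
  have hfd : ∀ t, HasDerivAt (fun t => F (z t)) (F (z t) * th F (z' t) 0) t := by
    intro t
    have h1 := deriv_along hF.diff (hzd t)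
    rw [hF.Df_eq] at h1
    have h2 : th F (z' t) (z t) = th F (z' t) 0 := th_leaf hF hS (z' t) 0 f t
    rw [h2] at h1
    exact h1
  have hMc := hS.M_cont
  have hzc : Continuous z' := by rw [hz']; fun_prop
  refine reach_of_curve he hf hef (hF.opair 0) (c := fun t => F (z t)) hzd hzc
    (fun t => (cone_dir hS.pf hg hg' hef _).1) (fun t => (cone_dir hS.pf hg hg' hef _).2.1)
    (fun t => ?_) (fun t => hF.sph _) hT (V := V) (by rw [z0, hV]) hε ?_
  · refine (hfd t).congr_deriv ?_
    rw [FlatImm.th_lin F (z' t) 0]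
  · have e1 : z T = V := by rw [hV, sub_zero]
    simp only [z0, e1]
    rw [hh, mul_smul_comm, hF.star_mul_self']
    ext <;> simp

/-- leaves of the second kind -/
lemma reach2 (hF : FlatImm F) (hS : Sys (MM F) Φ Λ) {e f : ℂ} (he : ‖e‖ = 1) (hf : ‖f‖ = 1)
    (hg : Sys.Good (MM F) 1 f) (hg' : Sys.Good (MM F) (-1) e) (hef : 0 < cross e f)
    {T : ℝ} (hT : 0 < T) {V : ℂ} (hV : V = qpt (cF Φ) (0 + T • f) 0 - 0) {ε : ℝ}
    (hε : ε = 1 ∨ ε = -1) (hh : F V = ε • F 0) : Reach f (-e) V ε := by
  set z : ℝ → ℂ := fun t => qpt (cF Φ) (0 + t • f) 0 with hz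
  set z' : ℝ → ℂ := fun t => cM (MM F) (0 + t • f) f with hz'
  have hzd : ∀ t, HasDerivAt z (z' t) t := fun t => hS.compl.leaf_deriv 0 f t
  have z0 : z 0 = 0 := qpt_zero (cF Φ) 0 f
  have hfd : ∀ t, HasDerivAt (fun t => F (z t)) (thR F (z' t) 0 * F (z t)) t := by
    intro t
    have h1 := deriv_along hF.diff (hzd t)
    have h2 : thR F (z' t) (z t) = thR F (z' t) 0 := thR_leaf hF hS (z' t) 0 f t
    have h3 : D F (z' t) (z t) = thR F (z' t) (z t) * F (z t) := by
      unfold thR; rw [mul_assoc, hF.star_mul_self', mul_one]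
    rw [h3, h2] at h1
    exact h1
  have hMc := hS.compl.M_cont
  have hzc : Continuous z' := by rw [hz']; fun_prop
  have hef' : 0 < cross f (-e) := by rw [cross_neg_right, cross_swap]; simpa using hef
  have e0 : ∀ t, z' t = f - MM F (0 + t • f) f := fun t => by rw [hz']; simp [cM_apply]
  refine reach_of_curve hf (by rwa [norm_neg]) hef' (opairR hF 0) (c := fun t => star (F (z t))) hzd hzc
    (fun t => ?_) (fun t => ?_)
    (fun t => ?_) (fun t => ?_) hT (V := V) (by rw [z0, hV]) hε ?_
  · rw [e0]; exact (cone_dir hS.pf hg hg' hef _).2.2.1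
  · rw [e0]; exact (cone_dir hS.pf hg hg' hef _).2.2.2
  · have h1 := (hfd t).star
    refine h1.congr_deriv ?_
    rw [StarMul.star_mul]
    congr 1
    rw [FlatImm.thR_lin F (z' t) 0]
    have s1 : star (thR F 1 0) = -(thR F 1 0) := by
      have := (opairR hF 0).star_a
      rw [star_neg] at this
      have h3 := neg_injective this
      exact h3
    have s2 : star (thR F I 0) = -(thR F I 0) := by
      have := (opairR hF 0).star_b
      rw [star_neg] at this
      have h3 := neg_injective this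
      exact h3
    rw [star_add, Quaternion.star_smul, Quaternion.star_smul, s1, s2]
  · rw [_root_.norm_star, hF.sph]
  · have e1 : z T = V := by rw [hV, sub_zero]
    simp only [z0, e1]
    rw [hh, Quaternion.star_smul, mul_smul_comm, star_star, hF.self_mul_star']
    ext <;> simp

end

end Pool.Agent.helper3.FlatTorus
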