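import Pool.Agent.helper3.FlatTorus.Frame

/-! The closed projection field of a flat surface in the unit quaternions, and the directions in
which the left and the right frames are constant. -/

namespace Pool.Agent.helper3.FlatTorus
open Quaternion Complex

attribute [local instance] starModuleQuat

/-- first column -/
noncomputable def colU (f : ℂ → ℍ[ℝ]) (p : ℂ) : ℂ :=
  ((cb f p + 2) / 2) • (1 : ℂ) + (-(ca f p) / 2) • I

/-- second column -/
noncomputable def colV (f : ℂ → ℍ[ℝ]) (p : ℂ) : ℂ :=
  (cd f p / 2) • (1 : ℂ) + (-(cb f p) / 2) • I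

/-- the projection field -/
noncomputable def MM (f : ℂ → ℍ[ℝ]) (p : ℂ) : ℂ →L[ℝ] ℂ :=
  Complex.reCLM.smulRight (colU f p) + Complex.imCLM.smulRight (colV f p)

lemma MM_apply (f : ℂ → ℍ[ℝ]) (p w : ℂ) : MM f p w = w.re • colU f p + w.im • colV f p := by
  simp [MM]

lemma MM_re (f : ℂ → ℍ[ℝ]) (p w : ℂ) :
    (MM f p w).re = ((cb f p + 2) * w.re + cd f p * w.im) / 2 := by
  rw [MM_apply]; simp [colU, colV]; ring

lemma MM_im (f : ℂ → ℍ[ℝ]) (p w : ℂ) :
    (MM f p w).im = -(ca f p * w.re + cb f p * w.im) / 2 := by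
  rw [MM_apply]; simp [colU, colV]; ring

/-- the cross product in the plane -/
def cross (u v : ℂ) : ℝ := u.re * v.im - u.im * v.re

namespace FlatImm
variable {f : ℂ → ℍ[ℝ]} (h : FlatImm f)
include h

lemma colU_contDiff : ContDiff ℝ 1 (colU f) := by
  unfold colU
  have h1 := h.ca_contDiff
  have h2 := h.cb_contDiff
  fun_prop

lemma colV_contDiff : ContDiff ℝ 1 (colV f) := by
  unfold colV
  have h1 := h.cd_contDiff
  have h2 := h.cb_contDiff
  fun_prop

lemma MM_contDiff : ContDiff ℝ 1 (MM f) := by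
  unfold MM
  exact (contDiff_const.smulRight h.colU_contDiff).add (contDiff_const.smulRight h.colV_contDiff)

lemma D_colU (v p : ℂ) : D (colU f) v p =
    (D (cb f) v p / 2) • (1 : ℂ) + (-(D (ca f) v p) / 2) • I := by
  have h1 := (h.cb_diff p).hasFDerivAt
  have h2 := (h.ca_diff p).hasFDerivAt
  have h3 : HasFDerivAt (colU f) (((2 : ℝ)⁻¹ • fderiv ℝ (cb f) p).smulRight (1 : ℂ) +
      ((2 : ℝ)⁻¹ • (-(fderiv ℝ (ca f) p))).smulRight I) p := by
    unfold colU
    refine HasFDerivAt.add ?_ ?_
    · refine HasFDerivAt.smul_const ?_ _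
      simp only [div_eq_mul_inv]
      exact (h1.add_const 2).mul_const _
    · refine HasFDerivAt.smul_const ?_ _
      simp only [div_eq_mul_inv]
      exact (h2.neg).mul_const _
  unfold D
  rw [h3.fderiv]
  simp
  ring

lemma D_colV (v p : ℂ) : D (colV f) v p =
    (D (cd f) v p / 2) • (1 : ℂ) + (-(D (cb f) v p) / 2) • I := by
  have h1 := (h.cd_diff p).hasFDerivAt
  have h2 := (h.cb_diff p).hasFDerivAt
  have h3 : HasFDerivAt (colV f) (((2 : ℝ)⁻¹ • fderiv ℝ (cd f) p).smulRight (1 : ℂ) +
      ((2 : ℝ)⁻¹ • (-(fderiv ℝ (cb f) p))).smulRight I) p := by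
    unfold colV
    refine HasFDerivAt.add ?_ ?_
    · refine HasFDerivAt.smul_const ?_ _
      simp only [div_eq_mul_inv]
      exact h1.mul_const _
    · refine HasFDerivAt.smul_const ?_ _
      simp only [div_eq_mul_inv]
      exact (h2.neg).mul_const _
  unfold D
  rw [h3.fderiv]
  simp
  ring

lemma D_MM (u v p : ℂ) : fderiv ℝ (MM f) p u v = v.re • D (colU f) u p + v.im • D (colV f) u p := by
  have h1 := ((h.colU_contDiff.differentiable (by norm_num)) p).hasFDerivAt
  have h2 := ((h.colV_contDiff.differentiable (by norm_num)) p).hasFDerivAt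
  have h0 := ((h.MM_contDiff.differentiable (by norm_num)) p).hasFDerivAt
  have h3 := h0.clm_apply (hasFDerivAt_const v p)
  have h4 : HasFDerivAt (fun q => MM f q v)
      (v.re • fderiv ℝ (colU f) p + v.im • fderiv ℝ (colV f) p) p := by
    simp only [MM_apply]
    exact (h1.const_smul v.re).add (h2.const_smul v.im)
  have h5 := congrArg (fun L => L u) (h3.unique h4)
  simpa [D] using h5

lemma D_colU_I (p : ℂ) : D (colU f) I p = D (colV f) 1 p := by
  rw [h.D_colU, h.D_colV, h.integ2, (h.integ1 p).1]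

lemma MM_symm (p u v : ℂ) : fderiv ℝ (MM f) p u v = fderiv ℝ (MM f) p v u := by
  rw [h.D_MM, h.D_MM, D_dir (colU f) u, D_dir (colV f) u, D_dir (colU f) v, D_dir (colV f) v,
    h.D_colU_I]
  module

lemma MM_idem (p v : ℂ) : MM f p (MM f p v) = MM f p v := by
  have h1 := (h.integ1 p).2
  apply Complex.ext
  · rw [MM_re, MM_re, MM_im]
    linear_combination (- v.re / 4) * h1
  · rw [MM_im, MM_re, MM_im]
    linear_combination (- v.im / 4) * h1

lemma projField : ProjField (MM f) where
  smooth := h.MM_contDiff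
  idem := h.MM_idem
  symm := h.MM_symm

lemma D_th_zero (v w p : ℂ) : D (th f v) (MM f p w) p = 0 := by
  have h1 := (h.integ1 p).2
  have e : D (th f v) (MM f p w) p
      = v.re • D (th f 1) (MM f p w) p + v.im • D (th f I) (MM f p w) p := by
    have e1 : th f v = fun q => v.re • th f 1 q + v.im • th f I q := funext fun q => th_lin f v q
    unfold D
    conv_lhs => rw [e1]
    have h3 := ((h.th_diff 1 p).hasFDerivAt.const_smul v.re).add
      ((h.th_diff I p).hasFDerivAt.const_smul v.im)
    have h4 : fderiv ℝ (fun q => v.re • th f 1 q + v.im • th f I q) p = _ := h3.fderiv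
    rw [h4]; simp
  rw [e, D_dir (th f 1), D_dir (th f I), h.D00, h.D10, h.D01, h.D11, MM_re, MM_im]
  simp only [smul_smul, ← add_smul]
  have : v.re * (((cb f p + 2) * w.re + cd f p * w.im) / 2 * ca f p +
      -(ca f p * w.re + cb f p * w.im) / 2 * (cb f p + 2)) +
      v.im * (((cb f p + 2) * w.re + cd f p * w.im) / 2 * cb f p +
      -(ca f p * w.re + cb f p * w.im) / 2 * cd f p) = 0 := by
    linear_combination (v.re * w.im / 2 - v.im * w.re / 2) * h1
  rw [this, zero_smul]

lemma thR_eq (v p : ℂ) : thR f v p = f p * th f v p * star (f p) := by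
  unfold thR
  rw [h.Df_eq]

lemma D_thR (v u p : ℂ) :
    D (thR f v) u p = f p * (D (th f v) u p + th f u p * th f v p - th f v p * th f u p)
      * star (f p) := by
  have e : D (thR f v) u p = D (fun q => D f v q * star (f q)) u p := rfl
  rw [e, D_mul (((h.Df_contDiff v).differentiable (by norm_num)) p) (h.diff p).star, D_star,
    h.D_th, h.Df_eq v p, h.Df_eq u p, StarMul.star_mul, h.star_th]
  have e2 : D (D f v) u p = f p * (star (f p) * D (D f v) u p) := by
    rw [← mul_assoc, h.self_mul_star', one_mul]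
  conv_lhs => rw [e2]
  noncomm_ring

lemma D_thR_1 (u p : ℂ) : D (thR f 1) u p =
    (ca f p * u.re + cb f p * u.im) • (f p * nn f p * star (f p)) := by
  rw [h.D_thR, D_dir (th f 1), h.D00, h.D01, th_lin f u]
  have o := h.opair p
  have e1 : (u.re • th f 1 p + u.im • th f I p) * th f 1 p
      - th f 1 p * (u.re • th f 1 p + u.im • th f I p) = (-(2 * u.im)) • nn f p := by
    rw [add_mul, mul_add, smul_mul_assoc, smul_mul_assoc, mul_smul_comm, mul_smul_comm, o.ba, nn]
    module
  have e2 : u.re • ca f p • nn f p + u.im • (cb f p + 2) • nn f p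
      + (u.re • th f 1 p + u.im • th f I p) * th f 1 p
      - th f 1 p * (u.re • th f 1 p + u.im • th f I p)
      = (ca f p * u.re + cb f p * u.im) • nn f p := by
    rw [add_sub_assoc, e1]
    module
  rw [e2, mul_smul_comm, smul_mul_assoc]

lemma D_thR_I (u p : ℂ) : D (thR f I) u p =
    ((cb f p + 2) * u.re + cd f p * u.im) • (f p * nn f p * star (f p)) := by
  rw [h.D_thR, D_dir (th f I), h.D10, h.D11, th_lin f u]
  have o := h.opair p
  have e1 : (u.re • th f 1 p + u.im • th f I p) * th f I p
      - th f I p * (u.re • th f 1 p + u.im • th f I p) = (2 * u.re) • nn f p := by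
    rw [add_mul, mul_add, smul_mul_assoc, smul_mul_assoc, mul_smul_comm, mul_smul_comm, o.ba, nn]
    module
  have e2 : u.re • cb f p • nn f p + u.im • cd f p • nn f p
      + (u.re • th f 1 p + u.im • th f I p) * th f I p
      - th f I p * (u.re • th f 1 p + u.im • th f I p)
      = ((cb f p + 2) * u.re + cd f p * u.im) • nn f p := by
    rw [add_sub_assoc, e1]
    module
  rw [e2, mul_smul_comm, smul_mul_assoc]

omit h in
lemma thR_lin (f : ℂ → ℍ[ℝ]) (w p : ℂ) : thR f w p = w.re • thR f 1 p + w.im • thR f I p := by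
  unfold thR
  rw [D_dir f w p, add_mul]; simp

lemma thR_diff (v : ℂ) : Differentiable ℝ (thR f v) :=
  (h.thR_contDiff v).differentiable (by norm_num)

lemma D_thR_zero (v w p : ℂ) : D (thR f v) (w - MM f p w) p = 0 := by
  have h1 := (h.integ1 p).2
  have e : D (thR f v) (w - MM f p w) p
      = v.re • D (thR f 1) (w - MM f p w) p + v.im • D (thR f I) (w - MM f p w) p := by
    have e1 : thR f v = fun q => v.re • thR f 1 q + v.im • thR f I q :=
      funext fun q => thR_lin f v q
    unfold D
    conv_lhs => rw [e1]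
    have h3 := ((h.thR_diff 1 p).hasFDerivAt.const_smul v.re).add
      ((h.thR_diff I p).hasFDerivAt.const_smul v.im)
    have h4 : fderiv ℝ (fun q => v.re • thR f 1 q + v.im • thR f I q) p = _ := h3.fderiv
    rw [h4]; simp
  rw [e, h.D_thR_1, h.D_thR_I, sub_re, sub_im, MM_re, MM_im, smul_smul, smul_smul, ← add_smul]
  have : v.re * (ca f p * (w.re - ((cb f p + 2) * w.re + cd f p * w.im) / 2) +
      cb f p * (w.im - -(ca f p * w.re + cb f p * w.im) / 2)) +
      v.im * ((cb f p + 2) * (w.re - ((cb f p + 2) * w.re + cd f p * w.im) / 2) +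
      cd f p * (w.im - -(ca f p * w.re + cb f p * w.im) / 2)) = 0 := by
    linear_combination (v.im * w.re / 2 - v.re * w.im / 2) * h1
  rw [this, zero_smul]

omit h in
/-- the second fundamental form is twice the cross product of the two components -/
lemma cross_MM (p w : ℂ) : cross (MM f p w) w =
    (ca f p * w.re ^ 2 + 2 * (cb f p + 1) * w.re * w.im + cd f p * w.im ^ 2) / 2 := by
  unfold cross
  rw [MM_re, MM_im]; ring

end FlatImm

end Pool.Agent.helper3.FlatTorus
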