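import Pool.Agent.helper3.FlatTorus.Assembly
import Pool.Agent.helper70.Tori.SArc

/-! Assembly of the classification: sufficiency of the criterion. -/

namespace Pool.Agent.helper3.FlatTorus
open Pool.Agent.helper70.Tori (SArc immersion_of_sarcs cr)
open scoped ContDiff

/-- admissible vectors are displacements of closed arcs -/
def AdmArc : Prop := ∀ {e f : ℂ} {ε X Y : ℝ}, ‖e‖ = 1 → ‖f‖ = 1 → 0 < cross e f →
  (ε = 1 ∨ ε = -1) → 0 < X → 0 < Y → Adm ε e f X Y → Nonempty (SArc e f (X • e + Y • f) ε)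

/-- Sufficiency of the criterion (the construction of arcs being given). -/
theorem immersible_of_criterion (AA : AdmArc) {L : Submodule ℤ (EuclideanSpace ℝ (Fin 2))}
    (h : Criterion L) : Immersible L := by
  obtain ⟨e, f, X₁, Y₁, X₂, Y₂, ε₁, ε₂, he, hf, hef, hX₁, hY₁, hX₂, hY₂, hε₁, hε₂, hA₁, hA₂, hL⟩ :=
    h.toC
  have hne : ‖-e‖ = 1 := by rwa [norm_neg]
  have hc : 0 < cross f (-e) := by rw [cross_neg_right, cross_swap]; simpa using hef
  obtain ⟨A⟩ := AA he hf hef hε₁ hX₁ hY₁ hA₁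
  obtain ⟨B⟩ := AA hf hne hc hε₂ hX₂ hY₂ hA₂
  have hcr : cr e f ≠ 0 := hef.ne'
  obtain ⟨F, F1, F2, F3, F4⟩ := immersion_of_sarcs hcr hε₁ hε₂ A B
  refine ⟨fun z => ps.symm (F (ph.symm z)), ?_, ?_, ?_, ?_⟩
  · exact ps.symm.toContinuousLinearEquiv.contDiff.comp
      (F1.comp ph.symm.toContinuousLinearEquiv.contDiff)
  · intro z
    rw [ps.symm.norm_map, F2]
  · intro z w
    have h1 : DifferentiableAt ℝ F (ph.symm z) := (F1.differentiable (by simp)) _
    have h2 : HasFDerivAt (fun z => ps.symm (F (ph.symm z)))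
        ((ps.symm.toContinuousLinearEquiv : Quaternion ℝ →L[ℝ] EuclideanSpace ℝ (Fin 4)).comp
          ((fderiv ℝ F (ph.symm z)).comp
            (ph.symm.toContinuousLinearEquiv : EuclideanSpace ℝ (Fin 2) →L[ℝ] ℂ))) z :=
      ((ps.symm.toContinuousLinearEquiv :
        Quaternion ℝ →L[ℝ] EuclideanSpace ℝ (Fin 4)).hasFDerivAt).comp z
        ((h1.hasFDerivAt).comp z
          (ph.symm.toContinuousLinearEquiv : EuclideanSpace ℝ (Fin 2) →L[ℝ] ℂ).hasFDerivAt)
    rw [h2.fderiv]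
    show ‖ps.symm (fderiv ℝ F (ph.symm z) (ph.symm w))‖ = ‖w‖
    rw [ps.symm.norm_map, F3, ph.symm.norm_map]
  · intro z v hv
    obtain ⟨m, n, hmn, hs⟩ := hL v hv
    have h1 := F4 (ph.symm z) m n hs
    simp only [map_add]
    rw [hmn]
    simp only [zsmul_eq_mul]
    rw [h1]

end Pool.Agent.helper3.FlatTorus
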